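import Pool.Agent.L7h90.Split
import Pool.Agent.TH466.QG.Low

/-!
Finite groups of automorphisms.
-/

set_option autoImplicit false
set_option linter.overlappingInstances false
set_option linter.unusedSectionVars false
set_option maxHeartbeats 4000000
set_option synthInstance.maxHeartbeats 400000

open FF Polynomial Pool.Agent.W603.LV Pool.Agent.W602.GT Pool.Agent.W619.PQ Pool.Agent.N162.BC
open Module IntermediateField

namespace Pool.Agent.L7h90.BP

section

variable {K : Type} [Field K] [Algebra ℂ K]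

theorem trdeg_below (L : IntermediateField ℂ K) [FiniteDimensional L K] {n : ℕ}
    (htr : Algebra.trdeg ℂ K = n) : Algebra.trdeg ℂ L = n := by
  have h1 := trdeg_add_eq ℂ L (A := K)
  have h2 : Algebra.trdeg L K = 0 := by
    rw [_root_.trdeg_eq_zero_iff]
    infer_instance
  rw [h2, add_zero] at h1
  rw [h1, htr]

/-- automorphisms preserve rational equivalence -/
theorem rat_right {Ω : Type} [Field Ω] [Algebra ℂ Ω] (g : K ≃ₐ[ℂ] K) {c : (K →ₐ[ℂ] Ω) →₀ ℤ}
    (hc : c ∈ Pool.Agent.N162.BC.Rat K Ω) :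
    c.mapDomain (fun σ => σ.comp (g : K →ₐ[ℂ] K)) ∈ Pool.Agent.N162.BC.Rat K Ω := by
  have hbij : Function.Injective (fun σ : K →ₐ[ℂ] Ω => σ.comp (g : K →ₐ[ℂ] K)) := by
    intro σ σ' h
    ext a
    have := DFunLike.congr_fun h (g.symm a)
    simpa using this
  have hle : Pool.Agent.N162.BC.Rat K Ω ≤ (Pool.Agent.N162.BC.Rat K Ω).comap
      (Finsupp.mapDomain.addMonoidHom (fun σ => σ.comp (g : K →ₐ[ℂ] K)) :
        ((K →ₐ[ℂ] Ω) →₀ ℤ) →+ _) := by
    conv_lhs => unfold Pool.Agent.N162.BC.Rat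
    rw [AddSubgroup.closure_le]
    rintro c ⟨M, hM, a1, hFF, τ, f, hτ, hf0, hg⟩
    change c.mapDomain _ ∈ Pool.Agent.N162.BC.Rat K Ω
    refine AddSubgroup.subset_closure ⟨M, hM, a1, hFF, τ.comp (g : K →+* K), f, ?_, hf0, ?_⟩
    · intro z
      rw [RingHom.comp_apply]
      have : (g : K →+* K) (algebraMap ℂ K z) = algebraMap ℂ K z := g.commutes z
      rw [this, hτ]
    · intro σ
      obtain ⟨σ', rfl⟩ : ∃ σ' : K →ₐ[ℂ] Ω, σ = σ'.comp (g : K →ₐ[ℂ] K) := by
        refine ⟨σ.comp (g.symm : K →ₐ[ℂ] K), ?_⟩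
        ext a
        simp
      have h1 := Finsupp.mapDomain_apply hbij c σ'
      rw [h1, hg]
      have h2 : ∀ v : Place Ω M, CentredAt (τ.comp (g : K →+* K)) v (σ'.comp (g : K →ₐ[ℂ] K)) ↔
          CentredAt τ v σ' := by
        intro v
        constructor
        · intro h a
          have := h (g.symm a)
          simpa using this
        · intro h a
          exact h (g a)
      have h3 : {v : Place Ω M | CentredAt τ v σ'} =
          {v | CentredAt (τ.comp (g : K →+* K)) v (σ'.comp (g : K →ₐ[ℂ] K))} :=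
        Set.ext fun v => (h2 v).symm
      rw [h3]
  exact hle hc

end

/-- Every nonzero finite-dimensional representation of `G` over `ℚ` has a nonzero vector which is
fixed by one of the subgroups `H i`. -/
def Detects (G : Type) [Group G] {ι : Type} (H : ι → Subgroup G) : Prop :=
  ∀ (V : Type) [AddCommGroup V] [Module ℚ V] [FiniteDimensional ℚ V] [Nontrivial V]
    (ρ : G →* Module.End ℚ V), ∃ (i : ι) (v : V), v ≠ 0 ∧ ∀ h ∈ H i, ρ h v = v

/-- all points of the surface are rationally equivalent to zero, up to torsion and modulo the cycles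
which are supported on curves -/
def Trivial (K : Type) [Field K] [Algebra ℂ K] : Prop :=
  ∃ N : ℕ, 0 < N ∧ ∀ (Ω : Type) [Field Ω] [Algebra ℂ Ω] [IsAlgClosed Ω],
    Algebra.trdeg ℂ Ω = 2 → ∀ σ : K →ₐ[ℂ] Ω,
      N • Finsupp.single σ (1 : ℤ) ∈ Pool.Agent.N162.BC.Rat K Ω

section

variable {K : Type} [Field K] [Algebra ℂ K] {G : Type} [Group G] [Finite G]
  (act : G →* (K ≃ₐ[ℂ] K))

/-- the fixed field -/
theorem fixed_finite (hact : Function.Injective act) (H : Subgroup G) :
    FiniteDimensional (fixedField (H.map act)) K ∧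
      finrank (fixedField (H.map act)) K = Nat.card H := by
  classical
  have hfin : Finite (H.map act) := Finite.of_surjective
    (fun h : H => (⟨act h, Subgroup.mem_map_of_mem act h.2⟩ : H.map act)) (by
      rintro ⟨_, h, hh, rfl⟩
      exact ⟨⟨h, hh⟩, rfl⟩)
  have hfint : Fintype (H.map act) := Fintype.ofFinite _
  have hmem : ∀ a : K, a ∈ FixedPoints.subfield (H.map act) K ↔ a ∈ fixedField (H.map act) := by
    intro a
    rw [mem_fixedField_iff]
    constructor
    · intro h f hf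
      exact h ⟨f, hf⟩
    · rintro h ⟨f, hf⟩
      exact h f hf
  let i0 : FixedPoints.subfield (H.map act) K ≃+* fixedField (H.map act) :=
    { toFun := fun a => ⟨a, (hmem a).1 a.2⟩
      invFun := fun a => ⟨a, (hmem a).2 a.2⟩
      left_inv := fun a => rfl
      right_inv := fun a => rfl
      map_mul' := fun a b => rfl
      map_add' := fun a b => rfl }
  have hi0 : (algebraMap (fixedField (H.map act)) K).comp (i0 : _ →+* _) =
      ((RingEquiv.refl K : K ≃+* K) : K →+* K).comp
        (algebraMap (FixedPoints.subfield (H.map act) K) K) := rfl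
  have h1 := FixedPoints.finrank_eq_card (H.map act) K
  have h2 : Module.Finite (FixedPoints.subfield (H.map act) K) K :=
    FiniteDimensional.of_finrank_pos (by rw [h1]; exact Fintype.card_pos)
  refine ⟨Module.Finite.of_equiv_equiv i0 (RingEquiv.refl K) hi0, ?_⟩
  rw [← Algebra.finrank_eq_of_equiv_equiv i0 (RingEquiv.refl K) hi0, h1,
    ← Nat.card_eq_fintype_card]
  exact Nat.card_congr (H.equivMapOfInjective act hact).toEquiv.symm

/-- the sum over the points over a point of the quotient -/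
theorem pull_eq (hact : Function.Injective act) (H : Subgroup G) [Fintype H]
    {L : IntermediateField ℂ K} (hL : L = fixedField (H.map act)) [FiniteDimensional L K]
    (hcard : finrank L K = Nat.card H) {Ω : Type} [Field Ω] [Algebra ℂ Ω] [IsAlgClosed Ω]
    (σ : K →ₐ[ℂ] Ω) : pull L K Ω (Finsupp.single (restr L Ω σ) 1) =
      ∑ h : H, Finsupp.single (σ.comp (act h : K →ₐ[ℂ] K)) 1 := by
  classical
  have hinj : Function.Injective (fun h : H => σ.comp (act h : K →ₐ[ℂ] K)) := by
    intro h h' hh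
    apply Subtype.ext
    apply hact
    ext a
    exact σ.injective (DFunLike.congr_fun hh a)
  rw [pull_single]
  have himg : (Finset.univ : Finset H).image (fun h : H => σ.comp (act h : K →ₐ[ℂ] K)) =
      fib K (restr L Ω σ) := by
    refine Finset.eq_of_subset_of_card_le ?_ ?_
    · intro σ' hσ'
      obtain ⟨h, -, rfl⟩ := Finset.mem_image.1 hσ'
      rw [mem_fib]
      ext l
      have h1 : (l : K) ∈ fixedField (H.map act) := by
        rw [← hL]
        exact l.2
      have h2 := (mem_fixedField_iff _ _).1 h1 (act h) (Subgroup.mem_map_of_mem act h.2)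
      change σ (act h (l : K)) = σ (l : K)
      rw [h2]
    · rw [card_fib, Finset.card_image_of_injective _ hinj, Finset.card_univ, hcard,
        Nat.card_eq_fintype_card]
  rw [← himg, Finset.sum_image fun h _ h' _ hh => hinj hh]

/-- the good functions on the group -/
def Good (θ : G → ℚ) [Fintype G] : Prop :=
  ∃ N : ℕ, 0 < N ∧ ∃ θ' : G → ℤ, (∀ g, (θ' g : ℚ) = N * θ g) ∧
    ∀ (Ω : Type) [Field Ω] [Algebra ℂ Ω] [IsAlgClosed Ω], Algebra.trdeg ℂ Ω = 2 →
      ∀ σ : K →ₐ[ℂ] Ω, ∑ g, θ' g • Finsupp.single (σ.comp (act g : K →ₐ[ℂ] K)) (1 : ℤ) ∈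
        Pool.Agent.N162.BC.Rat K Ω

/-- the submodule of the good functions -/
noncomputable def goodSub [Fintype G] : Submodule ℚ (G → ℚ) where
  carrier := {θ | Good act θ}
  zero_mem' := ⟨1, one_pos, 0, fun g => by simp, fun Ω _ _ _ _ σ => by
    simp only [Pi.zero_apply, zero_smul, Finset.sum_const_zero]
    exact zero_mem _⟩
  add_mem' := by
    rintro θ1 θ2 ⟨N1, hN1, t1, h1, h1'⟩ ⟨N2, hN2, t2, h2, h2'⟩
    refine ⟨N1 * N2, Nat.mul_pos hN1 hN2, fun g => N2 * t1 g + N1 * t2 g, fun g => ?_,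
      fun Ω _ _ _ hΩ σ => ?_⟩
    · push_cast
      rw [h1, h2, Pi.add_apply]
      ring
    · have e : ∑ g, ((N2 : ℤ) * t1 g + N1 * t2 g) •
          Finsupp.single (σ.comp (act g : K →ₐ[ℂ] K)) (1 : ℤ) =
          (N2 : ℤ) • ∑ g, t1 g • Finsupp.single (σ.comp (act g : K →ₐ[ℂ] K)) (1 : ℤ) +
          (N1 : ℤ) • ∑ g, t2 g • Finsupp.single (σ.comp (act g : K →ₐ[ℂ] K)) (1 : ℤ) := by
        rw [Finset.smul_sum, Finset.smul_sum, ← Finset.sum_add_distrib]
        refine Finset.sum_congr rfl fun g _ => ?_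
        rw [add_smul, mul_smul, mul_smul]
      rw [e]
      exact add_mem (AddSubgroup.zsmul_mem _ (h1' Ω hΩ σ) _)
        (AddSubgroup.zsmul_mem _ (h2' Ω hΩ σ) _)
  smul_mem' := by
    rintro q θ ⟨N, hN, t, h, h'⟩
    refine ⟨N * q.den, Nat.mul_pos hN q.den_pos, fun g => q.num * t g, fun g => ?_,
      fun Ω _ _ _ hΩ σ => ?_⟩
    · push_cast
      rw [h, Pi.smul_apply, smul_eq_mul]
      have h1 : (q.den : ℚ) * q = q.num := by
        rw [mul_comm]
        exact Rat.mul_den_eq_num q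
      linear_combination -(N * θ g) * h1
    · have e : ∑ g, (q.num * t g) • Finsupp.single (σ.comp (act g : K →ₐ[ℂ] K)) (1 : ℤ) =
          q.num • ∑ g, t g • Finsupp.single (σ.comp (act g : K →ₐ[ℂ] K)) (1 : ℤ) := by
        rw [Finset.smul_sum]
        refine Finset.sum_congr rfl fun g _ => ?_
        rw [mul_smul]
      rw [e]
      exact AddSubgroup.zsmul_mem _ (h' Ω hΩ σ) _

theorem mem_goodSub [Fintype G] {θ : G → ℚ} : θ ∈ goodSub act ↔ Good act θ := Iff.rfl

theorem comp_act (Ω : Type) [Field Ω] [Algebra ℂ Ω] (σ : K →ₐ[ℂ] Ω) (g g' : G) :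
    (σ.comp (act g : K →ₐ[ℂ] K)).comp (act g' : K →ₐ[ℂ] K) =
      σ.comp (act (g * g') : K →ₐ[ℂ] K) := by
  ext a
  rw [map_mul]
  rfl

/-- left translations -/
theorem good_left [Fintype G] (g0 : G) {θ : G → ℚ} (h : θ ∈ goodSub act) :
    (LinearMap.funLeft ℚ ℚ (fun k => g0⁻¹ * k)) θ ∈ goodSub act := by
  obtain ⟨N, hN, t, h1, h2⟩ := h
  refine ⟨N, hN, fun k => t (g0⁻¹ * k), fun k => ?_, fun Ω _ _ _ hΩ σ => ?_⟩
  · rw [h1]
    rfl
  · have h3 := h2 Ω hΩ (σ.comp (act g0 : K →ₐ[ℂ] K))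
    have e : ∑ k, t (g0⁻¹ * k) • Finsupp.single (σ.comp (act k : K →ₐ[ℂ] K)) (1 : ℤ) =
        ∑ g, t g • Finsupp.single ((σ.comp (act g0 : K →ₐ[ℂ] K)).comp
          (act g : K →ₐ[ℂ] K)) (1 : ℤ) := by
      symm
      refine Fintype.sum_equiv (Equiv.mulLeft g0) _ _ fun g => ?_
      rw [comp_act, Equiv.coe_mulLeft, inv_mul_cancel_left]
    rw [e]
    exact h3

/-- common denominators -/
theorem exists_den [Fintype G] (θ : G → ℚ) :
    ∃ N : ℕ, 0 < N ∧ ∃ t : G → ℤ, ∀ g, (t g : ℚ) = N * θ g := by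
  classical
  refine ⟨∏ g, (θ g).den, Finset.prod_pos fun g _ => (θ g).den_pos,
    fun g => (∏ k ∈ Finset.univ.erase g, ((θ k).den : ℤ)) * (θ g).num, fun g => ?_⟩
  have h1 : (θ g) * ((θ g).den : ℚ) = (θ g).num := Rat.mul_den_eq_num (θ g)
  rw [← Finset.prod_erase_mul _ _ (Finset.mem_univ g)]
  push_cast
  rw [← h1]
  ring

/-- the image under the norm element of a subgroup -/
theorem good_norm [Fintype G] (hact : Function.Injective act) (H : Subgroup G)
    [Algebra.EssFiniteType ℂ K]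
    (hs : Trivial (fixedField (H.map act))) (θ : G → ℚ) [Fintype H] :
    (fun k => ∑ h : H, θ ((h : G)⁻¹ * k)) ∈ goodSub act := by
  classical
  obtain ⟨L, hL⟩ : ∃ L, L = fixedField (H.map act) := ⟨_, rfl⟩
  obtain ⟨hfd, hcard⟩ := fixed_finite act hact H
  rw [← hL] at hs hfd hcard
  obtain ⟨M, hM, hM'⟩ := hs
  obtain ⟨N, hN, t, ht⟩ := exists_den θ
  obtain ⟨c, hc⟩ : ∃ c, c = (finrank L K).factorial := ⟨_, rfl⟩
  refine ⟨c * M * N, Nat.mul_pos (Nat.mul_pos (by rw [hc]; exact Nat.factorial_pos _) hM) hN,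
    fun k => (c * M : ℕ) * ∑ h : H, t ((h : G)⁻¹ * k), fun k => ?_, fun Ω _ _ _ hΩ σ => ?_⟩
  · push_cast
    rw [Finset.mul_sum, Finset.mul_sum]
    refine Finset.sum_congr rfl fun h _ => ?_
    rw [ht]
    ring
  · have h1 : (c * M) • ∑ h : H, Finsupp.single (σ.comp (act h : K →ₐ[ℂ] K)) (1 : ℤ) ∈
        Pool.Agent.N162.BC.Rat K Ω := by
      rw [← pull_eq act hact H hL hcard σ]
      have h2 := rat_pull (K' := K) (hM' Ω hΩ (restr L Ω σ))
      rw [map_nsmul, ← mul_smul, ← hc] at h2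
      exact h2
    have e : ∑ k, (((c * M : ℕ) : ℤ) * ∑ h : H, t ((h : G)⁻¹ * k)) •
        Finsupp.single (σ.comp (act k : K →ₐ[ℂ] K)) (1 : ℤ) =
        ∑ g, t g • ((c * M) • ∑ h : H, Finsupp.single (σ.comp (act h : K →ₐ[ℂ] K)) (1 : ℤ)).mapDomain
          (fun σ => σ.comp (act g : K →ₐ[ℂ] K)) := by
      have e1 : ∀ g, ((c * M) • ∑ h : H, Finsupp.single (σ.comp (act h : K →ₐ[ℂ] K)) (1 : ℤ)).mapDomain
          (fun σ => σ.comp (act g : K →ₐ[ℂ] K)) =
          (c * M) • ∑ h : H, Finsupp.single (σ.comp (act (h * g) : K →ₐ[ℂ] K)) (1 : ℤ) := by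
        intro g
        have e2 : ∀ f : (K →ₐ[ℂ] Ω) →₀ ℤ, f.mapDomain (fun σ => σ.comp (act g : K →ₐ[ℂ] K)) =
            Finsupp.mapDomain.addMonoidHom (fun σ => σ.comp (act g : K →ₐ[ℂ] K)) f := fun f => rfl
        rw [e2, map_nsmul, map_sum]
        congr 1
        refine Finset.sum_congr rfl fun h _ => ?_
        rw [← e2, Finsupp.mapDomain_single, comp_act]
      simp only [e1]
      have e3 : ∀ h : H, ∑ g, (t g) • Finsupp.single (σ.comp (act (h * g) : K →ₐ[ℂ] K)) (1 : ℤ) =
          ∑ k, (t ((h : G)⁻¹ * k)) • Finsupp.single (σ.comp (act k : K →ₐ[ℂ] K)) (1 : ℤ) := by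
        intro h
        refine Fintype.sum_equiv (Equiv.mulLeft (h : G)) _ _ fun g => ?_
        rw [Equiv.coe_mulLeft, inv_mul_cancel_left]
      have e4 : ∀ g, t g • ((c * M) • ∑ h : H,
          Finsupp.single (σ.comp (act (h * g) : K →ₐ[ℂ] K)) (1 : ℤ)) =
          (c * M) • ∑ h : H, t g • Finsupp.single (σ.comp (act (h * g) : K →ₐ[ℂ] K)) (1 : ℤ) := by
        intro g
        rw [smul_comm, Finset.smul_sum]
      rw [Finset.sum_congr rfl fun g _ => e4 g, ← Finset.smul_sum, Finset.sum_comm,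
        Finset.sum_congr rfl fun h _ => e3 h, Finset.sum_comm, Finset.smul_sum]
      refine Finset.sum_congr rfl fun k _ => ?_
      rw [mul_smul, Finset.sum_smul, natCast_zsmul]
    rw [e]
    exact sum_mem fun g _ => AddSubgroup.zsmul_mem _ (rat_right (act g) h1) _

/-- **Averaging over a finite group.** -/
theorem group_rat [Algebra.EssFiniteType ℂ K] (hact : Function.Injective act) {ι : Type}
    (H : ι → Subgroup G) (hH : Detects G H) (hs : ∀ i, Trivial (fixedField ((H i).map act))) :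
    Trivial K := by
  classical
  have : Fintype G := Fintype.ofFinite G
  have hkey : goodSub act = ⊤ := by
    by_contra hne
    have hnt : Nontrivial ((G → ℚ) ⧸ goodSub act) := Submodule.Quotient.nontrivial_iff.2 hne
    let ρ : G →* Module.End ℚ ((G → ℚ) ⧸ goodSub act) :=
      { toFun := fun g0 => (goodSub act).mapQ (goodSub act)
          (LinearMap.funLeft ℚ ℚ (fun k => g0⁻¹ * k)) (fun θ h => good_left act g0 h)
        map_one' := by
          refine LinearMap.ext fun v => ?_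
          obtain ⟨θ, rfl⟩ := Submodule.Quotient.mk_surjective _ v
          change (Submodule.Quotient.mk (fun k => θ ((1 : G)⁻¹ * k)) : (G → ℚ) ⧸ goodSub act) =
            Submodule.Quotient.mk θ
          congr 1
          funext k
          rw [inv_one, one_mul]
        map_mul' := by
          intro g g'
          refine LinearMap.ext fun v => ?_
          obtain ⟨θ, rfl⟩ := Submodule.Quotient.mk_surjective _ v
          change (Submodule.Quotient.mk (fun k => θ ((g * g')⁻¹ * k)) : (G → ℚ) ⧸ goodSub act) =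
            Submodule.Quotient.mk (fun k => θ (g'⁻¹ * (g⁻¹ * k)))
          congr 1
          funext k
          rw [mul_inv_rev, mul_assoc] }
    obtain ⟨i, v, hv, hfix⟩ := hH _ ρ
    obtain ⟨θ, rfl⟩ := Submodule.Quotient.mk_surjective _ v
    have h1 : ∀ h : H i, (fun k => θ ((h : G)⁻¹ * k)) - θ ∈ goodSub act := by
      intro h
      have h2 := hfix h h.2
      rw [← Submodule.Quotient.eq]
      exact h2
    have h2 : ∑ h : H i, ((fun k => θ ((h : G)⁻¹ * k)) - θ) ∈ goodSub act :=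
      Submodule.sum_mem _ fun h _ => h1 h
    have h3 := good_norm act hact (H i) (hs i) θ
    have h4 : ∑ h : H i, ((fun k => θ ((h : G)⁻¹ * k)) - θ) =
        (fun k => ∑ h : H i, θ ((h : G)⁻¹ * k)) - (Fintype.card (H i) : ℚ) • θ := by
      funext k
      simp only [Finset.sum_apply, Pi.sub_apply, Finset.sum_sub_distrib, Finset.sum_const,
        Finset.card_univ, Pi.smul_apply, smul_eq_mul, nsmul_eq_mul]
    rw [h4] at h2
    have h5 := Submodule.sub_mem _ h3 h2
    rw [sub_sub_cancel] at h5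
    have h6 : (Fintype.card (H i) : ℚ) ≠ 0 := by
      have : 0 < Fintype.card (H i) := Fintype.card_pos
      positivity
    have h7 := (Submodule.smul_mem_iff _ h6).1 h5
    exact hv ((Submodule.Quotient.mk_eq_zero _).2 h7)
  have h1 : (Pi.single 1 1 : G → ℚ) ∈ goodSub act := by
    rw [hkey]
    trivial
  obtain ⟨N, hN, t, ht, h2⟩ := h1
  refine ⟨N, hN, fun Ω _ _ _ hΩ σ => ?_⟩
  have h3 := h2 Ω hΩ σ
  have h4 : ∀ g, t g = if g = 1 then (N : ℤ) else 0 := by
    intro g
    have h5 := ht g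
    by_cases hg : g = 1
    · rw [hg, Pi.single_eq_same, mul_one] at h5
      rw [if_pos hg, hg]
      exact_mod_cast h5
    · rw [Pi.single_eq_of_ne hg, mul_zero] at h5
      rw [if_neg hg]
      exact_mod_cast h5
  rw [Finset.sum_eq_single 1] at h3
  · rw [h4, if_pos rfl, map_one] at h3
    have h5 : σ.comp ((1 : K ≃ₐ[ℂ] K) : K →ₐ[ℂ] K) = σ := by
      ext a
      rfl
    rw [h5, natCast_zsmul] at h3
    exact h3
  · intro g _ hg
    rw [h4, if_neg hg, zero_smul]
  · intro h
    exact absurd (Finset.mem_univ _) h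

end

end Pool.Agent.L7h90.BP
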