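import Pool.Agent.L7h90.Deg
import Pool.Agent.L7h90.Group

/-!
Surfaces with `p_g = 0` and finite groups of automorphisms such that quotients have pencils with
completely split Jacobians.
-/

set_option autoImplicit false
set_option linter.overlappingInstances false
set_option linter.unusedSectionVars false
set_option maxHeartbeats 4000000
set_option synthInstance.maxHeartbeats 400000

open FF Polynomial Pool.Agent.W603.LV Pool.Agent.W602.GT Pool.Agent.W619.PQ Pool.Agent.N162.BC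
open Module IntermediateField

namespace Pool.Agent.L7h90.BP

/-- the degree bounds for elliptic surfaces which are dominated by the surface -/
def DegBounded (L : Type) [Field L] [Algebra ℂ L] : Prop :=
  ∀ (x ξ η : L) (a b : Polynomial ℂ), MapsToEll x ξ η a b → Minimal a b →
    a.natDegree ≤ 4 ∧ b.natDegree ≤ 6

section

variable {K : Type} [Field K] [Algebra ℂ K]

theorem degBounded_sub (hK : Algebra.trdeg ℂ K = 2) (hg : GenusZero K)
    (L : IntermediateField ℂ K) : DegBounded L := by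
  have hcK : CharZero K := charZero_of_injective_algebraMap (algebraMap ℂ K).injective
  intro x ξ η a b h hm
  refine deg_bound hK hg (x := (x : K)) (ξ := (ξ : K)) (η := (η : K)) ⟨h.disc, ?_, ?_⟩ hm
  · have h1 : L.val ∘ ![x, ξ] = ![(x : K), (ξ : K)] := by
      funext i
      fin_cases i <;> rfl
    rw [← h1]
    exact (L.val.algebraicIndependent_iff L.val.injective).2 h.ind
  · have hae : ∀ p : Polynomial ℂ, ((aeval x p : L) : K) = aeval (x : K) p := fun p =>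
      (aeval_algHom_apply L.val x p).symm
    rw [← hae, ← hae]
    exact congrArg (fun z : L => (z : K)) h.eq

/-- the scaled equation -/
theorem scaled (hK : Algebra.trdeg ℂ K = 2) (hb : DegBounded K) {x ξ η : K}
    {a b : Polynomial ℂ} (h : MapsToEll x ξ η a b) : ∃ (l : K) (a1 b1 : Polynomial ℂ), l ≠ 0 ∧
      l ∈ ℂ⟮x⟯ ∧ Dep x l ∧ MapsTo x (ξ * (l ^ 2)⁻¹) (η * (l ^ 3)⁻¹) a1 b1 := by
  obtain ⟨l, a1, b1, hl, ha, hb', hΔ, hm⟩ := exists_minimal _ a b h.disc le_rfl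
  have hx : Transcendental ℂ x := transc_left h.ind
  have hl0 : aeval x l ≠ 0 := fun h0 =>
    hl ((transcendental_iff_injective.1 hx) (by rw [h0, map_zero]))
  have hlm : ∀ (S : IntermediateField ℂ K), x ∈ S → aeval x l ∈ S := by
    intro S hS
    have h1 := aeval_algHom_apply S.val ⟨x, hS⟩ l
    change aeval x l = _ at h1
    rw [h1]
    exact (aeval (⟨x, hS⟩ : S) l).2
  have hind : AlgebraicIndependent ℂ ![x, ξ * ((aeval x l) ^ 2)⁻¹] := by
    refine ind_scale hK h.ind ?_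
    have h1 : x ∈ IntermediateField.adjoin ℂ (Set.range ![x, ξ * ((aeval x l) ^ 2)⁻¹]) :=
      subset_adjoin _ _ ⟨0, rfl⟩
    have h2 : ξ * ((aeval x l) ^ 2)⁻¹ ∈
        IntermediateField.adjoin ℂ (Set.range ![x, ξ * ((aeval x l) ^ 2)⁻¹]) :=
      subset_adjoin _ _ ⟨1, rfl⟩
    have h3 := mul_mem h2 (pow_mem (hlm _ h1) 2)
    rwa [mul_assoc, inv_mul_cancel₀ (pow_ne_zero 2 hl0), mul_one] at h3
  have heq : (η * ((aeval x l) ^ 3)⁻¹) ^ 2 = (ξ * ((aeval x l) ^ 2)⁻¹) ^ 3 +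
      aeval x a1 * (ξ * ((aeval x l) ^ 2)⁻¹) + aeval x b1 := by
    have h1 := h.eq
    rw [ha, hb', map_mul, map_mul, map_pow, map_pow] at h1
    field_simp
    linear_combination h1
  have h3 : MapsToEll x (ξ * ((aeval x l) ^ 2)⁻¹) (η * ((aeval x l) ^ 3)⁻¹) a1 b1 :=
    ⟨hΔ, hind, heq⟩
  have h4 := hb _ _ _ _ _ h3 hm
  exact ⟨aeval x l, a1, b1, hl0, hlm _ (mem_adjoin_simple_self ℂ x), Dep.aeval x l,
    ⟨h4.1, h4.2, hΔ, hind, heq⟩⟩

theorem adjoin_scaled {x ξ η l : K} (hl : l ∈ ℂ⟮x⟯) (hl0 : l ≠ 0) :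
    IntermediateField.adjoin ℂ (Set.range ![x, ξ * (l ^ 2)⁻¹, η * (l ^ 3)⁻¹]) =
      IntermediateField.adjoin ℂ (Set.range ![x, ξ, η]) := by
  have hlm : ∀ (S : IntermediateField ℂ K), x ∈ S → l ∈ S := by
    intro S hS
    exact (adjoin_simple_le_iff.2 hS) hl
  apply le_antisymm
  · rw [adjoin_le_iff]
    have h0 : x ∈ IntermediateField.adjoin ℂ (Set.range ![x, ξ, η]) := subset_adjoin _ _ ⟨0, rfl⟩
    have h1 : ξ ∈ IntermediateField.adjoin ℂ (Set.range ![x, ξ, η]) := subset_adjoin _ _ ⟨1, rfl⟩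
    have h2 : η ∈ IntermediateField.adjoin ℂ (Set.range ![x, ξ, η]) := subset_adjoin _ _ ⟨2, rfl⟩
    rintro _ ⟨i, rfl⟩
    fin_cases i
    · exact h0
    · exact mul_mem h1 (inv_mem (pow_mem (hlm _ h0) 2))
    · exact mul_mem h2 (inv_mem (pow_mem (hlm _ h0) 3))
  · rw [adjoin_le_iff]
    have h0 : x ∈ IntermediateField.adjoin ℂ
      (Set.range ![x, ξ * (l ^ 2)⁻¹, η * (l ^ 3)⁻¹]) := subset_adjoin _ _ ⟨0, rfl⟩
    have h1 : ξ * (l ^ 2)⁻¹ ∈ IntermediateField.adjoin ℂ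
      (Set.range ![x, ξ * (l ^ 2)⁻¹, η * (l ^ 3)⁻¹]) := subset_adjoin _ _ ⟨1, rfl⟩
    have h2 : η * (l ^ 3)⁻¹ ∈ IntermediateField.adjoin ℂ
      (Set.range ![x, ξ * (l ^ 2)⁻¹, η * (l ^ 3)⁻¹]) := subset_adjoin _ _ ⟨2, rfl⟩
    have h3 := mul_mem h1 (pow_mem (hlm _ h0) 2)
    have h4 := mul_mem h2 (pow_mem (hlm _ h0) 3)
    rw [mul_assoc, inv_mul_cancel₀ (pow_ne_zero _ hl0), mul_one] at h3 h4
    rintro _ ⟨i, rfl⟩
    fin_cases i
    · exact h0
    · exact h3
    · exact h4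

theorem ellForm_scaled {x ξ η l : K} (hl0 : l ≠ 0) (hd : Dep x l)
    (D : Fin 2 → Derivation ℂ K K) :
    ellForm x (ξ * (l ^ 2)⁻¹) (η * (l ^ 3)⁻¹) D = l * ellForm x ξ η D := by
  change wd (D 0) (D 1) x (ξ * (l ^ 2)⁻¹) / (η * (l ^ 3)⁻¹) = l * (wd (D 0) (D 1) x ξ / η)
  rw [wd_mul_dep (Dep.refl x) (hd.pow 2).inv]
  by_cases hη : η = 0
  · rw [hη, zero_mul, div_zero, div_zero, mul_zero]
  · field_simp

theorem der_scaled {x ξ η l : K} (hl0 : l ≠ 0) (hd : Dep x l) {D : Derivation ℂ K K}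
    (hD : D x = 0) : D (ξ * (l ^ 2)⁻¹) / (η * (l ^ 3)⁻¹) = l * (D ξ / η) := by
  obtain ⟨c, hc⟩ := (hd.pow 2).inv
  rw [Derivation.leibniz, hc, hD, mul_zero, smul_zero, zero_add, smul_eq_mul]
  by_cases hη : η = 0
  · rw [hη, zero_mul, div_zero, div_zero, mul_zero]
  · field_simp

/-- pencils on surfaces with the degree bounds -/
theorem split_of (hK : Algebra.trdeg ℂ K = 2) (hb : DegBounded K) (h : SplitPencil K) :
    HasSplitPencil K := by
  obtain ⟨x, n, ξ, η, a, b, hx, hm, horth, hspan⟩ := h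
  choose l a1 b1 hl0 hlm hld hmap using fun j => scaled hK hb (hm j)
  refine ⟨x, n, fun j => ξ j * (l j ^ 2)⁻¹, fun j => η j * (l j ^ 3)⁻¹, a1, b1, hx, hmap,
    fun i j hij D hD => ?_, fun ω => ?_⟩
  · have h1 := horth i j hij D hD
    have h2 := adjoin_scaled (ξ := ξ j) (η := η j) (hlm j) (hl0 j)
    obtain ⟨L, hL⟩ : ∃ L, L = IntermediateField.adjoin ℂ (Set.range ![x, ξ j, η j]) := ⟨_, rfl⟩
    rw [← hL] at h1 h2
    have hxL : x ∈ L := by
      rw [hL]
      exact subset_adjoin _ _ ⟨0, rfl⟩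
    have h3 : l i / l j ∈ L :=
      div_mem ((adjoin_simple_le_iff.2 hxL) (hlm i)) ((adjoin_simple_le_iff.2 hxL) (hlm j))
    rw [h2, der_scaled (hl0 i) (hld i) hD, der_scaled (hl0 j) (hld j) hD]
    have h4 : l i * (D (ξ i) / η i) / (l j * (D (ξ j) / η j)) =
        (⟨l i / l j, h3⟩ : L) • ((D (ξ i) / η i) / (D (ξ j) / η j)) := by
      rw [Algebra.smul_def]
      change _ = (l i / l j) * _
      rw [mul_div_mul_comm]
    rw [h4, map_smul, h1, smul_zero]
  · rw [hspan ω]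
    constructor
    · rintro ⟨c, hc, hω⟩
      refine ⟨fun j => c j / l j, fun j => div_mem (hc j) (hlm j), fun D => ?_⟩
      rw [hω]
      refine Finset.sum_congr rfl fun j _ => ?_
      rw [ellForm_scaled (hl0 j) (hld j), ← mul_assoc, div_mul_cancel₀ _ (hl0 j)]
    · rintro ⟨c, hc, hω⟩
      refine ⟨fun j => c j * l j, fun j => mul_mem (hc j) (hlm j), fun D => ?_⟩
      rw [hω]
      refine Finset.sum_congr rfl fun j _ => ?_
      rw [ellForm_scaled (hl0 j) (hld j), ← mul_assoc]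

end

end Pool.Agent.L7h90.BP
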