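import Pool.Agent.L7h90.PullRat

/-!
The curve `Y ^ 2 = G(X)`.
-/

set_option autoImplicit false
set_option linter.overlappingInstances false
set_option linter.unusedSectionVars false
set_option maxHeartbeats 4000000
set_option synthInstance.maxHeartbeats 400000

open FF Polynomial Pool.Agent.W603.LV Pool.Agent.W602.GT Pool.Agent.W619.PQ Pool.Agent.N162.BC
open Module IntermediateField

namespace Pool.Agent.L7h90.BP

section

variable {Ω M : Type} [Field Ω] [Field M] [Algebra Ω M]

theorem ge_mul_or {v : Place Ω M} {a b : M} (ha : Ge v 0 a) (hb : Ge v 0 b) (h : Ge v 1 (a * b)) :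
    Ge v 1 a ∨ Ge v 1 b := by
  rcases h with h | h
  · rcases mul_eq_zero.1 h with h | h
    · exact Or.inl (Or.inl h)
    · exact Or.inr (Or.inl h)
  · by_cases ha0 : a = 0
    · exact Or.inl (Or.inl ha0)
    by_cases hb0 : b = 0
    · exact Or.inr (Or.inl hb0)
    rw [v.ord_mul ha0 hb0] at h
    have h1 := ha.resolve_left ha0
    have h2 := hb.resolve_left hb0
    by_cases h3 : 1 ≤ v.ord a
    · exact Or.inl (Or.inr h3)
    · exact Or.inr (Or.inr (by omega))

/-- values of polynomials -/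
theorem ge_aeval_sub {v : Place Ω M} {X : M} {x : Ω} (h : Ge v 1 (X - algebraMap Ω M x))
    (p : (Polynomial Ω)) : Ge v 1 (aeval X p - algebraMap Ω M (p.eval x)) := by
  have hX : Ge v 0 X := by
    have h1 := (h.mono (by norm_num : (0 : ℤ) ≤ 1)).add (Ge.const (P := v) x)
    rwa [sub_add_cancel] at h1
  have h1 : (X - algebraMap Ω M x) ∣ (aeval X p - algebraMap Ω M (p.eval x)) := by
    have h2 := sub_dvd_eval_sub X (algebraMap Ω M x) (p.map (algebraMap Ω M))
    rwa [eval_map_algebraMap, eval_map_algebraMap, aeval_algebraMap_apply,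
      coe_aeval_eq_eval] at h2
  -- use the factorization over the constants
  obtain ⟨q, hq⟩ := dvd_iff_isRoot.2 (show (p - C (p.eval x)).IsRoot x by simp)
  have h3 : aeval X p - algebraMap Ω M (p.eval x) = (X - algebraMap Ω M x) * aeval X q := by
    have h4 := congrArg (aeval X) hq
    rw [map_sub, aeval_C, map_mul, map_sub, aeval_X, aeval_C] at h4
    exact h4
  rw [h3]
  have h5 := h.mul (ge_aeval (P := v) hX q)
  rwa [add_zero] at h5

end

/-- the curve `Y ^ 2 = G(X)` with a point over `x0` -/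
theorem exists_curve (Ω : Type) [Field Ω] [IsAlgClosed Ω] [CharZero Ω] (G : (Polynomial Ω)) {x0 h : Ω}
    (hh : h ≠ 0) (hG : G.eval x0 = h ^ 2) :
    ∃ (M : Type) (_ : Field M) (_ : Algebra Ω M) (_ : IsFF Ω M) (X Y : M) (v : Place Ω M),
      Transcendental Ω X ∧ Y ^ 2 = aeval X G ∧
      finrank Ω⟮X - algebraMap Ω M x0⟯ M ∣ 2 ∧ Ge v 1 (X - algebraMap Ω M x0) ∧
      Ge v 1 (Y - algebraMap Ω M h) := by
  classical
  obtain ⟨G', hG'⟩ : ∃ G', G' = G.comp (Polynomial.X + C x0) := ⟨_, rfl⟩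
  have hG0 : G ≠ 0 := by
    rintro rfl
    rw [eval_zero] at hG
    exact pow_ne_zero 2 hh hG.symm
  have hG'0 : G' ≠ 0 := by
    rw [hG']
    intro h0
    have h1 := congrArg (eval (0 : Ω)) h0
    rw [eval_comp, eval_add, eval_X, eval_C, zero_add, hG, eval_zero] at h1
    exact pow_ne_zero 2 hh h1
  obtain ⟨γ, hγ⟩ : ∃ γ : RatFunc Ω, γ = algebraMap (Polynomial Ω) (RatFunc Ω) G' := ⟨_, rfl⟩
  have hγ0 : γ ≠ 0 := by
    rw [hγ]
    exact RatFunc.algebraMap_ne_zero hG'0
  obtain ⟨p, hp⟩ : ∃ p : (RatFunc Ω)[X], p = Polynomial.X ^ 2 - C γ := ⟨_, rfl⟩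
  have hcE : CharZero (RatFunc Ω) :=
    charZero_of_injective_algebraMap (algebraMap Ω (RatFunc Ω)).injective
  have hpsep : p.Separable := by
    rw [hp]
    exact separable_X_pow_sub_C γ (by norm_num) hγ0
  have hpdeg : p.natDegree = 2 := by
    rw [hp]
    exact natDegree_X_pow_sub_C
  let M := p.SplittingField
  have hdvd : finrank (RatFunc Ω) M ∣ 2 := by
    have h0 : finrank (RatFunc Ω) M = Nat.card p.Gal := (Gal.card_of_separable hpsep).symm
    rw [h0]
    have i1 : Fact ((p.map (algebraMap (RatFunc Ω) M)).Splits) := ⟨SplittingField.splits p⟩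
    have h1 := Subgroup.card_dvd_of_injective _ (Gal.galActionHom_injective p M)
    have h2 : Nat.card (Equiv.Perm (p.rootSet M)) = 2 := by
      rw [Nat.card_perm, Nat.card_eq_fintype_card, card_rootSet_eq_natDegree hpsep i1.out, hpdeg]
      rfl
    rwa [h2] at h1
  have htr : Transcendental Ω (RatFunc.X : RatFunc Ω) := RatFunc.transcendental_X
  have hFFE : IsFF Ω (RatFunc Ω) := by
    refine IsFF.of_finite htr ?_
    rw [RatFunc.adjoin_X]
    exact Module.Finite.of_surjective (Algebra.linearMap (⊤ : IntermediateField Ω (RatFunc Ω))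
      (RatFunc Ω)) fun x => ⟨⟨x, trivial⟩, rfl⟩
  have hFF : IsFF Ω M := by
    have ht' : Transcendental Ω (algebraMap (RatFunc Ω) M RatFunc.X) := by
      intro h
      exact htr ((isAlgebraic_algebraMap_iff (algebraMap (RatFunc Ω) M).injective).1 h)
    constructor
    · have := IsFF.ess (k := Ω) (K := RatFunc Ω)
      exact Algebra.EssFiniteType.comp Ω (RatFunc Ω) M
    · have h1 := (IsFF.basis htr).algebraMap_comp (A := M)
      rw [← h1.cardinalMk_eq_trdeg]
      simp
  obtain ⟨y, hy⟩ := (SplittingField.splits p).exists_eval_eq_zero (by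
    rw [degree_map, degree_eq_natDegree hpsep.ne_zero, hpdeg]
    norm_num)
  have hy' : y ^ 2 = algebraMap (RatFunc Ω) M γ := by
    have hpm : ∀ {A : Type} [Field A] (φ : RatFunc Ω →+* A),
        p.map φ = Polynomial.X ^ 2 - C (φ γ) := by
      intro A _ φ
      rw [hp, Polynomial.map_sub, Polynomial.map_pow, map_X, map_C]
    rw [hpm, eval_sub, eval_pow, eval_X, eval_C] at hy
    exact sub_eq_zero.1 hy
  obtain ⟨T, hT⟩ : ∃ T : M, T = algebraMap (RatFunc Ω) M RatFunc.X := ⟨_, rfl⟩
  have hTtr : Transcendental Ω T := by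
    rw [hT]
    intro h
    exact htr ((isAlgebraic_algebraMap_iff (algebraMap (RatFunc Ω) M).injective).1 h)
  obtain ⟨X, hX⟩ : ∃ X : M, X = T + algebraMap Ω M x0 := ⟨_, rfl⟩
  have hXT : X - algebraMap Ω M x0 = T := by rw [hX, add_sub_cancel_right]
  have hXtr : Transcendental Ω X := by
    intro h
    apply hTtr
    rw [← hXT]
    exact h.sub (isAlgebraic_algebraMap _)
  have hγX : algebraMap (RatFunc Ω) M γ = aeval X G := by
    have h1 : aeval X G = aeval T G' := by
      rw [hG', aeval_comp]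
      congr 1
      rw [map_add, aeval_X, aeval_C, hX]
    rw [h1, hγ, hT, aeval_algebraMap_apply]
    congr 1
    rw [← RatFunc.algebraMap_X, aeval_algebraMap_apply, aeval_X_left_apply]
  have hfr : finrank Ω⟮T⟯ M ∣ 2 := by
    have hrange : (IsScalarTower.toAlgHom Ω (RatFunc Ω) M).fieldRange = Ω⟮T⟯ := by
      rw [AlgHom.fieldRange_eq_map, ← RatFunc.adjoin_X, adjoin_map, Set.image_singleton, hT]
      rfl
    let i0 : RatFunc Ω ≃+* Ω⟮T⟯ :=
      ((IsScalarTower.toAlgHom Ω (RatFunc Ω) M).equivFieldRange.trans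
        (IntermediateField.equivOfEq hrange)).toRingEquiv
    have h1 : finrank (RatFunc Ω) M = finrank Ω⟮T⟯ M :=
      Algebra.finrank_eq_of_equiv_equiv i0 (RingEquiv.refl M) (by
        ext a
        rfl)
    rwa [← h1]
  obtain ⟨S, hS1, hS2, hS3⟩ := zeros (k := Ω) hTtr
  have hne : S.Nonempty := by
    rw [Finset.nonempty_iff_ne_empty]
    rintro rfl
    rw [Finset.sum_empty] at hS3
    rw [← hS3] at hfr
    norm_num at hfr
  obtain ⟨v, hv⟩ := hne
  have hvT : Ge v 1 (X - algebraMap Ω M x0) := by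
    rw [hXT]
    exact Or.inr ((hS1 v).1 hv)
  have h1 := ge_aeval_sub hvT G
  rw [← hγX, ← hy', hG] at h1
  have h2 : Ge v 1 ((y - algebraMap Ω M h) * (y + algebraMap Ω M h)) := by
    rw [map_pow] at h1
    have e : (y - algebraMap Ω M h) * (y + algebraMap Ω M h) = y ^ 2 - algebraMap Ω M h ^ 2 := by
      ring
    rwa [e]
  have hyr : Ge v 0 y := by
    by_cases hy0 : y = 0
    · exact Or.inl hy0
    have h3 : Ge v 0 (y ^ 2) := by
      have := (h1.mono (by norm_num : (0 : ℤ) ≤ 1)).add (Ge.const (P := v) (h ^ 2))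
      rwa [sub_add_cancel] at this
    have h4 := h3.resolve_left (pow_ne_zero 2 hy0)
    rw [v.ord_pow] at h4
    right
    push_cast at h4
    omega
  rcases ge_mul_or (hyr.sub (Ge.const h)) (hyr.add (Ge.const h)) h2 with h3 | h3
  · exact ⟨M, inferInstance, inferInstance, hFF, X, y, v, hXtr, by rw [hy', hγX],
      by rw [hXT]; exact hfr, hvT, h3⟩
  · refine ⟨M, inferInstance, inferInstance, hFF, X, -y, v, hXtr, by rw [neg_sq, hy', hγX],
      by rw [hXT]; exact hfr, hvT, ?_⟩
    have h4 := h3.neg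
    rwa [neg_add'] at h4

end Pool.Agent.L7h90.BP
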