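import Pool.Agent.N162.BC.Defs

/-!
Pencils of curves with completely split Jacobians.
-/

set_option autoImplicit false

open FF Pool.Agent.W602.GT Pool.Agent.N162.BC
open scoped IntermediateField

namespace Pool.Agent.L7h90.BP

section

variable {K : Type} [Field K] [Algebra ℂ K]

/-- `x : X ⇢ ℙ¹` is a pencil of curves on the surface `X` with the function field `K`: `x` is not
constant and `ℂ(x)` is algebraically closed in `K`. -/
def IsPencil (x : K) : Prop :=
  Transcendental ℂ x ∧ ∀ a : K, IsAlgebraic ℂ⟮x⟯ a → a ∈ ℂ⟮x⟯

/-- `(x, ξ, η)` is a dominant rational map from the surface `X` with the function field `K` to the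
surface `η² = ξ³ + a(x) ξ + b(x)`, which is a family of elliptic curves over the line with the
coordinate `x`. Here `a` and `b` are polynomials of degree at most `4` and `6`, which means that the
elliptic surface is rational or a product of an elliptic curve and the line. -/
structure MapsTo (x ξ η : K) (a b : Polynomial ℂ) : Prop where
  deg_a : a.natDegree ≤ 4
  deg_b : b.natDegree ≤ 6
  disc : 4 * a ^ 3 + 27 * b ^ 2 ≠ 0
  ind : AlgebraicIndependent ℂ ![x, ξ]
  eq : η ^ 2 = ξ ^ 3 + Polynomial.aeval x a * ξ + Polynomial.aeval x b

/-- The canonical form `dx ∧ dξ / η` on the surface with the function field `K`. It is the wedge of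
`dx` and the pullback of the regular differential `dξ / η` of the elliptic curve. -/
noncomputable def ellForm (x ξ η : K) (D : Fin 2 → Derivation ℂ K K) : K :=
  (D 0 x * D 1 ξ - D 0 ξ * D 1 x) / η

end

/-- The surface with the function field `K` has a pencil `x` of curves over the line, and there are
maps `π_j` from the generic member `C` of this pencil to elliptic curves `E_j` over `ℂ(x)` which are the
generic fibres of rational elliptic surfaces (or of products of an elliptic curve with the line), such
that the Jacobian of `C` is isogenous to the product of the `E_j` by the maps `π_j`: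

* the pullbacks of the regular differentials of the `E_j` to `C` span the regular differentials
  of `C` (`span`);
* the pullbacks of `E_i` and `E_j` to the Jacobian of `C` are orthogonal for `i ≠ j`: the trace to
  `E_j` of the pullback of the regular differential `dξ_i / η_i` of `E_i` to `C` is zero (`orth`). In
  terms of functions: the trace to `ℂ(E_j)` of the ratio of `dξ_i / η_i` and `dξ_j / η_j` is zero, where
  this ratio is computed with any derivation `D` along the members of the pencil.

If `n = 0` then the members of the pencil are rational curves. -/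
def HasSplitPencil (K : Type) [Field K] [Algebra ℂ K] : Prop :=
  ∃ (x : K) (n : ℕ) (ξ η : Fin n → K) (a b : Fin n → Polynomial ℂ),
    IsPencil x ∧ (∀ j, MapsTo x (ξ j) (η j) (a j) (b j)) ∧
    (∀ i j, i ≠ j → ∀ D : Derivation ℂ K K, D x = 0 →
      Algebra.trace (IntermediateField.adjoin ℂ (Set.range ![x, ξ j, η j])) K
        ((D (ξ i) / η i) / (D (ξ j) / η j)) = 0) ∧
    ∀ ω : (Fin 2 → Derivation ℂ K K) → K, FibreForm ℂ⟮x⟯ 2 ω ↔
      ∃ l : Fin n → K, (∀ j, l j ∈ ℂ⟮x⟯) ∧ ∀ D, ω D = ∑ j, l j * ellForm x (ξ j) (η j) D

end Pool.Agent.L7h90.BP
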