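import Pool.Agent.L7h90.Ell2

/-!
The points of a rational elliptic surface are rationally equivalent to zero up to torsion.
-/

set_option autoImplicit false
set_option linter.overlappingInstances false
set_option linter.unusedSectionVars false
set_option maxHeartbeats 4000000
set_option synthInstance.maxHeartbeats 400000

open FF Polynomial Pool.Agent.W603.LV Pool.Agent.W602.GT Pool.Agent.W619.PQ Pool.Agent.N162.BC
open Module IntermediateField

namespace Pool.Agent.L7h90.BP

section

variable {L Ω : Type} [Field L] [Algebra ℂ L] [Field Ω] [Algebra ℂ Ω] [IsAlgClosed Ω]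

/-- the points of a rational elliptic surface are rationally equivalent to zero up to torsion -/
theorem ell_rat {x ξ η : L} (hind : AlgebraicIndependent ℂ ![x, ξ])
    {a b : Polynomial ℂ} (ha : a.natDegree ≤ 4) (hb : b.natDegree ≤ 6)
    (hΔ : 4 * a ^ 3 + 27 * b ^ 2 ≠ 0) (heq : η ^ 2 = ξ ^ 3 + aeval x a * ξ + aeval x b)
    (hgen : IntermediateField.adjoin ℂ (Set.range ![x, ξ, η]) = ⊤) (σ : L →ₐ[ℂ] Ω) :
    12 • Finsupp.single σ (1 : ℤ) ∈ Pool.Agent.N162.BC.Rat L Ω := by
  classical
  have hx : Transcendental ℂ x := transc_left hind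
  have hcΩ : CharZero Ω := charZero_of_injective_algebraMap (algebraMap ℂ Ω).injective
  obtain ⟨aΩ, haΩ⟩ : ∃ aΩ, aΩ = a.map (algebraMap ℂ Ω) := ⟨_, rfl⟩
  obtain ⟨bΩ, hbΩ⟩ : ∃ bΩ, bΩ = b.map (algebraMap ℂ Ω) := ⟨_, rfl⟩
  have hev : ∀ p : Polynomial ℂ, (p.map (algebraMap ℂ Ω)).eval (σ x) = σ (aeval x p) := by
    intro p
    rw [eval_map_algebraMap, aeval_algHom_apply]
  have hae : aΩ.eval (σ x) = σ (aeval x a) := by rw [haΩ, hev]
  have hbe : bΩ.eval (σ x) = σ (aeval x b) := by rw [hbΩ, hev]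
  have hC : ∀ p : Polynomial ℂ, e2 x ξ (C p) = aeval x p := by
    intro p
    simp [e2]
  have hX : e2 x ξ X = ξ := by simp [e2]
  have hne3 : psi3 (aΩ.eval (σ x)) (bΩ.eval (σ x)) (σ ξ) ≠ 0 := by
    have h1 := e2_ne hind (psi3_ne a b)
    rw [map_psi3, hC, hC, hX] at h1
    rw [hae, hbe]
    have h2 := map_psi3 (σ : L →+* Ω) (aeval x a) (aeval x b) ξ
    intro h3
    exact h1 ((map_eq_zero (σ : L →+* Ω)).1 (h2.trans h3))
  have hne6 : chi6 (aΩ.eval (σ x)) (bΩ.eval (σ x)) (σ ξ) ≠ 0 := by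
    have h1 := e2_ne hind (chi6_ne a b)
    rw [map_chi6, hC, hC, hX] at h1
    rw [hae, hbe]
    have h2 := map_chi6 (σ : L →+* Ω) (aeval x a) (aeval x b) ξ
    intro h3
    exact h1 ((map_eq_zero (σ : L →+* Ω)).1 (h2.trans h3))
  have hη : η ≠ 0 := by
    rintro rfl
    have h1 := e2_ne hind (cub_ne a b)
    rw [map_add, map_add, map_mul, map_pow, hC, hC, hX, ← heq] at h1
    exact h1 (by ring)
  have hh : σ η ≠ 0 := by simpa using hη
  have hΔ' : 4 * aΩ.eval (σ x) ^ 3 + 27 * bΩ.eval (σ x) ^ 2 ≠ 0 := by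
    rw [hae, hbe]
    have h1 : aeval x (4 * a ^ 3 + 27 * b ^ 2) ≠ 0 := fun h => hx ⟨_, hΔ, h⟩
    have h2 : 4 * σ (aeval x a) ^ 3 + 27 * σ (aeval x b) ^ 2 =
        σ (aeval x (4 * a ^ 3 + 27 * b ^ 2)) := by
      simp only [map_add, map_mul, map_pow, map_ofNat]
    rw [h2]
    exact (map_ne_zero σ).2 h1
  have hH : σ η ^ 2 = σ ξ ^ 3 + aΩ.eval (σ x) * σ ξ + bΩ.eval (σ x) := by
    rw [hae, hbe, ← map_pow, heq, map_add, map_add, map_mul, map_pow]
  obtain ⟨s, r, c, hs, hr, hsr⟩ := exists_six (a := aΩ) (b := bΩ)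
    (by rw [haΩ]; exact (natDegree_map_le).trans ha) (by rw [hbΩ]; exact (natDegree_map_le).trans hb)
    hH hh hΔ' hne3 hne6
  obtain ⟨G, hG⟩ : ∃ G, G = s ^ 3 + aΩ * s + bΩ := ⟨_, rfl⟩
  have hGe : G.eval (σ x) = σ η ^ 2 := by
    rw [hG, hH, eval_add, eval_add, eval_mul, eval_pow, hs]
  obtain ⟨M, _, _, _, X, Y, v, hXtr, hYG, hfr, hvX, hvY⟩ := exists_curve Ω G hh hGe
  have hSv : Ge v 1 (aeval X s - algebraMap Ω M (σ ξ)) := by
    have := ge_aeval_sub hvX s
    rwa [hs] at this
  have hYS : Y ^ 2 = (aeval X s) ^ 3 + aeval X (a.map (algebraMap ℂ Ω)) * aeval X s +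
      aeval X (b.map (algebraMap ℂ Ω)) := by
    rw [hYG, hG, ← haΩ, ← hbΩ, map_add, map_add, map_mul, map_pow]
  obtain ⟨τ, hτ, hτx, hτξ, hτη⟩ := exists_tau hind (a := a) (b := b) hgen σ hvX hSv hvY hYS
  obtain ⟨U, hU⟩ : ∃ U, U = X - algebraMap Ω M (σ x) := ⟨_, rfl⟩
  have hUtr : Transcendental Ω U := by
    intro h
    apply hXtr
    have h1 : X = U + algebraMap Ω M (σ x) := by rw [hU]; ring
    rw [h1]
    exact h.add (isAlgebraic_algebraMap _)
  have hU0 : U ≠ 0 := by
    rintro h
    rw [h] at hUtr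
    exact hUtr isAlgebraic_zero
  -- the main relation
  have hrel : (Y - aeval X r) * (Y + aeval X r) = algebraMap Ω M c * U ^ 6 := by
    have h1 := congrArg (aeval X) hsr
    rw [map_sub, map_add, map_add, map_mul, map_pow, map_pow, map_mul, map_pow, map_sub, aeval_X,
      aeval_C, aeval_C, ← hU] at h1
    rw [← h1]
    have h2 : Y ^ 2 = (aeval X s) ^ 3 + aeval X aΩ * aeval X s + aeval X bΩ := by
      rw [hYG, hG, map_add, map_add, map_mul, map_pow]
    rw [← h2]
    ring
  -- the function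
  obtain ⟨f, k, hk, hf0, hf1, hf2⟩ : ∃ (f : M) (k : ℕ), (k = 1 ∨ k = 6) ∧ f ≠ 0 ∧
      (∀ w : Place Ω M, Ge w 1 (X - algebraMap Ω M (σ x)) → Ge w 1 (Y - algebraMap Ω M (σ η)) →
        w.ord f = k * w.ord U) ∧
      (∀ (w : Place Ω M) (x' η' : Ω), Ge w 1 (X - algebraMap Ω M x') →
        Ge w 1 (Y - algebraMap Ω M η') → w.ord f ≠ 0 → x' = σ x ∧ η' = σ η) := by
    by_cases hc : c = 0
    · have hYr : Y = aeval X r := by
        rw [hc, map_zero, zero_mul] at hrel
        rcases mul_eq_zero.1 hrel with h | h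
        · exact sub_eq_zero.1 h
        · exfalso
          have h1 := ge_aeval_sub hvX r
          rw [hr, ← neg_eq_of_add_eq_zero_right h] at h1
          have h2 : Ge v 1 (Y - algebraMap Ω M (-σ η)) := by
            have := h1.neg
            rwa [neg_sub, sub_neg_eq_add, add_comm, ← sub_neg_eq_add, ← map_neg] at this
          have h3 := ge_const_eq hvY h2
          have h4 : 2 * σ η = 0 := by linear_combination h3
          rcases mul_eq_zero.1 h4 with h5 | h5
          · exact two_ne_zero h5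
          · exact hh h5
      refine ⟨U, 1, Or.inl rfl, hU0, fun w _ _ => by simp, fun w x' η' h1 h2 h3 => ?_⟩
      have hUr : Ge w 0 U := by
        have h4 := (h1.mono (by norm_num : (0 : ℤ) ≤ 1)).add (Ge.const (P := w) (x' - σ x))
        have e : X - algebraMap Ω M x' + algebraMap Ω M (x' - σ x) = U := by
          rw [hU, map_sub]; ring
        rwa [e] at h4
      have hU1 : Ge w 1 (X - algebraMap Ω M (σ x)) := by
        rw [← hU]
        right
        have := hUr.resolve_left hU0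
        omega
      refine ⟨ge_const_eq h1 hU1, ?_⟩
      have h4 := ge_aeval_sub hU1 r
      rw [hr, ← hYr] at h4
      exact ge_const_eq h2 h4
    · have hprod0 : algebraMap Ω M c * U ^ 6 ≠ 0 :=
        mul_ne_zero (by simpa using hc) (pow_ne_zero _ hU0)
      have hf0 : Y - aeval X r ≠ 0 := by
        intro h
        rw [h, zero_mul] at hrel
        exact hprod0 hrel.symm
      have hg0 : Y + aeval X r ≠ 0 := by
        intro h
        rw [h, mul_zero] at hrel
        exact hprod0 hrel.symm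
      have hord : ∀ w : Place Ω M, w.ord (Y - aeval X r) + w.ord (Y + aeval X r) =
          6 * w.ord U := by
        intro w
        rw [← w.ord_mul hf0 hg0, hrel, w.ord_mul (by simpa using hc) (pow_ne_zero _ hU0),
          w.ord_const hc, w.ord_pow]
        push_cast
        ring
      refine ⟨Y - aeval X r, 6, Or.inr rfl, hf0, fun w h1 h2 => ?_,
        fun w x' η' h1 h2 h3 => ?_⟩
      · have h3 := ge_aeval_sub h1 r
        rw [hr] at h3
        have h4 := ge_add_sub h2 h3
        have h5 : σ η + σ η ≠ 0 := by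
          intro h6
          have h7 : 2 * σ η = 0 := by linear_combination h6
          rcases mul_eq_zero.1 h7 with h8 | h8
          · exact two_ne_zero h8
          · exact hh h8
        have h6 := (ge_unit h5 h4).2
        have h7 := hord w
        rw [h6, add_zero] at h7
        rw [h7]
        norm_num
      · have hXr : Ge w 0 X := by
          have h4 := (h1.mono (by norm_num : (0 : ℤ) ≤ 1)).add (Ge.const (P := w) x')
          rwa [sub_add_cancel] at h4
        have hYr : Ge w 0 Y := by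
          have h4 := (h2.mono (by norm_num : (0 : ℤ) ≤ 1)).add (Ge.const (P := w) η')
          rwa [sub_add_cancel] at h4
        have hrr : Ge w 0 (aeval X r) := ge_aeval (P := w) hXr r
        have hUr : Ge w 0 U := by
          rw [hU]
          exact hXr.sub (Ge.const (σ x))
        have h4 := (hYr.sub hrr).resolve_left hf0
        have h5 := (hYr.add hrr).resolve_left hg0
        have h6 := hUr.resolve_left hU0
        have h7 := hord w
        have hU1 : Ge w 1 (X - algebraMap Ω M (σ x)) := by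
          rw [← hU]
          right
          by_contra h8
          have h9 : w.ord U = 0 := by omega
          rw [h9] at h7
          omega
        refine ⟨ge_const_eq h1 hU1, ?_⟩
        have h8 := ge_aeval_sub hU1 r
        rw [hr] at h8
        have h9 : Ge w 1 (Y - aeval X r) := Or.inr (by omega)
        have h10 := h9.add h8
        have e : Y - aeval X r + (aeval X r - algebraMap Ω M (σ η)) =
            Y - algebraMap Ω M (σ η) := by ring
        rw [e] at h10
        exact ge_const_eq h2 h10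
  obtain ⟨cg, hcg1, hcg2⟩ := exists_gen τ hτ hf0
  obtain ⟨Z, hZ1, -, hZ3⟩ := zeros (k := Ω) hUtr
  rw [← hU] at hfr
  have hcen : ∀ w : Place Ω M, Ge w 1 (X - algebraMap Ω M (σ x)) →
      Ge w 1 (Y - algebraMap Ω M (σ η)) → CentredAt τ w σ := by
    intro w h1 h2
    refine centred_of_gen hgen hτ fun i => ?_
    fin_cases i
    · change Ge w 1 (τ x - algebraMap Ω M (σ x))
      rw [hτx]
      exact h1
    · change Ge w 1 (τ ξ - algebraMap Ω M (σ ξ))
      rw [hτξ]
      have := ge_aeval_sub h1 s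
      rwa [hs] at this
    · change Ge w 1 (τ η - algebraMap Ω M (σ η))
      rw [hτη]
      exact h2
  have hcen' : ∀ (w : Place Ω M) (σ' : L →ₐ[ℂ] Ω), CentredAt τ w σ' →
      Ge w 1 (X - algebraMap Ω M (σ' x)) ∧ Ge w 1 (aeval X s - algebraMap Ω M (σ' ξ)) ∧
        Ge w 1 (Y - algebraMap Ω M (σ' η)) := by
    intro w σ' h
    rw [centred_iff] at h
    refine ⟨?_, ?_, ?_⟩
    · rw [← hτx]; exact h x
    · rw [← hτξ]; exact h ξ
    · rw [← hτη]; exact h η
  obtain ⟨Cs, hCs⟩ : ∃ Cs : Finset (Place Ω M), Cs = Z.filter (fun w => CentredAt τ w σ) := ⟨_, rfl⟩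
  have hCm : ∀ w, w ∈ Cs ↔ CentredAt τ w σ := by
    intro w
    rw [hCs, Finset.mem_filter]
    refine ⟨fun h => h.2, fun h => ⟨?_, h⟩⟩
    rw [hZ1]
    have h1 := (hcen' w σ h).1
    rw [← hU] at h1
    have := h1.resolve_left hU0
    omega
  obtain ⟨m, hm⟩ : ∃ m : ℤ, m = ∑ w ∈ Cs, w.ord U := ⟨_, rfl⟩
  have hpos : ∀ w ∈ Cs, 1 ≤ w.ord U := by
    intro w hw
    have h1 := (hcen' w σ ((hCm w).1 hw)).1
    rw [← hU] at h1
    exact h1.resolve_left hU0
  have hm1 : 1 ≤ m := by
    have h1 : v ∈ Cs := (hCm v).2 (hcen v hvX hvY)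
    rw [hm]
    refine le_trans (hpos v h1) (Finset.single_le_sum (f := fun w : Place Ω M => w.ord U)
      (fun w hw => ?_) h1)
    exact zero_le_one.trans (hpos w hw)
  have hm2 : m ≤ 2 := by
    have h1 : (finrank Ω⟮U⟯ M : ℤ) ≤ 2 := by
      exact_mod_cast Nat.le_of_dvd (by norm_num) hfr
    refine le_trans ?_ h1
    rw [← hZ3, hm]
    push_cast
    have h2 : ∑ w ∈ Cs, w.ord U ≤ ∑ w ∈ Z, w.ord U := by
      refine Finset.sum_le_sum_of_subset_of_nonneg ?_ ?_
      · rw [hCs]
        exact Finset.filter_subset _ _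
      · intro w hw _
        exact ((hZ1 w).1 hw).le
    refine h2.trans (le_of_eq ?_)
    refine Finset.sum_congr rfl fun w hw => ?_
    have h3 := (hZ1 w).1 hw
    rw [deg_one, Nat.cast_one, mul_one]
    omega
  have hcgσ : cg σ = k * m := by
    rw [hcg2]
    have h1 : {w : Place Ω M | CentredAt τ w σ} = (Cs : Set (Place Ω M)) := by
      ext w
      rw [Finset.mem_coe, hCm]
      rfl
    rw [h1, finsum_mem_coe_finset, hm, Finset.mul_sum]
    refine Finset.sum_congr rfl fun w hw => ?_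
    have h2 := hcen' w σ ((hCm w).1 hw)
    exact hf1 w h2.1 h2.2.2
  have hcgo : ∀ σ', σ' ≠ σ → cg σ' = 0 := by
    intro σ' hne
    rw [hcg2]
    refine finsum_mem_eq_zero_of_forall_eq_zero fun w hw => ?_
    by_contra h0
    apply hne
    have h1 := hcen' w σ' hw
    obtain ⟨h2, h3⟩ := hf2 w (σ' x) (σ' η) h1.1 h1.2.2 h0
    have h4 : σ' ξ = σ ξ := by
      have h5 := h1.1
      rw [h2] at h5
      have h6 := ge_aeval_sub h5 s
      rw [hs] at h6
      exact ge_const_eq h1.2.1 h6
    have h5 : ∀ P : MvPolynomial (Fin 3) ℂ, σ' (MvPolynomial.aeval ![x, ξ, η] P) =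
        σ (MvPolynomial.aeval ![x, ξ, η] P) := by
      intro P
      have h6 : σ'.comp (MvPolynomial.aeval ![x, ξ, η]) = σ.comp (MvPolynomial.aeval ![x, ξ, η]) := by
        apply MvPolynomial.algHom_ext
        intro i
        rw [AlgHom.comp_apply, AlgHom.comp_apply, MvPolynomial.aeval_X]
        fin_cases i
        · exact h2
        · exact h4
        · exact h3
      exact DFunLike.congr_fun h6 P
    ext l
    have hl : l ∈ IntermediateField.adjoin ℂ (Set.range ![x, ξ, η]) := by
      rw [hgen]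
      trivial
    rw [IntermediateField.mem_adjoin_range_iff] at hl
    obtain ⟨p, q, hpq⟩ := hl
    rw [hpq, map_div₀, map_div₀, h5, h5]
  have hsing : cg = Finsupp.single σ (k * m) := by
    ext σ'
    by_cases h : σ' = σ
    · rw [h, hcgσ, Finsupp.single_eq_same]
    · rw [hcgo σ' h, Finsupp.single_eq_of_ne h]
  rw [hsing] at hcg1
  obtain ⟨q, hq⟩ : ∃ q : ℤ, (12 : ℤ) = q * (k * m) := by
    have hm' : m = 1 ∨ m = 2 := by omega
    rcases hk with rfl | rfl <;> rcases hm' with h | h <;> rw [h]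
    · exact ⟨12, by norm_num⟩
    · exact ⟨6, by norm_num⟩
    · exact ⟨2, by norm_num⟩
    · exact ⟨1, by norm_num⟩
  have h1 := AddSubgroup.zsmul_mem _ hcg1 q
  rw [Finsupp.smul_single, smul_eq_mul, ← hq] at h1
  rw [Finsupp.smul_single]
  exact h1

end

end Pool.Agent.L7h90.BP
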