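import Pool.Agent.L7h90.Defs
import Pool.Agent.L7h90.Ell3
import Pool.Agent.N162.PR.Main2

/-!
Surfaces with pencils of curves with completely split Jacobians.
-/

set_option autoImplicit false
set_option linter.overlappingInstances false
set_option linter.unusedSectionVars false
set_option maxHeartbeats 4000000
set_option synthInstance.maxHeartbeats 400000

open FF Polynomial Pool.Agent.W603.LV Pool.Agent.W602.GT Pool.Agent.W619.PQ Pool.Agent.N162.BC
open Module IntermediateField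

namespace Pool.Agent.L7h90.BP

section

variable {K Ω : Type} [Field K] [Algebra ℂ K] [Field Ω] [Algebra ℂ Ω]

/-- the trace of a form on a cycle -/
noncomputable def tr (z : Fin 2 → K) (E : Fin 2 → Derivation ℂ K K)
    (ω : (Fin 2 → Derivation ℂ K K) → K) (D : Fin 2 → Derivation ℂ Ω Ω) :
    ((K →ₐ[ℂ] Ω) →₀ ℤ) →+ Ω :=
  Finsupp.liftAddHom fun σ => (AddMonoidHom.mulRight (pullback σ z E ω D)).comp (Int.castAddHom Ω)

theorem tr_apply (z : Fin 2 → K) (E : Fin 2 → Derivation ℂ K K)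
    (ω : (Fin 2 → Derivation ℂ K K) → K) (D : Fin 2 → Derivation ℂ Ω Ω)
    (c : (K →ₐ[ℂ] Ω) →₀ ℤ) : tr z E ω D c = ∑ σ ∈ c.support, (c σ : Ω) * pullback σ z E ω D := by
  unfold tr
  rw [Finsupp.liftAddHom_apply]
  rfl

theorem tr_single (z : Fin 2 → K) (E : Fin 2 → Derivation ℂ K K)
    (ω : (Fin 2 → Derivation ℂ K K) → K) (D : Fin 2 → Derivation ℂ Ω Ω)
    (σ : K →ₐ[ℂ] Ω) (a : ℤ) : tr z E ω D (Finsupp.single σ a) = a * pullback σ z E ω D := by
  unfold tr
  rw [Finsupp.liftAddHom_apply_single]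
  rfl

theorem ellForm_pluri (x ξ η : K) : IsPluri 1 (ellForm x ξ η) := by
  have h1 : ellForm x ξ η = stdForm ![x, ξ] η⁻¹ := by
    funext D
    unfold ellForm stdForm
    rw [Matrix.det_fin_two]
    simp only [Matrix.of_apply, Matrix.cons_val_zero, Matrix.cons_val_one]
    rw [div_eq_mul_inv]
    ring
  rw [h1]
  exact stdForm_pluri _ _

end

section

variable {K : Type} [Field K] [Algebra ℂ K] [Algebra.EssFiniteType ℂ K]

/-- the subfield `ℂ(x, ξ, η)` -/
theorem sub_alg (hK : Algebra.trdeg ℂ K = 2) {x ξ η : K} (hind : AlgebraicIndependent ℂ ![x, ξ]) :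
    IsTranscendenceBasis ℂ ![x, ξ] ∧
    FiniteDimensional (IntermediateField.adjoin ℂ (Set.range ![x, ξ, η])) K := by
  have h1 : IsTranscendenceBasis ℂ ![x, ξ] := by
    refine hind.isTranscendenceBasis_of_lift_trdeg_le_of_finite ?_
    rw [hK]
    simp
  refine ⟨h1, ?_⟩
  have h2 := h1.isAlgebraic_field
  have h3 : IntermediateField.adjoin ℂ (Set.range ![x, ξ]) ≤
      IntermediateField.adjoin ℂ (Set.range ![x, ξ, η]) := by
    refine adjoin.mono _ _ _ ?_
    rintro _ ⟨i, rfl⟩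
    fin_cases i
    · exact ⟨0, rfl⟩
    · exact ⟨1, rfl⟩
  have h4 : Algebra.IsAlgebraic (IntermediateField.adjoin ℂ (Set.range ![x, ξ, η])) K := by
    let _ : Algebra (IntermediateField.adjoin ℂ (Set.range ![x, ξ]))
      (IntermediateField.adjoin ℂ (Set.range ![x, ξ, η])) := (inclusion h3).toRingHom.toAlgebra
    have _ : IsScalarTower (IntermediateField.adjoin ℂ (Set.range ![x, ξ]))
      (IntermediateField.adjoin ℂ (Set.range ![x, ξ, η])) K :=
      IsScalarTower.of_algebraMap_eq fun _ => rfl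
    exact Algebra.IsAlgebraic.tower_top (K := IntermediateField.adjoin ℂ (Set.range ![x, ξ])) _
  exact N162.PR.finite_of_alg

end

section

variable {K Ω : Type} [Field K] [Algebra ℂ K] [Field Ω] [Algebra ℂ Ω]

theorem pullback_ell (σ : K →ₐ[ℂ] Ω) {z : Fin 2 → K} {E : Fin 2 → Derivation ℂ K K}
    (hz : IsTranscendenceBasis ℂ z) (hE : ∀ i j, E i (z j) = if i = j then 1 else 0)
    (D : Fin 2 → Derivation ℂ Ω Ω) {x ξ : K} (hxξ : IsTranscendenceBasis ℂ ![x, ξ])
    {H0 H1 : Derivation ℂ K K} (h0x : H0 x = 1) (h0ξ : H0 ξ = 0) (h1x : H1 x = 0)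
    (h1ξ : H1 ξ = 1) (ξ' η' : K) :
    pullback σ z E (ellForm x ξ' η') D =
      (D 0 (σ x) * D 1 (σ ξ) - D 0 (σ ξ) * D 1 (σ x)) * σ (H1 ξ' / η') := by
  rw [pullback_indep σ hz hE hxξ (E' := ![H0, H1]) ?_ (ellForm_pluri x ξ' η') D]
  · unfold pullback ellForm
    rw [Matrix.det_fin_two]
    simp only [Matrix.of_apply, Matrix.cons_val_zero, Matrix.cons_val_one, h0x, h1x, one_mul,
      mul_zero, sub_zero]
  · intro i j
    fin_cases i <;> fin_cases j
    · exact h0x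
    · exact h0ξ
    · exact h1x
    · exact h1ξ

theorem exists_dual {x ξ : K} (hxξ : IsTranscendenceBasis ℂ ![x, ξ]) :
    ∃ H0 H1 : Derivation ℂ K K, H0 x = 1 ∧ H0 ξ = 0 ∧ H1 x = 0 ∧ H1 ξ = 1 := by
  obtain ⟨H0, h0⟩ := Pool.Agent.W602.GT.exists_der _ hxξ ![(1 : K), 0]
  obtain ⟨H1, h1⟩ := Pool.Agent.W602.GT.exists_der _ hxξ ![(0 : K), 1]
  exact ⟨H0, H1, h0 0, h0 1, h1 0, h1 1⟩

variable [IsAlgClosed Ω]

theorem tr_pull (L : IntermediateField ℂ K) [FiniteDimensional L K] {z : Fin 2 → K}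
    {E : Fin 2 → Derivation ℂ K K}
    (hz : IsTranscendenceBasis ℂ z) (hE : ∀ i j, E i (z j) = if i = j then 1 else 0)
    (D : Fin 2 → Derivation ℂ Ω Ω) {x ξ : K} (hxξ : IsTranscendenceBasis ℂ ![x, ξ])
    {H0 H1 : Derivation ℂ K K} (h0x : H0 x = 1) (h0ξ : H0 ξ = 0) (h1x : H1 x = 0)
    (h1ξ : H1 ξ = 1) (ξ' η' : K) (hxL : x ∈ L) (hξL : ξ ∈ L) (σ : K →ₐ[ℂ] Ω) :
    tr z E (ellForm x ξ' η') D (pull L K Ω (Finsupp.single (restr L Ω σ) 1)) =
      (D 0 (σ x) * D 1 (σ ξ) - D 0 (σ ξ) * D 1 (σ x)) *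
        σ (algebraMap L K (Algebra.trace L K (H1 ξ' / η'))) := by
  rw [pull_single, map_sum]
  have h1 : ∀ σ' ∈ fib K (restr L Ω σ), tr z E (ellForm x ξ' η') D (Finsupp.single σ' 1) =
      (D 0 (σ x) * D 1 (σ ξ) - D 0 (σ ξ) * D 1 (σ x)) * σ' (H1 ξ' / η') := by
    intro σ' hσ'
    rw [mem_fib] at hσ'
    have e1 : ∀ l : L, σ' l = σ l := fun l => DFunLike.congr_fun hσ' l
    rw [tr_single, Int.cast_one, one_mul, pullback_ell σ' hz hE D hxξ h0x h0ξ h1x h1ξ,
      e1 ⟨x, hxL⟩, e1 ⟨ξ, hξL⟩]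
  rw [Finset.sum_congr rfl h1, ← Finset.mul_sum, sum_fib]
  rfl

end

section

variable {K : Type} [Field K] [Algebra ℂ K] [Algebra.EssFiniteType ℂ K]

/-- the points of the elliptic surface -/
theorem sub_rat (hK : Algebra.trdeg ℂ K = 2) {x ξ η : K} {a b : Polynomial ℂ}
    (h : MapsTo x ξ η a b) {L : IntermediateField ℂ K}
    (hL : L = IntermediateField.adjoin ℂ (Set.range ![x, ξ, η])) [FiniteDimensional L K]
    {Ω : Type} [Field Ω] [Algebra ℂ Ω] [IsAlgClosed Ω] (σ : L →ₐ[ℂ] Ω) :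
    (12 * (finrank L K).factorial) • pull L K Ω (Finsupp.single σ (1 : ℤ)) ∈
      Pool.Agent.N162.BC.Rat K Ω := by
  have hmem : ∀ i, ![x, ξ, η] i ∈ L := by
    intro i
    rw [hL]
    exact subset_adjoin _ _ ⟨i, rfl⟩
  let x' : L := ⟨x, hmem 0⟩
  let ξ' : L := ⟨ξ, hmem 1⟩
  let η' : L := ⟨η, hmem 2⟩
  have hind : AlgebraicIndependent ℂ ![x', ξ'] := by
    rw [← L.val.algebraicIndependent_iff L.val.injective]
    have h1 : L.val ∘ ![x', ξ'] = ![x, ξ] := by
      funext i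
      fin_cases i <;> rfl
    rw [h1]
    exact h.ind
  have hae : ∀ p : Polynomial ℂ, ((aeval x' p : L) : K) = aeval x p := by
    intro p
    have h1 := aeval_algHom_apply L.val x' p
    exact h1.symm
  have heq : η' ^ 2 = ξ' ^ 3 + aeval x' a * ξ' + aeval x' b := by
    apply Subtype.ext
    change η ^ 2 = ξ ^ 3 + ((aeval x' a : L) : K) * ξ + ((aeval x' b : L) : K)
    rw [hae, hae]
    exact h.eq
  have hgen : IntermediateField.adjoin ℂ (Set.range ![x', ξ', η']) = ⊤ := by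
    apply IntermediateField.map_injective L.val
    rw [adjoin_map, ← AlgHom.fieldRange_eq_map, fieldRange_val]
    refine Eq.trans ?_ hL.symm
    congr 1
    ext y
    constructor
    · rintro ⟨_, ⟨i, rfl⟩, rfl⟩
      refine ⟨i, ?_⟩
      fin_cases i <;> rfl
    · rintro ⟨i, rfl⟩
      refine ⟨![x', ξ', η'] i, ⟨i, rfl⟩, ?_⟩
      fin_cases i <;> rfl
  have h1 := ell_rat hind h.deg_a h.deg_b h.disc heq hgen σ
  have h2 := rat_pull (K' := K) h1
  rw [map_nsmul, ← mul_smul, mul_comm] at h2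
  exact h2

/-- surfaces with pencils with completely split Jacobians -/
theorem split_rat (hK : Algebra.trdeg ℂ K = 2) (h : HasSplitPencil K) :
    ∃ N : ℕ, 0 < N ∧ ∀ (Ω : Type) [Field Ω] [Algebra ℂ Ω] [IsAlgClosed Ω],
      Algebra.trdeg ℂ Ω = 2 → ∀ σ : K →ₐ[ℂ] Ω,
        N • Finsupp.single σ (1 : ℤ) ∈ Pool.Agent.N162.BC.Rat K Ω := by
  classical
  obtain ⟨x, n, ξ, η, a, b, hx, hm, horth, hspan⟩ := h
  have hcK : CharZero K := charZero_of_injective_algebraMap (algebraMap ℂ K).injective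
  obtain ⟨L, hL⟩ : ∃ L : Fin n → IntermediateField ℂ K,
    L = fun j => IntermediateField.adjoin ℂ (Set.range ![x, ξ j, η j]) := ⟨_, rfl⟩
  have hLj : ∀ j, L j = IntermediateField.adjoin ℂ (Set.range ![x, ξ j, η j]) := by
    intro j
    rw [hL]
  have hbas : ∀ j, IsTranscendenceBasis ℂ ![x, ξ j] := fun j => (sub_alg hK (η := η j) (hm j).ind).1
  have hfin : ∀ j, FiniteDimensional (L j) K := by
    intro j
    rw [hLj]
    exact (sub_alg hK (hm j).ind).2
  have hmem : ∀ j i, ![x, ξ j, η j] i ∈ L j := by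
    intro j i
    rw [hLj]
    exact subset_adjoin _ _ ⟨i, rfl⟩
  have hηne : ∀ j, η j ≠ 0 := by
    intro j h0
    have h1 := e2_ne (hm j).ind (cub_ne (a j) (b j))
    have hC : ∀ p : Polynomial ℂ, e2 x (ξ j) (C p) = aeval x p := by
      intro p
      simp [e2]
    have hX : e2 x (ξ j) X = ξ j := by simp [e2]
    rw [map_add, map_add, map_mul, map_pow, hC, hC, hX, ← (hm j).eq, h0] at h1
    exact h1 (by ring)
  obtain ⟨d, hd⟩ : ∃ d : Fin n → ℕ, d = fun j => finrank (L j) K := ⟨_, rfl⟩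
  have hdpos : ∀ j, 0 < d j := by
    intro j
    rw [hd]
    exact finrank_pos
  obtain ⟨P, hP⟩ : ∃ P, P = ∏ j, d j := ⟨_, rfl⟩
  obtain ⟨m, hmd⟩ : ∃ m : Fin n → ℕ, m = fun j => ∏ i ∈ Finset.univ.erase j, d i := ⟨_, rfl⟩
  have hPm : ∀ j, P = m j * d j := by
    intro j
    rw [hP, hmd]
    exact (Finset.prod_erase_mul _ _ (Finset.mem_univ j)).symm
  obtain ⟨Q, hQ⟩ : ∃ Q, Q = 12 * ∏ j, (d j).factorial := ⟨_, rfl⟩
  have hQd : ∀ j, 12 * (d j).factorial ∣ Q := by
    intro j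
    rw [hQ]
    exact Nat.mul_dvd_mul_left 12 (Finset.dvd_prod_of_mem _ (Finset.mem_univ j))
  refine ⟨Q * P, Nat.mul_pos ?_ ?_, fun Ω _ _ _ hΩ σ => ?_⟩
  · rw [hQ]
    exact Nat.mul_pos (by norm_num) (Finset.prod_pos fun j _ => Nat.factorial_pos _)
  · rw [hP]
    exact Finset.prod_pos fun j _ => hdpos j
  obtain ⟨c, hc⟩ : ∃ c : (K →ₐ[ℂ] Ω) →₀ ℤ, c = P • Finsupp.single σ (1 : ℤ) -
    ∑ j, m j • pull (L j) K Ω (Finsupp.single (restr (L j) Ω σ) 1) := ⟨_, rfl⟩
  obtain ⟨u, hu⟩ : ∃ u, u = σ.comp (ℂ⟮x⟯).val := ⟨_, rfl⟩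
  have hFL : ∀ j, ℂ⟮x⟯ ≤ L j := by
    intro j
    rw [adjoin_simple_le_iff]
    exact hmem j 0
  -- all points of `c` are on one member
  have hcu : ∀ σ' : K →ₐ[ℂ] Ω, c σ' ≠ 0 → σ'.comp (ℂ⟮x⟯).val = u := by
    intro σ' hσ'
    by_contra hne
    apply hσ'
    rw [hc, Finsupp.sub_apply, Finsupp.smul_apply, Finsupp.finsetSum_apply]
    have h1 : σ' ≠ σ := by
      rintro rfl
      exact hne hu.symm
    rw [Finsupp.single_eq_of_ne h1, smul_zero, zero_sub, neg_eq_zero]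
    refine Finset.sum_eq_zero fun j _ => ?_
    rw [Finsupp.smul_apply, pull_apply]
    have h2 : restr (L j) Ω σ' ≠ restr (L j) Ω σ := by
      intro h3
      apply hne
      rw [hu]
      ext l
      exact DFunLike.congr_fun h3 ⟨l, hFL j l.2⟩
    rw [Finsupp.single_eq_of_ne h2, smul_zero]
  -- the traces
  have htr : ∀ (z : Fin 2 → K) (E : Fin 2 → Derivation ℂ K K), IsTranscendenceBasis ℂ z →
      (∀ i j, E i (z j) = if i = j then 1 else 0) → ∀ (D : Fin 2 → Derivation ℂ Ω Ω) (i : Fin n),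
      tr z E (ellForm x (ξ i) (η i)) D c = 0 := by
    intro z E hz hE D i
    have h1 : ∀ j, tr z E (ellForm x (ξ i) (η i)) D
        (pull (L j) K Ω (Finsupp.single (restr (L j) Ω σ) 1)) =
        if j = i then (d i : Ω) * pullback σ z E (ellForm x (ξ i) (η i)) D else 0 := by
      intro j
      obtain ⟨H0, H1, h0x, h0ξ, h1x, h1ξ⟩ := exists_dual (hbas j)
      rw [tr_pull (L j) hz hE D (hbas j) h0x h0ξ h1x h1ξ (ξ i) (η i) (hmem j 0) (hmem j 1) σ]
      split_ifs with hji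
      · subst hji
        rw [pullback_ell σ hz hE D (hbas j) h0x h0ξ h1x h1ξ, h1ξ]
        have h2 : (1 : K) / η j = algebraMap (L j) K ((⟨η j, hmem j 2⟩ : L j)⁻¹) := by
          rw [map_inv₀, one_div]
          rfl
        rw [h2, Algebra.trace_algebraMap, map_nsmul, map_nsmul, nsmul_eq_mul, hd]
        ring
      · have h2 := horth i j (fun h => hji h.symm) H1 h1x
        rw [← hLj j, h1ξ] at h2
        have h3 : (H1 (ξ i) / η i) / (1 / η j) = (⟨η j, hmem j 2⟩ : L j) • (H1 (ξ i) / η i) := by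
          rw [Algebra.smul_def]
          change _ = η j * _
          have := hηne j
          field_simp
        rw [h3, map_smul, smul_eq_mul] at h2
        have h4 : (⟨η j, hmem j 2⟩ : L j) ≠ 0 := fun h => hηne j (congrArg Subtype.val h)
        rw [(mul_eq_zero.1 h2).resolve_left h4, map_zero, map_zero, mul_zero]
    rw [hc, map_sub, map_nsmul, map_sum, tr_single]
    simp only [map_nsmul, h1]
    rw [Finset.sum_eq_single i]
    · rw [if_pos rfl, hPm i, nsmul_eq_mul, nsmul_eq_mul]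
      push_cast
      ring
    · intro j _ hji
      rw [if_neg hji, smul_zero]
    · intro h
      exact absurd (Finset.mem_univ _) h
  have hcr : c ∈ Pool.Agent.N162.BC.Rat K Ω := by
    have hK' : Algebra.trdeg ℂ K = ((1 + 1 : ℕ) : Cardinal) := by rw [hK]; norm_num
    have hΩ' : Algebra.trdeg ℂ Ω = ((1 + 1 : ℕ) : Cardinal) := by rw [hΩ]; norm_num
    have h1 := part_mem (m := 1) hK' hΩ' ℂ⟮x⟯ (by rw [trdeg_adjoin_simple hx.1, Nat.cast_one]) hx.2
      (G := fun ω => FibreForm ℂ⟮x⟯ 2 ω) (V := fun ω => FibreForm ℂ⟮x⟯ 2 ω) (fun ω h => h)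
      (fun ω h => GMSpan.base h) (U := {u}) ?_ (c := c) ?_ ?_ (Finset.mem_singleton_self u)
    · have h2 : c.filter (fun σ' => σ'.comp (ℂ⟮x⟯).val = u) = c := by
        rw [Finsupp.filter_eq_self_iff]
        exact fun σ' h => hcu σ' h
      rwa [h2] at h1
    · intro φ _ _ h3 v hv ω hω
      rw [Finset.mem_singleton] at hv
      have h4 := h3 ω hω
      rw [Finset.sum_singleton] at h4
      rw [hv]
      exact h4
    · intro ω hω z E hz hE D
      obtain ⟨l, hl, hωl⟩ := (hspan ω).1 hω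
      have h2 : ∀ σ' ∈ c.support, (c σ' : Ω) * pullback σ' z E ω D =
          ∑ j, u ⟨l j, hl j⟩ * ((c σ' : Ω) * pullback σ' z E (ellForm x (ξ j) (η j)) D) := by
        intro σ' hσ'
        have h3 := hcu σ' (Finsupp.mem_support_iff.1 hσ')
        have h4 : ∀ j, σ' (l j) = u ⟨l j, hl j⟩ := by
          intro j
          rw [← h3]
          rfl
        unfold pullback
        rw [hωl, map_sum, Finset.mul_sum, Finset.mul_sum]
        refine Finset.sum_congr rfl fun j _ => ?_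
        rw [map_mul, h4]
        ring
      rw [Finset.sum_congr rfl h2, Finset.sum_comm]
      refine Finset.sum_eq_zero fun j _ => ?_
      rw [← Finset.mul_sum, ← tr_apply, htr z E hz hE D j, mul_zero]
    · intro σ' hσ'
      rw [Finset.mem_singleton]
      exact hcu σ' (Finsupp.mem_support_iff.1 hσ')
  have hfinal : (Q * P) • Finsupp.single σ (1 : ℤ) = Q • c +
      ∑ j, m j • (Q • pull (L j) K Ω (Finsupp.single (restr (L j) Ω σ) (1 : ℤ))) := by
    rw [hc, smul_sub, mul_smul, Finset.smul_sum]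
    simp only [smul_comm Q]
    abel
  rw [hfinal]
  refine add_mem (AddSubgroup.nsmul_mem _ hcr _) (sum_mem fun j _ => AddSubgroup.nsmul_mem _ ?_ _)
  obtain ⟨q, hq⟩ := hQd j
  have h1 := sub_rat hK (hm j) (hLj j) (restr (L j) Ω σ)
  rw [hq, mul_comm, mul_smul]
  refine AddSubgroup.nsmul_mem _ ?_ _
  rw [hd]
  exact h1

end

end Pool.Agent.L7h90.BP
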