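import Pool.Agent.L7h90.Loc2
import Pool.Agent.L7h90.Split
import Pool.Agent.N162.BC.Pencil

/-!
Regularity of the form `dx ∧ dξ / η` at all places.
-/

set_option autoImplicit false
set_option linter.overlappingInstances false
set_option linter.unusedSectionVars false
set_option maxHeartbeats 4000000
set_option synthInstance.maxHeartbeats 400000

open FF Polynomial Pool.Agent.W603.LV Pool.Agent.W602.GT Pool.Agent.W619.PQ Pool.Agent.N162.BC

namespace Pool.Agent.L7h90.BP

section

variable {K : Type} [Field K] [Algebra ℂ K] {P : Place ℂ K}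

/-- regularity of the form at the places over the generic member of the pencil -/
theorem loc_triv [CharZero K] {D0 D1 : Derivation ℂ K K} (h0 : DerReg P D0) (h1 : DerReg P D1)
    {t ξ η A B : K}
    (ht : t ≠ 0) (he : P.ord t = 0) (hA : Ge P 0 A) (hB : Ge P 0 B) (hξ : ξ ≠ 0) (hη : η ≠ 0)
    (hf : 3 * ξ ^ 2 + A ≠ 0) (heq : η ^ 2 = ξ ^ 3 + A * ξ + B)
    (hwA : wd D0 D1 t A = 0) (hwB : wd D0 D1 t B = 0)
    (hΔ0 : 4 * A ^ 3 + 27 * B ^ 2 ≠ 0) (hΔ : P.ord (4 * A ^ 3 + 27 * B ^ 2) = 0) :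
    Ge P 0 (wd D0 D1 t ξ / η) := by
  have hw := two_wd heq hwA hwB
  obtain ⟨k0, hk0⟩ : ∃ k0, k0 = P.ord ξ := ⟨_, rfl⟩
  obtain ⟨h, hh⟩ : ∃ h, h = P.ord η := ⟨_, rfl⟩
  obtain ⟨m, hm⟩ : ∃ m, m = P.ord (3 * ξ ^ 2 + A) := ⟨_, rfl⟩
  have hη2 : P.ord (η ^ 2) = 2 * h := by rw [P.ord_pow, hh]; norm_num
  have hξ3 : P.ord (ξ ^ 3) = 3 * k0 := by rw [P.ord_pow, hk0]; norm_num
  have hAξ : Ge P k0 (A * ξ) := by
    have := hA.mul (ge_ord P ξ)
    rwa [zero_add, ← hk0] at this
  by_cases c0 : k0 < 0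
  · have g1 : Ge P (0 + k0 - 1) (wd D0 D1 t ξ) := by
      rw [← he, hk0]
      exact wd_ge h0 h1 ht hξ
    have h2 : P.ord (ξ ^ 3 + (A * ξ + B)) = P.ord (ξ ^ 3) := by
      apply ord_of_ge (pow_ne_zero 3 hξ)
      rw [hξ3]
      exact (hAξ.mono (by omega)).add (hB.mono (by omega))
    rw [← add_assoc, ← heq, hη2, hξ3] at h2
    have h3 := ge_div hη g1
    rw [← hh] at h3
    exact h3.mono (by omega)
  · push Not at c0
    have gξ : Ge P 0 ξ := Or.inr (by omega)
    have gt : Ge P 0 t := Or.inr he.ge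
    have gwd : ∀ {g : K}, Ge P 0 g → Ge P 0 (wd D0 D1 t g) := by
      intro g hg
      have e1 : Ge P 0 (D0 t) := h0 t gt
      have e2 : Ge P 0 (D1 g) := h1 g hg
      have e3 : Ge P 0 (D0 g) := h0 g hg
      have e4 : Ge P 0 (D1 t) := h1 t gt
      have := (e1.mul e2).sub (e3.mul e4)
      simpa [wd] using this
    by_cases c1 : h ≤ 0
    · have h3 := ge_div hη (gwd gξ)
      rw [← hh] at h3
      exact h3.mono (by omega)
    · push Not at c1
      have gη : Ge P 0 η := Or.inr (by omega)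
      by_cases c2 : m ≤ 0
      · have h3 := ge_div hf ((Ge.natCast (P := P) 2).mul (gwd gη))
        have h4 : wd D0 D1 t ξ / η = ((2 : ℕ) : K) * wd D0 D1 t η / (3 * ξ ^ 2 + A) := by
          rw [div_eq_div_iff hη hf]
          push_cast
          linear_combination -hw
        rw [h4]
        exact h3.mono (by omega)
      · push Not at c2
        exfalso
        have e : 4 * A ^ 3 + 27 * B ^ 2 = (-18 * (A * ξ) + 27 * B) * η ^ 2 +
            (6 * (A * ξ ^ 2) - 9 * (B * ξ) + 4 * A ^ 2) * (3 * ξ ^ 2 + A) := by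
          linear_combination -(-18 * (A * ξ) + 27 * B) * heq
        have gn : ∀ (n : ℤ) {g : K}, Ge P 0 g → Ge P 0 ((n : K) * g) := by
          intro n g hg
          have := (Ge.intCast (P := P) n).mul hg
          rwa [zero_add] at this
        have g1 : Ge P 0 (A * ξ) := by simpa using hA.mul gξ
        have g2 : Ge P 0 (A * ξ ^ 2) := by simpa using hA.mul (gξ.pow 2)
        have g3 : Ge P 0 (B * ξ) := by simpa using hB.mul gξ
        have g4 : Ge P 0 (A ^ 2) := by simpa using hA.pow 2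
        have g5 : Ge P 0 (-18 * (A * ξ) + 27 * B) := by
          have := (gn (-18) g1).add (gn 27 hB)
          push_cast at this
          exact this
        have g6 : Ge P 0 (6 * (A * ξ ^ 2) - 9 * (B * ξ) + 4 * A ^ 2) := by
          have := ((gn 6 g2).sub (gn 9 g3)).add (gn 4 g4)
          push_cast at this
          exact this
        have g7 : Ge P 1 (η ^ 2) := Or.inr (by omega)
        have g8 : Ge P 1 (3 * ξ ^ 2 + A) := Or.inr (by omega)
        have g9 := (g5.mul g7).add (g6.mul g8)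
        rw [← e, zero_add] at g9
        have := g9.resolve_left hΔ0
        omega

/-- `df` is a multiple of `dx` -/
def Dep (x f : K) : Prop := ∃ c : K, ∀ D : Derivation ℂ K K, D f = c * D x

theorem Dep.refl (x : K) : Dep x x := ⟨1, fun D => by rw [one_mul]⟩

theorem Dep.mul {x f g : K} (hf : Dep x f) (hg : Dep x g) : Dep x (f * g) := by
  obtain ⟨c, hc⟩ := hf
  obtain ⟨d, hd⟩ := hg
  refine ⟨f * d + g * c, fun D => ?_⟩
  rw [Derivation.leibniz, hc, hd, smul_eq_mul, smul_eq_mul]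
  ring

theorem Dep.pow {x f : K} (hf : Dep x f) (n : ℕ) : Dep x (f ^ n) := by
  induction n with
  | zero => exact ⟨0, fun D => by simp⟩
  | succ n ih =>
    rw [pow_succ]
    exact ih.mul hf

theorem Dep.inv {x f : K} (hf : Dep x f) : Dep x f⁻¹ := by
  obtain ⟨c, hc⟩ := hf
  refine ⟨-(f⁻¹ ^ 2) * c, fun D => ?_⟩
  rw [Derivation.leibniz_inv, hc, smul_eq_mul]
  ring

theorem Dep.aeval (x : K) (p : Polynomial ℂ) : Dep x (aeval x p) :=
  ⟨Polynomial.aeval x (derivative p), fun D => by rw [Derivation.map_aeval, smul_eq_mul]⟩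

theorem Dep.wd {x f g : K} (hf : Dep x f) (hg : Dep x g) (D0 D1 : Derivation ℂ K K) :
    wd D0 D1 f g = 0 := by
  obtain ⟨c, hc⟩ := hf
  obtain ⟨d, hd⟩ := hg
  unfold BP.wd
  rw [hc, hc, hd, hd]
  ring

theorem wd_mul_dep {x f g s : K} (hf : Dep x f) (hs : Dep x s) (D0 D1 : Derivation ℂ K K) :
    wd D0 D1 f (g * s) = s * wd D0 D1 f g := by
  have h := Dep.wd hf hs D0 D1
  unfold wd at *
  rw [Derivation.leibniz, Derivation.leibniz]
  simp only [smul_eq_mul]
  linear_combination g * h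

/-- orders of polynomials at the members of the pencil -/
theorem ord_root {x : K} {c : ℂ} (h : 0 < P.ord (x - algebraMap ℂ K c)) {p : Polynomial ℂ}
    (hp : p ≠ 0) : P.ord (aeval x p) = rootMultiplicity c p * P.ord (x - algebraMap ℂ K c) := by
  have hτ0 : x - algebraMap ℂ K c ≠ 0 := by
    intro h0
    rw [h0, P.ord_zero] at h
    exact lt_irrefl _ h
  have hτ1 : Ge P 1 (x - algebraMap ℂ K c) := Or.inr h
  obtain ⟨q, hq, hq'⟩ := exists_eq_pow_rootMultiplicity_mul_and_not_dvd p hp c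
  have h1 : aeval x p = (x - algebraMap ℂ K c) ^ (rootMultiplicity c p) * aeval x q := by
    conv_lhs => rw [hq]
    rw [map_mul, map_pow, map_sub, aeval_X, aeval_C]
  have h3 : eval c q ≠ 0 := fun h0 => hq' (dvd_iff_isRoot.2 h0)
  have h5 : Ge P 1 (aeval x q - algebraMap ℂ K (eval c q)) := by
    have hx : Ge P 0 x := by
      have := (hτ1.mono (by norm_num : (0 : ℤ) ≤ 1)).add (Ge.const (P := P) c)
      rwa [sub_add_cancel] at this
    obtain ⟨r, hr⟩ := (X_sub_C_dvd_sub_C_eval (a := c) (p := q))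
    have h4 := congrArg (aeval x) hr
    rw [map_sub, map_mul, map_sub, aeval_X, aeval_C, aeval_C] at h4
    rw [h4]
    have := hτ1.mul (ge_aeval P hx r)
    simpa using this
  have h8 : algebraMap ℂ K (eval c q) ≠ 0 := by
    rw [Ne, map_eq_zero]
    exact h3
  have h2 : P.ord (aeval x q) = 0 := by
    have h6 := ord_of_ge h8 (by rwa [P.ord_const h3, zero_add] : Ge P (P.ord (algebraMap ℂ K (eval c q)) + 1) _)
    rw [add_sub_cancel, P.ord_const h3] at h6
    exact h6
  have hq0 : aeval x q ≠ 0 := by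
    intro h0
    rw [h0, zero_sub] at h5
    rcases h5 with h5 | h5
    · exact h8 (neg_eq_zero.1 h5)
    · rw [P.ord_neg, P.ord_const h3] at h5
      omega
  rw [h1, P.ord_mul (pow_ne_zero _ hτ0) hq0, h2, add_zero, P.ord_pow]

theorem dvd_of_ge {x : K} {c : ℂ} (h : 0 < P.ord (x - algebraMap ℂ K c)) (hx : Transcendental ℂ x)
    {p : Polynomial ℂ} {n : ℕ} (hp : Ge P (n * P.ord (x - algebraMap ℂ K c)) (aeval x p)) :
    (X - C c) ^ n ∣ p := by
  by_cases hp0 : p = 0
  · rw [hp0]
    exact dvd_zero _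
  have h1 : aeval x p ≠ 0 := fun h0 => hp0 ((transcendental_iff_injective.1 hx) (by rw [h0, map_zero]))
  have h2 := hp.resolve_left h1
  rw [ord_root h hp0] at h2
  have h3 : (n : ℤ) ≤ rootMultiplicity c p := le_of_mul_le_mul_right h2 h
  exact (le_rootMultiplicity_iff hp0).1 (by exact_mod_cast h3)

/-- places which are trivial on `ℂ(x)` -/
theorem ord_triv {x : K} (hx0 : 0 ≤ P.ord x)
    (h : ∀ c : ℂ, P.ord (x - algebraMap ℂ K c) ≤ 0) (hx : Transcendental ℂ x) {p : Polynomial ℂ}
    (hp : p ≠ 0) : P.ord (aeval x p) = 0 := by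
  have hs := IsAlgClosed.splits p
  have hne : ∀ c : ℂ, x - algebraMap ℂ K c ≠ 0 := by
    intro c h0
    exact (transcendental_iff.1 hx) (X - C c) (by rw [map_sub, aeval_X, aeval_C, h0])
      |> fun h1 => X_sub_C_ne_zero c h1
  have hz : ∀ c : ℂ, P.ord (x - algebraMap ℂ K c) = 0 := by
    intro c
    refine le_antisymm (h c) ?_
    have h1 : Ge P 0 (x - algebraMap ℂ K c) := (show Ge P 0 x from Or.inr hx0).sub (Ge.const c)
    exact h1.resolve_left (hne c)
  rw [hs.eq_prod_roots, map_mul, aeval_C]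
  have h1 : ∀ s : Multiset ℂ, aeval x (s.map fun c => X - C c).prod ≠ 0 ∧
      P.ord (aeval x (s.map fun c => X - C c).prod) = 0 := by
    intro s
    induction s using Multiset.induction_on with
    | empty => simpa using P.ord_one
    | cons c s ih =>
      rw [Multiset.map_cons, Multiset.prod_cons, map_mul, map_sub, aeval_X, aeval_C]
      exact ⟨mul_ne_zero (hne c) ih.1, by rw [P.ord_mul (hne c) ih.1, hz, ih.2, add_zero]⟩
  have hlc : algebraMap ℂ K p.leadingCoeff ≠ 0 := by
    rw [Ne, map_eq_zero]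
    exact leadingCoeff_ne_zero.2 hp
  rw [P.ord_mul hlc (h1 _).1, (h1 _).2, P.ord_const (leadingCoeff_ne_zero.2 hp), add_zero]

/-- **the form is regular at all places** -/
theorem ell_regAt [CharZero K] {x ξ η : K} {a b : Polynomial ℂ}
    (hind : AlgebraicIndependent ℂ ![x, ξ])
    (heq : η ^ 2 = ξ ^ 3 + aeval x a * ξ + aeval x b) (hΔ : 4 * a ^ 3 + 27 * b ^ 2 ≠ 0)
    (hmin : ∀ c, ¬ ((X - C c) ^ 4 ∣ a ∧ (X - C c) ^ 6 ∣ b))
    (hN : ¬ (a.natDegree ≤ 4 ∧ b.natDegree ≤ 6)) (P : Place ℂ K) :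
    RegAt P (ellForm x ξ η) := by
  intro D hD
  change Ge P 0 (wd (D 0) (D 1) x ξ / η)
  have hC : ∀ p : Polynomial ℂ, e2 x ξ (C p) = aeval x p := by
    intro p
    simp [e2]
  have hX : e2 x ξ X = ξ := by simp [e2]
  have hx : Transcendental ℂ x := transc_left hind
  have hξ : ξ ≠ 0 := by
    have := e2_ne hind (X_ne_zero (R := Polynomial ℂ))
    rwa [hX] at this
  have hη : η ≠ 0 := by
    intro h0
    have h1 := e2_ne hind (cub_ne a b)
    rw [map_add, map_add, map_mul, map_pow, hC, hC, hX, ← heq, h0] at h1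
    exact h1 (by ring)
  have hf : 3 * ξ ^ 2 + aeval x a ≠ 0 := by
    have h1 : (3 * X ^ 2 + C a : Polynomial (Polynomial ℂ)) ≠ 0 := by
      intro h
      have h1 := congrArg (fun p => coeff p 2) h
      have h2 : coeff (3 * X ^ 2 + C a : Polynomial (Polynomial ℂ)) 2 = 3 := by
        compute_degree
        all_goals norm_num
      simp only [h2, coeff_zero] at h1
      have h3 : ((3 : ℕ) : Polynomial ℂ) ≠ 0 := Nat.cast_ne_zero.2 (by norm_num)
      push_cast at h3
      exact h3 h1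
    have h2 := e2_ne hind h1
    rw [map_add, map_mul, map_pow, hC, hX, map_ofNat] at h2
    exact h2
  have hwd : ∀ p : Polynomial ℂ, wd (D 0) (D 1) x (aeval x p) = 0 :=
    fun p => Dep.wd (Dep.refl x) (Dep.aeval x p) _ _
  by_cases c0 : P.ord x < 0
  · -- the member at infinity
    have hx0 : x ≠ 0 := by
      rintro rfl
      rw [P.ord_zero] at c0
      exact lt_irrefl _ c0
    obtain ⟨t, ht⟩ : ∃ t, t = x⁻¹ := ⟨_, rfl⟩
    have ht0 : t ≠ 0 := by
      rw [ht]
      exact inv_ne_zero hx0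
    have hot : P.ord t = -P.ord x := by rw [ht, P.ord_inv]
    have htp : 0 < P.ord t := by omega
    have hex : ∃ N : ℕ, a.natDegree ≤ 4 * N ∧ b.natDegree ≤ 6 * N :=
      ⟨max a.natDegree b.natDegree, by omega, by omega⟩
    classical
    obtain ⟨N, hNd⟩ : ∃ N, N = Nat.find hex := ⟨_, rfl⟩
    have hN1 := Nat.find_spec hex
    rw [← hNd] at hN1
    have hN2 : 2 ≤ N := by
      by_contra hlt
      apply hN
      omega
    have hN3 := Nat.find_min hex (m := N - 1) (by omega)
    obtain ⟨s, hs⟩ : ∃ s, s = t ^ N := ⟨_, rfl⟩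
    have hs0 : s ≠ 0 := by
      rw [hs]
      exact pow_ne_zero _ ht0
    have hos : P.ord s = N * P.ord t := by rw [hs, P.ord_pow]
    have hDt : Dep x t := by
      rw [ht]
      exact (Dep.refl x).inv
    have hDs : Dep x s := by
      rw [hs]
      exact hDt.pow N
    have hord : ∀ (p : Polynomial ℂ) (n : ℕ), p ≠ 0 → aeval x p * s ^ n ≠ 0 ∧
        P.ord (aeval x p * s ^ n) = (n * N - p.natDegree) * P.ord t := by
      intro p n hp
      obtain ⟨h1, h2⟩ := ord_aeval_neg P c0 p.natDegree p hp rfl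
      refine ⟨mul_ne_zero h1 (pow_ne_zero _ hs0), ?_⟩
      rw [P.ord_mul h1 (pow_ne_zero _ hs0), h2, P.ord_pow, hos, hot]
      ring
    have hreg : ∀ (p : Polynomial ℂ) (n : ℕ), p.natDegree ≤ n * N → Ge P 0 (aeval x p * s ^ n) := by
      intro p n hn
      by_cases hp : p = 0
      · rw [hp, map_zero, zero_mul]
        exact Ge.zero
      · right
        rw [(hord p n hp).2]
        have : (0 : ℤ) ≤ n * N - p.natDegree := by
          have : (p.natDegree : ℤ) ≤ ((n * N : ℕ) : ℤ) := by exact_mod_cast hn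
          push_cast at this
          omega
        positivity
    have hsm : ∀ (p : Polynomial ℂ) (n : ℕ), 0 < n → Ge P (n * P.ord t) (aeval x p * s ^ n) →
        p.natDegree ≤ n * (N - 1) := by
      intro p n hn0 hp'
      by_cases hp : p = 0
      · rw [hp, natDegree_zero]
        exact Nat.zero_le _
      · have h1 := hp'.resolve_left (hord p n hp).1
        rw [(hord p n hp).2] at h1
        have h2 : (n : ℤ) ≤ n * N - p.natDegree := le_of_mul_le_mul_right h1 htp
        have h3 : (p.natDegree : ℤ) ≤ ((n * (N - 1) : ℕ) : ℤ) := by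
          push_cast [Nat.cast_sub (by omega : 1 ≤ N)]
          linarith
        exact_mod_cast h3
    have h1 := loc_fin (hD 0) (hD 1) (t := t) (ξ := ξ * s ^ 2) (η := η * s ^ 3)
      (A := aeval x a * s ^ 4) (B := aeval x b * s ^ 6) ht0 htp (hreg a 4 hN1.1) (hreg b 6 hN1.2)
      (mul_ne_zero hξ (pow_ne_zero _ hs0)) (mul_ne_zero hη (pow_ne_zero _ hs0))
      (by
        have : 3 * (ξ * s ^ 2) ^ 2 + aeval x a * s ^ 4 = (3 * ξ ^ 2 + aeval x a) * s ^ 4 := by ring
        rw [this]
        exact mul_ne_zero hf (pow_ne_zero _ hs0))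
      (by linear_combination s ^ 6 * heq)
      (Dep.wd hDt ((Dep.aeval x a).mul (hDs.pow 4)) _ _)
      (Dep.wd hDt ((Dep.aeval x b).mul (hDs.pow 6)) _ _)
      (fun h => hN3 ⟨hsm a 4 (by norm_num) (by exact_mod_cast h.1),
        hsm b 6 (by norm_num) (by exact_mod_cast h.2)⟩)
    rw [wd_mul_dep hDt (hDs.pow 2)] at h1
    have h2 : wd (D 0) (D 1) t ξ = -(t ^ 2) * wd (D 0) (D 1) x ξ := by
      unfold wd
      rw [ht, Derivation.leibniz_inv, Derivation.leibniz_inv]
      simp only [smul_eq_mul]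
      ring
    rw [h2] at h1
    have h3 : wd (D 0) (D 1) x ξ / η =
        -(t ^ (N - 2)) * (s ^ 2 * (-(t ^ 2) * wd (D 0) (D 1) x ξ) / (η * s ^ 3)) := by
      have h4 : s = t ^ (N - 2) * t ^ 2 := by
        rw [hs, ← pow_add]
        congr 1
        omega
      have h5 : t ^ (N - 2) ≠ 0 := pow_ne_zero _ ht0
      rw [h4]
      field_simp
    rw [h3]
    have h4 : Ge P 0 (-(t ^ (N - 2))) := by
      have : Ge P 0 t := Or.inr htp.le
      have := (this.pow (N - 2)).neg
      simpa using this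
    have := h4.mul h1
    rwa [add_zero] at this
  · push Not at c0
    have gx : Ge P 0 x := Or.inr c0
    by_cases c1 : ∃ c : ℂ, 0 < P.ord (x - algebraMap ℂ K c)
    · obtain ⟨c, hc⟩ := c1
      have hτ0 : x - algebraMap ℂ K c ≠ 0 := by
        intro h0
        rw [h0, P.ord_zero] at hc
        exact lt_irrefl _ hc
      have hτ : Dep x (x - algebraMap ℂ K c) := by
        have := Dep.aeval x (X - C c)
        rwa [map_sub, aeval_X, aeval_C] at this
      have h1 := loc_fin (hD 0) (hD 1) hτ0 hc (ge_aeval P gx a) (ge_aeval P gx b) hξ hη hf heq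
        (Dep.wd hτ (Dep.aeval x a) _ _) (Dep.wd hτ (Dep.aeval x b) _ _) (fun h => hmin c
          ⟨dvd_of_ge hc hx (n := 4) (by exact_mod_cast h.1),
            dvd_of_ge hc hx (n := 6) (by exact_mod_cast h.2)⟩)
      have h2 : wd (D 0) (D 1) (x - algebraMap ℂ K c) ξ = wd (D 0) (D 1) x ξ := by
        unfold wd
        simp
      rwa [h2] at h1
    · push Not at c1
      have h3 : ∀ p : Polynomial ℂ, p ≠ 0 → P.ord (aeval x p) = 0 := fun p hp =>
        ord_triv c0 c1 hx hp
      have hx0 : x ≠ 0 := by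
        rintro rfl
        exact hx (isAlgebraic_zero)
      have e1 : P.ord x = 0 := by
        have := h3 X X_ne_zero
        rwa [aeval_X] at this
      have e2 : 4 * (aeval x a) ^ 3 + 27 * (aeval x b) ^ 2 = aeval x (4 * a ^ 3 + 27 * b ^ 2) := by
        rw [map_add, map_mul, map_mul, map_pow, map_pow, map_ofNat, map_ofNat]
      have e3 : aeval x (4 * a ^ 3 + 27 * b ^ 2) ≠ 0 := fun h0 =>
        hΔ ((transcendental_iff_injective.1 hx) (by rw [h0, map_zero]))
      exact loc_triv (hD 0) (hD 1) hx0 e1 (ge_aeval P gx a) (ge_aeval P gx b) hξ hη hf heq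
        (hwd a) (hwd b) (by rw [e2]; exact e3) (by rw [e2]; exact h3 _ hΔ)

end

end Pool.Agent.L7h90.BP
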