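import Pool.Agent.L7h90.SDefs
import Pool.Agent.L7h90.Glob

/-!
Degree bounds from `p_g = 0`.
-/

set_option autoImplicit false
set_option linter.overlappingInstances false
set_option linter.unusedSectionVars false
set_option maxHeartbeats 4000000
set_option synthInstance.maxHeartbeats 400000

open FF Polynomial Pool.Agent.W603.LV Pool.Agent.W602.GT Pool.Agent.W619.PQ Pool.Agent.N162.BC
open Module IntermediateField

namespace Pool.Agent.L7h90.BP

/-- minimal Weierstrass equations -/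
def Minimal (a b : Polynomial ℂ) : Prop :=
  ∀ c : ℂ, ¬ ((X - C c) ^ 4 ∣ a ∧ (X - C c) ^ 6 ∣ b)

theorem exists_minimal (n : ℕ) : ∀ a b : Polynomial ℂ, 4 * a ^ 3 + 27 * b ^ 2 ≠ 0 →
    (4 * a ^ 3 + 27 * b ^ 2).natDegree ≤ n → ∃ l a1 b1 : Polynomial ℂ, l ≠ 0 ∧ a = l ^ 4 * a1 ∧
      b = l ^ 6 * b1 ∧ 4 * a1 ^ 3 + 27 * b1 ^ 2 ≠ 0 ∧ Minimal a1 b1 := by
  induction n using Nat.strong_induction_on with
  | _ n ih =>
    intro a b hΔ hn
    by_cases hm : Minimal a b
    · exact ⟨1, a, b, one_ne_zero, by simp, by simp, hΔ, hm⟩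
    · unfold Minimal at hm
      push Not at hm
      obtain ⟨c, ⟨a', ha'⟩, ⟨b', hb'⟩⟩ := hm
      have h1 : 4 * a ^ 3 + 27 * b ^ 2 = (X - C c) ^ 12 * (4 * a' ^ 3 + 27 * b' ^ 2) := by
        rw [ha', hb']
        ring
      have h2 : 4 * a' ^ 3 + 27 * b' ^ 2 ≠ 0 := by
        intro h0
        rw [h1, h0, mul_zero] at hΔ
        exact hΔ rfl
      have h3 : (4 * a ^ 3 + 27 * b ^ 2).natDegree = 12 + (4 * a' ^ 3 + 27 * b' ^ 2).natDegree := by
        rw [h1, natDegree_mul (pow_ne_zero _ (X_sub_C_ne_zero c)) h2, natDegree_pow,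
          natDegree_X_sub_C]
      obtain ⟨l, a1, b1, hl, ha1, hb1, hΔ1, hm1⟩ := ih (4 * a' ^ 3 + 27 * b' ^ 2).natDegree
        (by omega) a' b' h2 le_rfl
      refine ⟨(X - C c) * l, a1, b1, mul_ne_zero (X_sub_C_ne_zero c) hl, ?_, ?_, hΔ1, hm1⟩
      · rw [ha', ha1]
        ring
      · rw [hb', hb1]
        ring

section

variable {K : Type} [Field K] [Algebra ℂ K]

theorem deg_bound [CharZero K] (hK : Algebra.trdeg ℂ K = 2) (hg : GenusZero K) {x ξ η : K}
    {a b : Polynomial ℂ} (h : MapsToEll x ξ η a b) (hm : Minimal a b) :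
    a.natDegree ≤ 4 ∧ b.natDegree ≤ 6 := by
  by_contra hN
  have h1 : GlobalForm 2 (ellForm x ξ η) :=
    ⟨ellForm_pluri x ξ η, fun P _ => ell_regAt h.ind h.eq h.disc hm hN P⟩
  have hbas : IsTranscendenceBasis ℂ ![x, ξ] := by
    refine h.ind.isTranscendenceBasis_of_lift_trdeg_le_of_finite ?_
    rw [hK]
    simp
  obtain ⟨H0, H1, h0x, h0ξ, h1x, h1ξ⟩ := exists_dual hbas
  have h2 := hg _ h1 ![H0, H1]
  have hη : η ≠ 0 := by
    have hC : ∀ p : Polynomial ℂ, e2 x ξ (C p) = aeval x p := by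
      intro p
      simp [e2]
    have hX : e2 x ξ X = ξ := by simp [e2]
    intro h0
    have h1 := e2_ne h.ind (cub_ne a b)
    rw [map_add, map_add, map_mul, map_pow, hC, hC, hX, ← h.eq, h0] at h1
    exact h1 (by ring)
  unfold ellForm at h2
  simp only [Matrix.cons_val_zero, Matrix.cons_val_one, h0x, h0ξ, h1ξ, one_mul, zero_mul,
    sub_zero] at h2
  exact (div_ne_zero one_ne_zero hη) h2

theorem alg_adjoin {s : Set K} (h : Algebra.IsAlgebraic (IntermediateField.adjoin ℂ s) K) :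
    Algebra.IsAlgebraic (Algebra.adjoin ℂ s) K :=
  IntermediateField.isAlgebraic_adjoin_iff_top.1 h

theorem ind_of_alg (hK : Algebra.trdeg ℂ K = 2) {x ξ1 : K}
    (h5 : Algebra.IsAlgebraic (Algebra.adjoin ℂ (Set.range ![x, ξ1])) K) :
    AlgebraicIndependent ℂ ![x, ξ1] :=
  (Algebra.IsAlgebraic.isTranscendenceBasis_of_lift_le_trdeg_of_finite (R := ℂ) (A := K)
    (x := ![x, ξ1]) (by rw [hK]; simp)).1

theorem adjoin_le_scale {x ξ ξ1 : K}
    (h : ξ ∈ IntermediateField.adjoin ℂ (Set.range ![x, ξ1])) :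
    IntermediateField.adjoin ℂ (Set.range ![x, ξ]) ≤
      IntermediateField.adjoin ℂ (Set.range ![x, ξ1]) := by
  rw [adjoin_le_iff]
  rintro _ ⟨i, rfl⟩
  fin_cases i
  · exact subset_adjoin _ _ ⟨0, rfl⟩
  · exact h

theorem alg_of_le {L L' : IntermediateField ℂ K} (h : L ≤ L') (hL : Algebra.IsAlgebraic L K) :
    Algebra.IsAlgebraic L' K := by
  let _ : Algebra L L' := (inclusion h).toRingHom.toAlgebra
  have _ : IsScalarTower L L' K := IsScalarTower.of_algebraMap_eq fun _ => rfl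
  exact Algebra.IsAlgebraic.tower_top (K := L) _

/-- scaling -/
theorem ind_scale (hK : Algebra.trdeg ℂ K = 2) {x ξ ξ1 : K} (hind : AlgebraicIndependent ℂ ![x, ξ])
    (h : ξ ∈ IntermediateField.adjoin ℂ (Set.range ![x, ξ1])) :
    AlgebraicIndependent ℂ ![x, ξ1] := by
  have hbas : IsTranscendenceBasis ℂ ![x, ξ] := by
    refine hind.isTranscendenceBasis_of_lift_trdeg_le_of_finite ?_
    rw [hK]
    simp
  exact ind_of_alg hK (alg_adjoin (alg_of_le (adjoin_le_scale h) hbas.isAlgebraic_field))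

end

end Pool.Agent.L7h90.BP
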