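import Mathlib

/-!
Homomorphisms of fields with given values on generators.
-/

set_option autoImplicit false

namespace Pool.Agent.L7h90.BP

open MvPolynomial

theorem exists_hom {k L M : Type} [Field k] [Field L] [Field M] [Algebra k L] [Algebra k M] {n : ℕ}
    (y : Fin n → L) (y' : Fin n → M) (hgen : IntermediateField.adjoin k (Set.range y) = ⊤)
    (h : ∀ P : MvPolynomial (Fin n) k, aeval y P = 0 ↔ aeval y' P = 0) :
    ∃ τ : L →ₐ[k] M, ∀ P : MvPolynomial (Fin n) k, τ (aeval y P) = aeval y' P := by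
  classical
  obtain ⟨ψ, hψ⟩ : ∃ ψ : MvPolynomial (Fin n) k →ₐ[k] L, ψ = aeval y := ⟨_, rfl⟩
  obtain ⟨φ, hφ⟩ : ∃ φ : MvPolynomial (Fin n) k →ₐ[k] M, φ = aeval y' := ⟨_, rfl⟩
  let A : Subalgebra k L := ψ.range
  have hfr : IsFractionRing A L := by
    refine IsFractionRing.of_field A L fun z => ?_
    have hz : z ∈ IntermediateField.adjoin k (Set.range y) := by
      rw [hgen]
      trivial
    rw [IntermediateField.mem_adjoin_range_iff] at hz
    obtain ⟨r, s, hrs⟩ := hz
    rw [← hψ] at hrs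
    exact ⟨ψ.rangeRestrict r, ψ.rangeRestrict s, hrs⟩
  have hsurj : Function.Surjective ψ.rangeRestrict := AlgHom.rangeRestrict_surjective ψ
  have hker : ∀ P : MvPolynomial (Fin n) k, P ∈ RingHom.ker ψ.rangeRestrict → φ P = 0 := by
    intro P hP
    rw [RingHom.mem_ker] at hP
    rw [hφ, ← h P, ← hψ]
    exact congrArg Subtype.val hP
  let e := Ideal.quotientKerAlgEquivOfSurjective hsurj
  let g : A →ₐ[k] M := (Ideal.Quotient.liftₐ (RingHom.ker ψ.rangeRestrict) φ hker).comp
    (e.symm : A →ₐ[k] _)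
  have hg : ∀ P : MvPolynomial (Fin n) k, g (ψ.rangeRestrict P) = φ P := by
    intro P
    change (Ideal.Quotient.liftₐ (RingHom.ker ψ.rangeRestrict) φ hker)
      (e.symm (ψ.rangeRestrict P)) = φ P
    have h1 : e.symm (ψ.rangeRestrict P) =
        Ideal.Quotient.mk (RingHom.ker ψ.rangeRestrict) P := by
      rw [AlgEquiv.symm_apply_eq]
      rfl
    rw [h1]
    rfl
  have hinj : Function.Injective g := by
    rw [injective_iff_map_eq_zero]
    intro a ha
    obtain ⟨P, rfl⟩ := hsurj a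
    rw [hg, hφ, ← h P, ← hψ] at ha
    exact Subtype.ext ha
  refine ⟨IsFractionRing.liftAlgHom (K := L) hinj, fun P => ?_⟩
  have h1 := IsFractionRing.liftAlgHom_apply (K := L) (g := g) hinj
    (x := algebraMap A L (ψ.rangeRestrict P))
  have h2 : algebraMap A L (ψ.rangeRestrict P) = aeval y P := by
    rw [← hψ]
    rfl
  rw [h2] at h1
  rw [h1, ← h2]
  rw [IsFractionRing.lift_algebraMap]
  rw [← hφ, ← hg]
  rfl

end Pool.Agent.L7h90.BP
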