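import Pool.Agent.L7h90.Sol

/-!
Curves of contact order six.
-/

set_option autoImplicit false
set_option maxHeartbeats 4000000

open Polynomial

namespace Pool.Agent.L7h90.BP

theorem expand {k : Type} [Field k] (p : Polynomial k) (x0 : k) {n : ℕ} (hn : p.natDegree < n) :
    p = ∑ i ∈ Finset.range n, C ((taylor x0 p).coeff i) * (X - C x0) ^ i := by
  conv_lhs => rw [← sum_taylor_eq p x0]
  rw [sum_over_range' _ (fun i => by simp) n (by rwa [natDegree_taylor])]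

theorem exists_six {Ω : Type} [Field Ω] [IsAlgClosed Ω] [CharZero Ω] {a b : Polynomial Ω}
    (ha : a.natDegree ≤ 4) (hb : b.natDegree ≤ 6) {x0 ξ h : Ω}
    (hH : h ^ 2 = ξ ^ 3 + a.eval x0 * ξ + b.eval x0) (hh : h ≠ 0)
    (hΔ : 4 * a.eval x0 ^ 3 + 27 * b.eval x0 ^ 2 ≠ 0) (h3 : psi3 (a.eval x0) (b.eval x0) ξ ≠ 0)
    (h6 : chi6 (a.eval x0) (b.eval x0) ξ ≠ 0) : ∃ (s r : Polynomial Ω) (c : Ω),
      s.eval x0 = ξ ∧ r.eval x0 = h ∧ s ^ 3 + a * s + b - r ^ 2 = C c * (X - C x0) ^ 6 := by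
  obtain ⟨A, hA⟩ : ∃ A : ℕ → Ω, A = fun i => (taylor x0 a).coeff i := ⟨_, rfl⟩
  obtain ⟨B, hB⟩ : ∃ B : ℕ → Ω, B = fun i => (taylor x0 b).coeff i := ⟨_, rfl⟩
  have ha' := expand a x0 (n := 5) (by omega)
  have hb' := expand b x0 (n := 7) (by omega)
  have hA0 : a.eval x0 = A 0 := by
    rw [hA]
    simp only [taylor_coeff_zero]
  have hB0 : b.eval x0 = B 0 := by
    rw [hB]
    simp only [taylor_coeff_zero]
  have ha2 : a = ∑ i ∈ Finset.range 5, C (A i) * (X - C x0) ^ i := by rw [hA]; exact ha'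
  have hb2 : b = ∑ i ∈ Finset.range 7, C (B i) * (X - C x0) ^ i := by rw [hB]; exact hb'
  rw [hA0, hB0] at hH hΔ h3 h6
  obtain ⟨s1, s2, r1, r2, r3, e1, e2, e3, e4, e5⟩ := exists_sol hH hh hΔ h3 h6 (A 1) (A 2) (A 3)
    (A 4) (A 1 * ξ + B 1) (A 2 * ξ + B 2) (A 3 * ξ + B 3) (A 4 * ξ + B 4) (B 5)
  obtain ⟨T, hT⟩ : ∃ T : Polynomial Ω, T = X - C x0 := ⟨_, rfl⟩
  have hT0 : T.eval x0 = 0 := by rw [hT]; simp
  refine ⟨C ξ + C s1 * T + C s2 * T ^ 2, C h + C r1 * T + C r2 * T ^ 2 + C r3 * T ^ 3,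
    s2 ^ 3 + A 4 * s2 + B 6 - r3 ^ 2, ?_, ?_, ?_⟩
  · simp [hT0]
  · simp [hT0]
  · rw [ha2, hb2, ← hT]
    simp only [Finset.sum_range_succ, Finset.sum_range_zero, zero_add, pow_zero, mul_one, pow_one]
    have E0 := congrArg (C : Ω →+* Polynomial Ω) hH
    have E1 := congrArg (C : Ω →+* Polynomial Ω) e1
    have E2 := congrArg (C : Ω →+* Polynomial Ω) e2
    have E3 := congrArg (C : Ω →+* Polynomial Ω) e3
    have E4 := congrArg (C : Ω →+* Polynomial Ω) e4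
    have E5 := congrArg (C : Ω →+* Polynomial Ω) e5
    simp only [map_mul, map_add, map_pow, map_ofNat] at E0 E1 E2 E3 E4 E5
    simp only [map_mul, map_add, map_sub, map_pow]
    linear_combination -E0 - T * E1 - T ^ 2 * E2 - T ^ 3 * E3 - T ^ 4 * E4 - T ^ 5 * E5

end Pool.Agent.L7h90.BP
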