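import Pool.Agent.L7h90.Curve
import Pool.Agent.L7h90.Six
import Pool.Agent.L7h90.Hom

/-!
The points of a rational elliptic surface.
-/

set_option autoImplicit false
set_option linter.overlappingInstances false
set_option linter.unusedSectionVars false
set_option maxHeartbeats 4000000
set_option synthInstance.maxHeartbeats 400000

open FF Polynomial Pool.Agent.W603.LV Pool.Agent.W602.GT Pool.Agent.W619.PQ Pool.Agent.N162.BC
open Module IntermediateField

namespace Pool.Agent.L7h90.BP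

section

theorem psi3_ne (a b : Polynomial ℂ) : psi3 (C a) (C b) (X : Polynomial (Polynomial ℂ)) ≠ 0 := by
  intro h
  have h1 := congrArg (fun p => coeff p 4) h
  have h2 : coeff (psi3 (C a) (C b) (X : Polynomial (Polynomial ℂ))) 4 = 3 := by
    unfold psi3
    compute_degree
    all_goals norm_num
  simp only [h2, coeff_zero] at h1
  have h3 : (3 : Polynomial ℂ) ≠ 0 := by norm_num
  exact h3 h1

theorem chi6_ne (a b : Polynomial ℂ) : chi6 (C a) (C b) (X : Polynomial (Polynomial ℂ)) ≠ 0 := by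
  intro h
  have h1 := congrArg (fun p => coeff p 12) h
  have h2 : coeff (chi6 (C a) (C b) (X : Polynomial (Polynomial ℂ))) 12 = 1 := by
    unfold chi6 phi4 psi3
    compute_degree
    all_goals norm_num
  simp only [h2, coeff_zero] at h1
  exact one_ne_zero h1

theorem cub_ne (a b : Polynomial ℂ) : (X ^ 3 + C a * X + C b : Polynomial (Polynomial ℂ)) ≠ 0 := by
  intro h
  have h1 := congrArg (fun p => coeff p 3) h
  have h2 : coeff (X ^ 3 + C a * X + C b : Polynomial (Polynomial ℂ)) 3 = 1 := by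
    compute_degree
    all_goals norm_num
  simp only [h2, coeff_zero] at h1
  exact one_ne_zero h1

end

section

variable {L : Type} [Field L] [Algebra ℂ L] {x ξ : L}

/-- evaluation of polynomials in two variables -/
noncomputable def e2 (x ξ : L) : Polynomial (Polynomial ℂ) →+* L :=
  eval₂RingHom ((aeval x : Polynomial ℂ →ₐ[ℂ] L) : Polynomial ℂ →+* L) ξ

theorem e2_ne (hind : AlgebraicIndependent ℂ ![x, ξ])
    {P : Polynomial (Polynomial ℂ)} (hP : P ≠ 0) : e2 x ξ P ≠ 0 := by
  intro h0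
  apply hP
  obtain ⟨θ, hθ⟩ : ∃ θ : MvPolynomial (Fin 2) ℂ →+* Polynomial (Polynomial ℂ),
    θ = MvPolynomial.eval₂Hom (C.comp C) ![C X, X] := ⟨_, rfl⟩
  obtain ⟨κ, hκ⟩ : ∃ κ : Polynomial (Polynomial ℂ) →+* MvPolynomial (Fin 2) ℂ,
    κ = eval₂RingHom ((aeval (MvPolynomial.X 0 : MvPolynomial (Fin 2) ℂ) :
      Polynomial ℂ →ₐ[ℂ] MvPolynomial (Fin 2) ℂ) : Polynomial ℂ →+* MvPolynomial (Fin 2) ℂ)
      (MvPolynomial.X 1) := ⟨_, rfl⟩
  have h1 : θ.comp κ = RingHom.id _ := by
    rw [hθ, hκ]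
    ext <;> simp
  have h2 : ((MvPolynomial.aeval ![x, ξ] : MvPolynomial (Fin 2) ℂ →ₐ[ℂ] L) :
      MvPolynomial (Fin 2) ℂ →+* L).comp κ = e2 x ξ := by
    rw [hκ]
    unfold e2
    ext <;> simp
  have h3 : MvPolynomial.aeval ![x, ξ] (κ P) = 0 := by
    have h4 := DFunLike.congr_fun h2 P
    rw [h0] at h4
    exact h4
  have h4 := (algebraicIndependent_iff.1 hind) _ h3
  have h5 := DFunLike.congr_fun h1 P
  rw [RingHom.comp_apply, h4, map_zero] at h5
  exact h5.symm

theorem transc_left (hind : AlgebraicIndependent ℂ ![x, ξ]) : Transcendental ℂ x := by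
  rintro ⟨p, hp, hp'⟩
  have h1 : e2 x ξ (C p) ≠ 0 := e2_ne hind (by simpa using hp)
  apply h1
  simpa [e2] using hp'

end

end Pool.Agent.L7h90.BP
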