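import Pool.Agent.L7h90.Ell

/-!
The points of a rational elliptic surface.
-/

set_option autoImplicit false
set_option linter.overlappingInstances false
set_option linter.unusedSectionVars false
set_option maxHeartbeats 4000000
set_option synthInstance.maxHeartbeats 400000

open FF Polynomial Pool.Agent.W603.LV Pool.Agent.W602.GT Pool.Agent.W619.PQ Pool.Agent.N162.BC
open Module IntermediateField

namespace Pool.Agent.L7h90.BP

section

variable {Ω M : Type} [Field Ω] [Field M] [Algebra Ω M]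

theorem ge_unit {w : Place Ω M} {z : M} {c : Ω} (hc : c ≠ 0) (h : Ge w 1 (z - algebraMap Ω M c)) :
    z ≠ 0 ∧ w.ord z = 0 := by
  have h3 : algebraMap Ω M c ≠ 0 := by simpa using hc
  rcases h with h | h
  · rw [sub_eq_zero.1 h]
    exact ⟨h3, w.ord_const hc⟩
  · by_cases h0 : z - algebraMap Ω M c = 0
    · rw [sub_eq_zero.1 h0]
      exact ⟨h3, w.ord_const hc⟩
    have h5 := w.ord_add_eq h3 h0 (by rw [w.ord_const hc]; omega)
    rw [add_sub_cancel, w.ord_const hc] at h5
    exact h5

theorem ge_const_eq {w : Place Ω M} {z : M} {c c' : Ω} (h : Ge w 1 (z - algebraMap Ω M c))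
    (h' : Ge w 1 (z - algebraMap Ω M c')) : c = c' := by
  have h1 := h.sub h'
  rw [sub_sub_sub_cancel_left, ← map_sub] at h1
  have h2 := not_ge_const h1
  exact (sub_eq_zero.1 h2).symm

theorem ge_mul_sub {w : Place Ω M} {z z' : M} {c c' : Ω} (h : Ge w 1 (z - algebraMap Ω M c))
    (h' : Ge w 1 (z' - algebraMap Ω M c')) : Ge w 1 (z * z' - algebraMap Ω M (c * c')) := by
  have h1 : Ge w 0 z := by
    have := (h.mono (by norm_num : (0 : ℤ) ≤ 1)).add (Ge.const (P := w) c)
    rwa [sub_add_cancel] at this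
  have h2 := (h1.mul h').add (h.mul (Ge.const (P := w) c'))
  rw [zero_add] at h2
  have e : z * z' - algebraMap Ω M (c * c') =
      z * (z' - algebraMap Ω M c') + (z - algebraMap Ω M c) * algebraMap Ω M c' := by
    rw [map_mul]; ring
  rwa [e]

theorem ge_add_sub {w : Place Ω M} {z z' : M} {c c' : Ω} (h : Ge w 1 (z - algebraMap Ω M c))
    (h' : Ge w 1 (z' - algebraMap Ω M c')) : Ge w 1 (z + z' - algebraMap Ω M (c + c')) := by
  rw [map_add, add_sub_add_comm]
  exact h.add h'

/-- the centre is determined on generators -/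
theorem centred_of_gen {L : Type} [Field L] [Algebra ℂ L] [Algebra ℂ Ω] {n : ℕ} {y : Fin n → L}
    (hgen : IntermediateField.adjoin ℂ (Set.range y) = ⊤) {τ : L →+* M}
    (hτ : ∀ z : ℂ, τ (algebraMap ℂ L z) = algebraMap Ω M (algebraMap ℂ Ω z)) {w : Place Ω M}
    {σ : L →ₐ[ℂ] Ω} (h : ∀ i, Ge w 1 (τ (y i) - algebraMap Ω M (σ (y i)))) : CentredAt τ w σ := by
  rw [centred_iff]
  have h1 : ∀ P : MvPolynomial (Fin n) ℂ, Ge w 1 (τ (MvPolynomial.aeval y P) -
      algebraMap Ω M (σ (MvPolynomial.aeval y P))) := by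
    intro P
    induction P using MvPolynomial.induction_on with
    | C c =>
      rw [MvPolynomial.algHom_C, hτ, AlgHom.commutes, sub_self]
      exact Ge.zero
    | add p q hp hq =>
      rw [map_add, map_add, map_add]
      exact ge_add_sub hp hq
    | mul_X p i hp =>
      rw [map_mul, map_mul, map_mul, MvPolynomial.aeval_X]
      exact ge_mul_sub hp (h i)
  intro l
  have hl : l ∈ IntermediateField.adjoin ℂ (Set.range y) := by
    rw [hgen]
    trivial
  rw [IntermediateField.mem_adjoin_range_iff] at hl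
  obtain ⟨r, s, hrs⟩ := hl
  by_cases hs : MvPolynomial.aeval y s = 0
  · rw [hrs, hs, div_zero, map_zero, map_zero, map_zero, sub_zero]
    exact Ge.zero
  have hσs : σ (MvPolynomial.aeval y s) ≠ 0 := by simpa using hs
  have h2 := ge_unit hσs (h1 s)
  have h3 : Ge w 1 (τ (MvPolynomial.aeval y s) * (τ l - algebraMap Ω M (σ l))) := by
    have h4 : MvPolynomial.aeval y s * l = MvPolynomial.aeval y r := by
      rw [hrs]
      field_simp
    have h5 := h1 r
    have h6 := (h1 s).mul (Ge.const (P := w) (σ l))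
    rw [add_zero] at h6
    have h7 := h5.sub h6
    have e : τ (MvPolynomial.aeval y s) * (τ l - algebraMap Ω M (σ l)) =
        τ (MvPolynomial.aeval y r) - algebraMap Ω M (σ (MvPolynomial.aeval y r)) -
        (τ (MvPolynomial.aeval y s) - algebraMap Ω M (σ (MvPolynomial.aeval y s))) *
          algebraMap Ω M (σ l) := by
      rw [← h4, map_mul, map_mul, map_mul]
      ring
    rwa [e]
  refine Ge.of_mul' (h := τ (MvPolynomial.aeval y s)) (m := 0) h2.1 h2.2 ?_
  rwa [add_zero]

end

section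

variable {L Ω : Type} [Field L] [Algebra ℂ L] [Field Ω] [Algebra ℂ Ω] [IsAlgClosed Ω]

/-- the homomorphism from the function field of the surface to the function field of the curve -/
theorem exists_tau {x ξ η : L} (hind : AlgebraicIndependent ℂ ![x, ξ])
    {a b : Polynomial ℂ}
    (hgen : IntermediateField.adjoin ℂ (Set.range ![x, ξ, η]) = ⊤) (σ : L →ₐ[ℂ] Ω)
    {M : Type} [Field M] [Algebra Ω M] {X S Y : M} {v : Place Ω M}
    (hX : Ge v 1 (X - algebraMap Ω M (σ x))) (hS : Ge v 1 (S - algebraMap Ω M (σ ξ)))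
    (hY : Ge v 1 (Y - algebraMap Ω M (σ η)))
    (hYS : Y ^ 2 = S ^ 3 + aeval X (a.map (algebraMap ℂ Ω)) * S +
      aeval X (b.map (algebraMap ℂ Ω))) :
    ∃ τ : L →+* M, (∀ z : ℂ, τ (algebraMap ℂ L z) = algebraMap Ω M (algebraMap ℂ Ω z)) ∧
      τ x = X ∧ τ ξ = S ∧ τ η = Y := by
  classical
  let b1 : Algebra ℂ M := ((algebraMap Ω M).comp (algebraMap ℂ Ω)).toAlgebra
  have b2 : IsScalarTower ℂ Ω M := IsScalarTower.of_algebraMap_eq fun z => rfl
  have haX : ∀ p : Polynomial ℂ, aeval X (p.map (algebraMap ℂ Ω)) = aeval X p := by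
    intro p
    rw [aeval_map_algebraMap]
  rw [haX, haX] at hYS
  obtain ⟨y, hy⟩ : ∃ y, y = ![x, ξ, η] := ⟨_, rfl⟩
  obtain ⟨y', hy'⟩ : ∃ y', y' = ![X, S, Y] := ⟨_, rfl⟩
  have h1 : ∀ P : MvPolynomial (Fin 3) ℂ, Ge v 1 (MvPolynomial.aeval y' P -
      algebraMap Ω M (σ (MvPolynomial.aeval y P))) := by
    intro P
    induction P using MvPolynomial.induction_on with
    | C c =>
      rw [MvPolynomial.algHom_C, MvPolynomial.algHom_C, AlgHom.commutes,
        ← IsScalarTower.algebraMap_apply, sub_self]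
      exact Ge.zero
    | add p q hp hq =>
      rw [map_add, map_add, map_add]
      exact ge_add_sub hp hq
    | mul_X p i hp =>
      rw [map_mul, map_mul, map_mul, MvPolynomial.aeval_X, MvPolynomial.aeval_X]
      refine ge_mul_sub hp ?_
      rw [hy, hy']
      fin_cases i
      · exact hX
      · exact hS
      · exact hY
  have h2 : ∀ P : MvPolynomial (Fin 3) ℂ, MvPolynomial.aeval y' P = 0 →
      MvPolynomial.aeval y P = 0 := by
    intro P hP
    have h3 := h1 P
    rw [hP, zero_sub] at h3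
    have h4 := not_ge_const (by simpa using h3.neg)
    simpa using h4
  obtain ⟨ι, hι⟩ : ∃ ι : MvPolynomial (Fin 2) ℂ →ₐ[ℂ] MvPolynomial (Fin 3) ℂ,
    ι = MvPolynomial.rename (Fin.castSucc) := ⟨_, rfl⟩
  have hιy : ∀ P, MvPolynomial.aeval y (ι P) = MvPolynomial.aeval ![x, ξ] P := by
    intro P
    rw [hι, MvPolynomial.aeval_rename, hy]
    congr 2
    funext i
    fin_cases i <;> rfl
  let b3 : Algebra (MvPolynomial (Fin 2) ℂ) M := (MvPolynomial.aeval ![X, S]).toAlgebra
  have hb3 : ∀ P : MvPolynomial (Fin 2) ℂ, algebraMap (MvPolynomial (Fin 2) ℂ) M P =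
      MvPolynomial.aeval ![X, S] P := fun P => rfl
  have hιy' : ∀ P, MvPolynomial.aeval y' (ι P) = algebraMap (MvPolynomial (Fin 2) ℂ) M P := by
    intro P
    rw [hb3, hι, MvPolynomial.aeval_rename, hy']
    congr 2
    funext i
    fin_cases i <;> rfl
  have hXS : algebraMap (MvPolynomial (Fin 2) ℂ) M (MvPolynomial.X 0) = X := by
    rw [hb3, MvPolynomial.aeval_X]
    rfl
  have hSS : algebraMap (MvPolynomial (Fin 2) ℂ) M (MvPolynomial.X 1) = S := by
    rw [hb3, MvPolynomial.aeval_X]
    rfl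
  have hint : ∀ P : MvPolynomial (Fin 3) ℂ,
      IsIntegral (MvPolynomial (Fin 2) ℂ) (MvPolynomial.aeval y' P) := by
    intro P
    induction P using MvPolynomial.induction_on with
    | C c =>
      have h3 : MvPolynomial.aeval y' (MvPolynomial.C c) =
          algebraMap (MvPolynomial (Fin 2) ℂ) M (MvPolynomial.C c) := by
        rw [MvPolynomial.algHom_C, hb3, MvPolynomial.algHom_C]
      rw [h3]
      exact isIntegral_algebraMap
    | add p q hp hq =>
      rw [map_add]
      exact hp.add hq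
    | mul_X p i hp =>
      rw [map_mul, MvPolynomial.aeval_X]
      refine hp.mul ?_
      rw [hy']
      fin_cases i
      · change IsIntegral _ X
        rw [← hXS]
        exact isIntegral_algebraMap
      · change IsIntegral _ S
        rw [← hSS]
        exact isIntegral_algebraMap
      · change IsIntegral _ Y
        have h3 : IsIntegral (MvPolynomial (Fin 2) ℂ) (Y ^ 2) := by
          have h4 : Y ^ 2 = algebraMap (MvPolynomial (Fin 2) ℂ) M (MvPolynomial.X 1 ^ 3 +
              aeval (MvPolynomial.X 0) a * MvPolynomial.X 1 + aeval (MvPolynomial.X 0) b) := by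
            rw [hYS, map_add, map_add, map_mul, map_pow, hSS, hb3, hb3, ← aeval_algHom_apply,
              ← aeval_algHom_apply, MvPolynomial.aeval_X]
            rfl
          rw [h4]
          exact isIntegral_algebraMap
        exact IsIntegral.of_pow (by norm_num) h3
  have h3 : ∀ P : MvPolynomial (Fin 3) ℂ, MvPolynomial.aeval y P = 0 →
      MvPolynomial.aeval y' P = 0 := by
    intro P hP
    by_contra hne
    have hdom : IsDomain (MvPolynomial (Fin 2) ℂ) := inferInstance
    obtain ⟨m, hm0, hm⟩ := (hint P).isAlgebraic.exists_nonzero_coeff_and_aeval_eq_zero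
      (mem_nonZeroDivisors_of_ne_zero hne)
    obtain ⟨Q, hQ⟩ : ∃ Q, Q = (m.map (ι : MvPolynomial (Fin 2) ℂ →+* MvPolynomial (Fin 3) ℂ)).eval P :=
      ⟨_, rfl⟩
    have h4 : MvPolynomial.aeval y' Q = 0 := by
      have e1 : MvPolynomial.aeval y' Q =
          ((MvPolynomial.aeval y' : MvPolynomial (Fin 3) ℂ →ₐ[ℂ] M) :
            MvPolynomial (Fin 3) ℂ →+* M) Q := rfl
      rw [e1, hQ, eval_map, hom_eval₂]
      have e2 : ((MvPolynomial.aeval y' : MvPolynomial (Fin 3) ℂ →ₐ[ℂ] M) :
          MvPolynomial (Fin 3) ℂ →+* M).comp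
          (ι : MvPolynomial (Fin 2) ℂ →+* MvPolynomial (Fin 3) ℂ) =
          algebraMap (MvPolynomial (Fin 2) ℂ) M := RingHom.ext hιy'
      rw [e2]
      exact hm
    have h5 := h2 Q h4
    have h6 : MvPolynomial.aeval y Q = MvPolynomial.aeval ![x, ξ] (m.coeff 0) := by
      have e1 : MvPolynomial.aeval y Q =
          ((MvPolynomial.aeval y : MvPolynomial (Fin 3) ℂ →ₐ[ℂ] L) :
            MvPolynomial (Fin 3) ℂ →+* L) Q := rfl
      rw [e1, hQ, eval_map, hom_eval₂]
      have e2 : ((MvPolynomial.aeval y : MvPolynomial (Fin 3) ℂ →ₐ[ℂ] L) :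
          MvPolynomial (Fin 3) ℂ →+* L) P = 0 := hP
      rw [e2, eval₂_at_zero]
      exact hιy _
    rw [h6] at h5
    exact hm0 ((algebraicIndependent_iff.1 hind) _ h5)
  obtain ⟨τ, hτ⟩ := exists_hom y y' (by rw [hy]; exact hgen) fun P => ⟨h3 P, h2 P⟩
  have hτi : ∀ i, τ (y i) = y' i := by
    intro i
    have := hτ (MvPolynomial.X i)
    rwa [MvPolynomial.aeval_X, MvPolynomial.aeval_X] at this
  refine ⟨τ, fun z => τ.commutes z, ?_, ?_, ?_⟩
  · have := hτi 0
    rw [hy, hy'] at this
    exact this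
  · have := hτi 1
    rw [hy, hy'] at this
    exact this
  · have := hτi 2
    rw [hy, hy'] at this
    exact this

end

end Pool.Agent.L7h90.BP
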