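import Pool.Agent.L7h90.Trans

/-!
Bloch's conjecture depends only on the Jacobian of the generic member of a pencil.
-/

set_option autoImplicit false
set_option linter.overlappingInstances false
set_option linter.unusedSectionVars false
set_option maxHeartbeats 4000000
set_option synthInstance.maxHeartbeats 400000

open FF Polynomial Pool.Agent.W603.LV Pool.Agent.W602.GT Pool.Agent.W619.PQ Pool.Agent.N162.BC
open Module IntermediateField

namespace Pool.Agent.L7h90.BP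

/-- **transfer through Jacobians** -/
theorem jac_rat {K : Type} [Field K] [Algebra ℂ K] [Algebra.EssFiniteType ℂ K]
    (hK : Algebra.trdeg ℂ K = 2) {x y : K} (hx : IsPencil x)
    (hxy : AlgebraicIndependent ℂ ![x, y]) {n : ℕ} {T : Fin n → K → K}
    (hT : ∀ j, Transfer x y (T j)) {m : Fin n → ℤ} {N : ℤ} (hN : N ≠ 0)
    (h : ∀ (ω : (Fin 2 → Derivation ℂ K K) → K) (E : Fin 2 → Derivation ℂ K K),
      FibreForm ℂ⟮x⟯ 2 ω → E 0 x = 1 → E 0 y = 0 → E 1 x = 0 → E 1 y = 1 →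
        ∑ j, (m j : K) * T j (ω E) = N * ω E) : Trivial K := by
  classical
  have hbas : IsTranscendenceBasis ℂ ![x, y] := by
    refine hxy.isTranscendenceBasis_of_lift_trdeg_le_of_finite ?_
    rw [hK]
    simp
  choose Nj hNj hz using fun j => transfer_cycle hK hbas (hT j)
  obtain ⟨Q, hQ⟩ : ∃ Q, Q = ∏ j, Nj j := ⟨_, rfl⟩
  have hQ0 : 0 < Q := by
    rw [hQ]
    exact Finset.prod_pos fun j _ => hNj j
  refine ⟨Q * N.natAbs, Nat.mul_pos hQ0 (Int.natAbs_pos.2 hN), fun Ω _ _ _ hΩ σ => ?_⟩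
  choose z hzr hzx hztr using fun j => hz j Ω hΩ σ
  obtain ⟨c, hc⟩ : ∃ c : (K →ₐ[ℂ] Ω) →₀ ℤ,
    c = (∑ j, m j • z j) - N • Finsupp.single σ (1 : ℤ) := ⟨_, rfl⟩
  obtain ⟨u, hu⟩ : ∃ u, u = σ.comp (ℂ⟮x⟯).val := ⟨_, rfl⟩
  have hcx : ∀ σ' : K →ₐ[ℂ] Ω, c σ' ≠ 0 → σ' x = σ x := by
    intro σ' hσ'
    by_contra hne
    apply hσ'
    have h1 : σ' ≠ σ := by
      rintro rfl
      exact hne rfl
    rw [hc, Finsupp.sub_apply, Finsupp.finsetSum_apply, Finsupp.smul_apply,
      Finsupp.single_eq_of_ne h1, smul_zero, sub_zero]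
    refine Finset.sum_eq_zero fun j _ => ?_
    have h2 : z j σ' = 0 := by
      by_contra h3
      exact hne (hzx j σ' h3)
    rw [Finsupp.smul_apply, h2, smul_zero]
  have hcu : ∀ σ' : K →ₐ[ℂ] Ω, c σ' ≠ 0 → σ'.comp (ℂ⟮x⟯).val = u := by
    intro σ' hσ'
    have h1 := hcx σ' hσ'
    rw [hu]
    refine IntermediateField.adjoin_algHom_ext ℂ fun a ha => ?_
    have h2 : a = x := ha
    subst h2
    exact h1
  have htr : ∀ (ω : (Fin 2 → Derivation ℂ K K) → K), FibreForm ℂ⟮x⟯ 2 ω →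
      ∀ (E : Fin 2 → Derivation ℂ K K), E 0 x = 1 → E 0 y = 0 → E 1 x = 0 → E 1 y = 1 →
      ∀ D : Fin 2 → Derivation ℂ Ω Ω, tr ![x, y] E ω D c = 0 := by
    intro ω hω E h1 h2 h3 h4 D
    have h5 := congrArg σ (h ω E hω h1 h2 h3 h4)
    rw [map_sum, map_mul, map_intCast] at h5
    rw [hc, map_sub, map_sum, map_zsmul, tr_single, pullback_WW]
    have h6 : ∀ j, tr ![x, y] E ω D (m j • z j) = WW σ D x y * σ ((m j : K) * T j (ω E)) := by
      intro j
      rw [map_zsmul, hztr, map_mul, map_intCast, zsmul_eq_mul]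
      ring
    rw [Finset.sum_congr rfl fun j _ => h6 j, ← Finset.mul_sum, h5, zsmul_eq_mul]
    push_cast
    ring
  have hcr : c ∈ Pool.Agent.N162.BC.Rat K Ω := by
    have hK' : Algebra.trdeg ℂ K = ((1 + 1 : ℕ) : Cardinal) := by rw [hK]; norm_num
    have hΩ' : Algebra.trdeg ℂ Ω = ((1 + 1 : ℕ) : Cardinal) := by rw [hΩ]; norm_num
    have h1 := part_mem (m := 1) hK' hΩ' ℂ⟮x⟯ (by rw [trdeg_adjoin_simple hx.1, Nat.cast_one]) hx.2
      (G := fun ω => FibreForm ℂ⟮x⟯ 2 ω) (V := fun ω => FibreForm ℂ⟮x⟯ 2 ω) (fun ω h => h)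
      (fun ω h => GMSpan.base h) (U := {u}) ?_ (c := c) ?_ ?_ (Finset.mem_singleton_self u)
    · have h2 : c.filter (fun σ' => σ'.comp (ℂ⟮x⟯).val = u) = c := by
        rw [Finsupp.filter_eq_self_iff]
        exact fun σ' h => hcu σ' h
      rwa [h2] at h1
    · intro φ _ _ h3 v hv ω hω
      rw [Finset.mem_singleton] at hv
      have h4 := h3 ω hω
      rw [Finset.sum_singleton] at h4
      rw [hv]
      exact h4
    · intro ω hω z' E hz' hE D
      obtain ⟨H0, H1, h0x, h0y, h1x, h1y⟩ := exists_dual hbas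
      have h2 := htr ω hω ![H0, H1] h0x h0y h1x h1y D
      rw [tr_apply] at h2
      rw [← h2]
      refine Finset.sum_congr rfl fun σ' _ => ?_
      rw [pullback_indep σ' hz' hE hbas (E' := ![H0, H1]) ?_ hω.1 D]
      intro i j
      fin_cases i <;> fin_cases j
      · exact h0x
      · exact h0y
      · exact h1x
      · exact h1y
    · intro σ' hσ'
      rw [Finset.mem_singleton]
      exact hcu σ' (Finsupp.mem_support_iff.1 hσ')
  have h1 : (Q : ℤ) • (N • Finsupp.single σ (1 : ℤ)) ∈ Pool.Agent.N162.BC.Rat K Ω := by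
    have h2 : N • Finsupp.single σ (1 : ℤ) = (∑ j, m j • z j) - c := by
      rw [hc]
      abel
    rw [h2, smul_sub, Finset.smul_sum]
    refine sub_mem (sum_mem fun j _ => ?_) (AddSubgroup.zsmul_mem _ hcr _)
    rw [smul_comm]
    refine AddSubgroup.zsmul_mem _ ?_ _
    obtain ⟨q, hq⟩ : Nj j ∣ Q := by
      rw [hQ]
      exact Finset.dvd_prod_of_mem _ (Finset.mem_univ j)
    rw [hq, natCast_zsmul, mul_comm, mul_smul]
    exact AddSubgroup.nsmul_mem _ (hzr j) _
  have h2 : (Q * N.natAbs) • Finsupp.single σ (1 : ℤ) =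
      (N.sign) • ((Q : ℤ) • (N • Finsupp.single σ (1 : ℤ))) := by
    rw [← mul_smul, ← mul_smul, ← natCast_zsmul]
    congr 1
    push_cast
    rw [← Int.sign_mul_self_eq_abs]
    ring
  rw [h2]
  exact AddSubgroup.zsmul_mem _ h1 _

end Pool.Agent.L7h90.BP
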