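import Pool.Agent.L7h90.Ell2

/-!
Regularity of the form `dx ∧ dξ / η` at a place.
-/

set_option autoImplicit false
set_option linter.overlappingInstances false
set_option linter.unusedSectionVars false
set_option maxHeartbeats 4000000
set_option synthInstance.maxHeartbeats 400000

open FF Polynomial Pool.Agent.W603.LV Pool.Agent.W602.GT Pool.Agent.W619.PQ Pool.Agent.N162.BC

namespace Pool.Agent.L7h90.BP

section

variable {K : Type} [Field K] [Algebra ℂ K] {P : Place ℂ K}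

/-- the value of `df ∧ dg` -/
def wd (D0 D1 : Derivation ℂ K K) (f g : K) : K := D0 f * D1 g - D0 g * D1 f

theorem ge_reg {f : K} : Ge P 0 f ↔ P.Reg f := Iff.rfl

theorem unit_dlog {D : Derivation ℂ K K} (hD : DerReg P D) {u : K} (hu : u ≠ 0)
    (hu0 : P.ord u = 0) : Ge P 0 (D u / u) := by
  have h1 : Ge P 0 (D u) := hD u (Or.inr hu0.ge)
  have h2 : Ge P 0 u⁻¹ := Or.inr (by rw [P.ord_inv, hu0]; simp)
  rw [div_eq_mul_inv]
  simpa using h1.mul h2

/-- `dlog f ∧ dlog g` has at most a simple pole -/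
theorem wd_ge {D0 D1 : Derivation ℂ K K} (h0 : DerReg P D0) (h1 : DerReg P D1) {f g : K}
    (hf : f ≠ 0) (hg : g ≠ 0) : Ge P (P.ord f + P.ord g - 1) (wd D0 D1 f g) := by
  obtain ⟨π, hπ0, hπ⟩ := P.surj
  obtain ⟨u, hu⟩ : ∃ u, u = f * π ^ (-(P.ord f)) := ⟨_, rfl⟩
  obtain ⟨v, hv⟩ : ∃ v, v = g * π ^ (-(P.ord g)) := ⟨_, rfl⟩
  have hu0 : u ≠ 0 := by
    rw [hu]
    exact mul_ne_zero hf (zpow_ne_zero _ hπ0)
  have hv0 : v ≠ 0 := by
    rw [hv]
    exact mul_ne_zero hg (zpow_ne_zero _ hπ0)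
  have huo : P.ord u = 0 := by
    rw [hu, P.ord_mul hf (zpow_ne_zero _ hπ0), P.ord_zpow, hπ]
    ring
  have hvo : P.ord v = 0 := by
    rw [hv, P.ord_mul hg (zpow_ne_zero _ hπ0), P.ord_zpow, hπ]
    ring
  have hfu : f = u * π ^ (P.ord f) := by
    rw [hu, mul_assoc, ← zpow_add₀ hπ0, neg_add_cancel, zpow_zero, mul_one]
  have hgv : g = v * π ^ (P.ord g) := by
    rw [hv, mul_assoc, ← zpow_add₀ hπ0, neg_add_cancel, zpow_zero, mul_one]
  have hpow : ∀ (D : Derivation ℂ K K) (n : ℤ), D (π ^ n) = n * π ^ n * (D π / π) := by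
    intro D n
    rw [Derivation.leibniz_zpow]
    rw [zsmul_eq_mul, smul_eq_mul, zpow_sub_one₀ hπ0]
    field_simp
  have hDf : ∀ D : Derivation ℂ K K, D f = f * (P.ord f * (D π / π) + D u / u) := by
    intro D
    have h : D f = D (u * π ^ (P.ord f)) := congrArg D hfu
    rw [Derivation.leibniz, hpow, smul_eq_mul, smul_eq_mul] at h
    rw [h]
    field_simp
    linear_combination (-(u * P.ord f * D π) - π * D u) * hfu
  have hDg : ∀ D : Derivation ℂ K K, D g = g * (P.ord g * (D π / π) + D v / v) := by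
    intro D
    have h : D g = D (v * π ^ (P.ord g)) := congrArg D hgv
    rw [Derivation.leibniz, hpow, smul_eq_mul, smul_eq_mul] at h
    rw [h]
    field_simp
    linear_combination (-(v * P.ord g * D π) - π * D v) * hgv
  have hπd : ∀ {D : Derivation ℂ K K}, DerReg P D → Ge P (-1) (D π / π) := by
    intro D hD
    have e1 : Ge P 0 (D π) := hD π (Or.inr (by omega))
    have e2 : Ge P (-1) π⁻¹ := Or.inr (by rw [P.ord_inv, hπ])
    rw [div_eq_mul_inv]
    have := e1.mul e2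
    rwa [zero_add] at this
  have e : wd D0 D1 f g = f * g * ((P.ord f : K) * ((D0 π / π) * (D1 v / v)) +
      (P.ord g : K) * ((D1 π / π) * (D0 u / u)) + (D0 u / u) * (D1 v / v) -
      (P.ord g : K) * ((D0 π / π) * (D1 u / u)) - (P.ord f : K) * ((D1 π / π) * (D0 v / v)) -
      (D0 v / v) * (D1 u / u)) := by
    unfold wd
    rw [hDf, hDf, hDg, hDg]
    ring
  have hint : ∀ n : ℤ, Ge P 0 (n : K) := fun n => Ge.intCast n
  have hA : ∀ (n : ℤ) {a b : K}, Ge P (-1) a → Ge P 0 b → Ge P (-1) ((n : K) * (a * b)) := by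
    intro n a b ha hb
    have := (hint n).mul (ha.mul hb)
    simpa using this
  have hB : ∀ {a b : K}, Ge P 0 a → Ge P 0 b → Ge P (-1) (a * b) := by
    intro a b ha hb
    have := ha.mul hb
    exact this.mono (by norm_num)
  have hu' : ∀ {D : Derivation ℂ K K}, DerReg P D → Ge P 0 (D u / u) :=
    fun hD => unit_dlog hD hu0 huo
  have hv' : ∀ {D : Derivation ℂ K K}, DerReg P D → Ge P 0 (D v / v) :=
    fun hD => unit_dlog hD hv0 hvo
  have h2 := (((((hA (P.ord f) (hπd h0) (hv' h1)).add (hA (P.ord g) (hπd h1) (hu' h0))).add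
    (hB (hu' h0) (hv' h1))).sub (hA (P.ord g) (hπd h0) (hu' h1))).sub
    (hA (P.ord f) (hπd h1) (hv' h0))).sub (hB (hv' h0) (hu' h1))
  rw [e]
  have h3 : Ge P (P.ord f + P.ord g) (f * g) := Or.inr (by rw [P.ord_mul hf hg])
  exact h3.mul h2

end

end Pool.Agent.L7h90.BP
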