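import Pool.Agent.L7h90.Loc

/-!
Regularity of the form `dx ∧ dξ / η` at a place.
-/

set_option autoImplicit false
set_option linter.overlappingInstances false
set_option linter.unusedSectionVars false
set_option maxHeartbeats 4000000
set_option synthInstance.maxHeartbeats 400000

open FF Polynomial Pool.Agent.W603.LV Pool.Agent.W602.GT Pool.Agent.W619.PQ Pool.Agent.N162.BC

namespace Pool.Agent.L7h90.BP

section

variable {K : Type} [Field K] [Algebra ℂ K] {P : Place ℂ K}

theorem ord_of_ge {f g : K} (hf : f ≠ 0) (hg : Ge P (P.ord f + 1) g) :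
    P.ord (f + g) = P.ord f := by
  rcases hg with rfl | hg
  · rw [add_zero]
  · by_cases hg0 : g = 0
    · rw [hg0, add_zero]
    · exact (P.ord_add_eq hf hg0 (by omega)).2

theorem two_der {η ξ A B : K} (heq : η ^ 2 = ξ ^ 3 + A * ξ + B) (D : Derivation ℂ K K) :
    2 * η * D η = (3 * ξ ^ 2 + A) * D ξ + ξ * D A + D B := by
  have h := congrArg D heq
  rw [map_add, map_add, Derivation.leibniz, Derivation.leibniz_pow, Derivation.leibniz_pow] at h
  simp only [smul_eq_mul, nsmul_eq_mul] at h
  push_cast at h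
  simp only [Nat.add_one_sub_one, pow_one] at h
  linear_combination h

theorem two_wd {D0 D1 : Derivation ℂ K K} {t η ξ A B : K} (heq : η ^ 2 = ξ ^ 3 + A * ξ + B)
    (hwA : wd D0 D1 t A = 0) (hwB : wd D0 D1 t B = 0) :
    2 * η * wd D0 D1 t η = (3 * ξ ^ 2 + A) * wd D0 D1 t ξ := by
  have e0 := two_der heq D0
  have e1 := two_der heq D1
  unfold wd at *
  linear_combination D0 t * e1 - D1 t * e0 + ξ * hwA + hwB

theorem wd_zeta {D0 D1 : Derivation ℂ K K} {t ξ A B : K}
    (hwA : wd D0 D1 t A = 0) (hwB : wd D0 D1 t B = 0) :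
    wd D0 D1 t (2 * A * ξ + 3 * B) = 2 * A * wd D0 D1 t ξ := by
  have h : ∀ D : Derivation ℂ K K, D (2 * A * ξ + 3 * B) = 2 * A * D ξ + 2 * ξ * D A + 3 * D B := by
    intro D
    have e2 : D (2 : K) = 0 := by
      have := D.map_natCast 2
      exact_mod_cast this
    have e3 : D (3 : K) = 0 := by
      have := D.map_natCast 3
      exact_mod_cast this
    rw [map_add, Derivation.leibniz, Derivation.leibniz, Derivation.leibniz, e2, e3]
    simp only [smul_eq_mul]
    ring
  unfold wd at *
  rw [h, h]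
  linear_combination 2 * ξ * hwA + 3 * hwB

theorem ord_nat [CharZero K] (n : ℕ) (hn : n ≠ 0) : P.ord (n : K) = 0 := by
  have h : P.ord (algebraMap ℂ K (n : ℂ)) = 0 := P.ord_const (by exact_mod_cast hn)
  rwa [map_natCast] at h

/-- regularity of the form at the members of the pencil -/
theorem loc_fin [CharZero K] {D0 D1 : Derivation ℂ K K} (h0 : DerReg P D0) (h1 : DerReg P D1)
    {t ξ η A B : K}
    (ht : t ≠ 0) (he : 0 < P.ord t) (hA : Ge P 0 A) (hB : Ge P 0 B) (hξ : ξ ≠ 0) (hη : η ≠ 0)
    (hf : 3 * ξ ^ 2 + A ≠ 0) (heq : η ^ 2 = ξ ^ 3 + A * ξ + B)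
    (hwA : wd D0 D1 t A = 0) (hwB : wd D0 D1 t B = 0)
    (hmin : ¬ (Ge P (4 * P.ord t) A ∧ Ge P (6 * P.ord t) B)) :
    Ge P 0 (wd D0 D1 t ξ / η) := by
  have hw := two_wd heq hwA hwB
  obtain ⟨e, hee⟩ : ∃ e, e = P.ord t := ⟨_, rfl⟩
  obtain ⟨k0, hk0⟩ : ∃ k0, k0 = P.ord ξ := ⟨_, rfl⟩
  obtain ⟨h, hh⟩ : ∃ h, h = P.ord η := ⟨_, rfl⟩
  obtain ⟨m, hm⟩ : ∃ m, m = P.ord (3 * ξ ^ 2 + A) := ⟨_, rfl⟩
  have hη2 : P.ord (η ^ 2) = 2 * h := by rw [P.ord_pow, hh]; norm_num
  have hξ2 : P.ord (ξ ^ 2) = 2 * k0 := by rw [P.ord_pow, hk0]; norm_num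
  have hξ3 : P.ord (ξ ^ 3) = 3 * k0 := by rw [P.ord_pow, hk0]; norm_num
  have g1 : Ge P (e + k0 - 1) (wd D0 D1 t ξ) := by
    rw [hee, hk0]
    exact wd_ge h0 h1 ht hξ
  have g2 : Ge P (e + h - 1) (wd D0 D1 t η) := by
    rw [hee, hh]
    exact wd_ge h0 h1 ht hη
  have hAξ : Ge P k0 (A * ξ) := by
    have := hA.mul (ge_ord P ξ)
    rwa [zero_add, ← hk0] at this
  rw [← hee] at hmin he
  by_cases c0 : k0 < 0
  · -- poles of ξ
    have h2 : P.ord (ξ ^ 3 + (A * ξ + B)) = P.ord (ξ ^ 3) := by
      apply ord_of_ge (pow_ne_zero 3 hξ)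
      rw [hξ3]
      exact (hAξ.mono (by omega)).add (hB.mono (by omega))
    rw [← add_assoc, ← heq, hη2, hξ3] at h2
    have h3 := ge_div hη g1
    rw [← hh] at h3
    exact h3.mono (by omega)
  · push Not at c0
    by_cases c1 : h ≤ e - 1 + k0
    · have h3 := ge_div hη g1
      rw [← hh] at h3
      exact h3.mono (by omega)
    · push Not at c1
      by_cases c2 : m ≤ e - 1 + h
      · have h3 := ge_div hf ((Ge.natCast (P := P) 2).mul g2)
        have h4 : wd D0 D1 t ξ / η = ((2 : ℕ) : K) * wd D0 D1 t η / (3 * ξ ^ 2 + A) := by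
          rw [div_eq_div_iff hη hf]
          push_cast
          linear_combination -hw
        rw [h4]
        exact h3.mono (by omega)
      · push Not at c2
        have hf' : Ge P m (3 * ξ ^ 2 + A) := Or.inr hm.le
        have h3o : P.ord (3 * ξ ^ 2) = 2 * k0 := by
          have h3 : P.ord ((3 : ℕ) : K) = 0 := ord_nat 3 (by norm_num)
          push_cast at h3
          rw [P.ord_mul (by norm_num) (pow_ne_zero 2 hξ), h3, hξ2, zero_add]
        have g3 : Ge P (2 * k0) (3 * ξ ^ 2) := Or.inr h3o.ge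
        have hBe : B = η ^ 2 - ξ ^ 3 - A * ξ := by linear_combination -heq
        by_cases c3 : h + e ≤ 2 * k0
        · exfalso
          apply hmin
          have gA : Ge P (h + e) A := by
            have h5 : A = (3 * ξ ^ 2 + A) - 3 * ξ ^ 2 := by ring
            rw [h5]
            exact (hf'.mono (by omega)).sub (g3.mono (by omega))
          refine ⟨gA.mono (by omega), ?_⟩
          rw [hBe]
          refine ((?_ : Ge P (6 * e) (η ^ 2)).sub ?_).sub ?_
          · exact (ge_ord P (η ^ 2)).mono (by omega)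
          · exact (ge_ord P (ξ ^ 3)).mono (by omega)
          · exact (gA.mul (ge_ord P ξ)).mono (by omega)
        · push Not at c3
          have h30 : (3 * ξ ^ 2 : K) ≠ 0 := mul_ne_zero (by norm_num) (pow_ne_zero 2 hξ)
          have hoA : P.ord A = 2 * k0 := by
            have h5 : P.ord (-(3 * ξ ^ 2) + (3 * ξ ^ 2 + A)) = P.ord (-(3 * ξ ^ 2)) := by
              apply ord_of_ge (neg_ne_zero.2 h30)
              rw [P.ord_neg, h3o]
              exact hf'.mono (by omega)
            rw [P.ord_neg, h3o, neg_add_cancel_left] at h5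
            exact h5
          have hA0 : A ≠ 0 := by
            rintro rfl
            rw [add_zero, h3o] at hm
            omega
          by_cases c4 : k0 ≤ 2 * e - 1
          · have hz := wd_zeta (ξ := ξ) hwA hwB
            have h2A : (2 * A : K) ≠ 0 := mul_ne_zero (by norm_num) hA0
            have ho2A : P.ord (2 * A) = 2 * k0 := by
              have h3 : P.ord ((2 : ℕ) : K) = 0 := ord_nat 2 (by norm_num)
              push_cast at h3
              rw [P.ord_mul (by norm_num) hA0, h3, hoA, zero_add]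
            by_cases hζ : 2 * A * ξ + 3 * B = 0
            · have h5 : wd D0 D1 t (0 : K) = 0 := by simp [wd]
              rw [hζ, h5] at hz
              rw [(mul_eq_zero.1 hz.symm).resolve_left h2A, zero_div]
              exact Ge.zero
            · have g4 : Ge P (h + e + k0) (2 * A * ξ + 3 * B) := by
                have h5 : 2 * A * ξ + 3 * B = 3 * η ^ 2 - ξ * (3 * ξ ^ 2 + A) := by
                  linear_combination -3 * heq
                rw [h5]
                have g5 : Ge P (0 + P.ord (η ^ 2)) (((3 : ℕ) : K) * η ^ 2) :=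
                  (Ge.natCast (P := P) 3).mul (ge_ord P (η ^ 2))
                push_cast at g5
                exact (g5.mono (by omega)).sub (((ge_ord P ξ).mul hf').mono (by omega))
              have h6 : h + e + k0 ≤ P.ord (2 * A * ξ + 3 * B) := g4.resolve_left hζ
              have g6 := wd_ge h0 h1 ht hζ
              rw [hz] at g6
              have g7 := ge_div hη (ge_div h2A g6)
              rw [mul_div_cancel_left₀ _ h2A, ← hee, ho2A, ← hh] at g7
              exact g7.mono (by omega)
          · exfalso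
            apply hmin
            refine ⟨Or.inr (by omega), ?_⟩
            rw [hBe]
            refine ((?_ : Ge P (6 * e) (η ^ 2)).sub ?_).sub ?_
            · exact (ge_ord P (η ^ 2)).mono (by omega)
            · exact (ge_ord P (ξ ^ 3)).mono (by omega)
            · exact ((ge_ord P A).mul (ge_ord P ξ)).mono (by omega)

end

end Pool.Agent.L7h90.BP
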