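import Pool.Agent.L7h90.SumOver
import Pool.Agent.N162.PR.Lift

/-!
The preimage of a family of zero-cycles which is rationally equivalent to zero, under a generically
finite map.
-/

set_option autoImplicit false
set_option linter.overlappingInstances false
set_option linter.unusedSectionVars false
set_option linter.unusedFintypeInType false
set_option linter.unusedDecidableInType false
set_option maxHeartbeats 4000000
set_option synthInstance.maxHeartbeats 400000

open FF Polynomial Pool.Agent.W603.LV Pool.Agent.W602.GT Pool.Agent.W619.PQ Pool.Agent.N162.BC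
open Module

namespace Pool.Agent.L7h90.BP

section

variable {K Ω M : Type} [Field K] [Algebra ℂ K] [Field Ω] [Algebra ℂ Ω] [Field M] [Algebra Ω M]

theorem centred_ord {τ : K →+* M} {v : Place Ω M} {σ : K →ₐ[ℂ] Ω} (h : CentredAt τ v σ) {e : K}
    (he : e ≠ 0) : v.ord (τ e) = 0 := by
  rw [centred_iff] at h
  have h1 := h e
  have h2 : σ e ≠ 0 := by simpa using he
  have h3 : algebraMap Ω M (σ e) ≠ 0 := by simpa using h2
  rcases h1 with h1 | h1
  · rw [sub_eq_zero.1 h1]
    exact v.ord_const h2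
  · by_cases h0 : τ e - algebraMap Ω M (σ e) = 0
    · rw [sub_eq_zero.1 h0]
      exact v.ord_const h2
    have h5 := v.ord_add_eq h3 h0 (by rw [v.ord_const h2]; omega)
    rw [add_sub_cancel, v.ord_const h2] at h5
    exact h5.2

theorem centred_reg {τ : K →+* M} {v : Place Ω M} {σ : K →ₐ[ℂ] Ω} (h : CentredAt τ v σ) (e : K) :
    v.Reg (τ e) := by
  by_cases he : e = 0
  · rw [he, map_zero]
    exact v.reg_zero
  · exact Or.inr (centred_ord h he).ge

/-- the generators of `Rat` -/
theorem exists_gen [CharZero Ω] [IsFF Ω M] (τ : K →+* M)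
    (hτ : ∀ z : ℂ, τ (algebraMap ℂ K z) = algebraMap Ω M (algebraMap ℂ Ω z)) {f : M} (hf : f ≠ 0) :
    ∃ c : (K →ₐ[ℂ] Ω) →₀ ℤ, c ∈ Rat K Ω ∧
      ∀ σ : K →ₐ[ℂ] Ω, c σ = ∑ᶠ v ∈ {v : Place Ω M | CentredAt τ v σ}, v.ord f := by
  classical
  have hfin : (Function.support fun v : Place Ω M => v.ord f).Finite := finite_support (k := Ω) f
  obtain ⟨F, hF⟩ : ∃ F : (K →ₐ[ℂ] Ω) → ℤ, F = fun σ =>
    ∑ᶠ v ∈ {v : Place Ω M | CentredAt τ v σ}, v.ord f := ⟨_, rfl⟩
  have hFs : (Function.support F).Finite := by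
    refine Set.Finite.subset (Set.Finite.biUnion hfin (t := fun v => {σ | CentredAt τ v σ})
      fun v _ => ?_) ?_
    · refine Set.Subsingleton.finite ?_
      intro σ h1 σ' h2
      exact centre_unique h1 h2
    · intro σ hσ
      rw [Function.mem_support, hF] at hσ
      obtain ⟨v, hv, hv'⟩ := exists_ne_zero_of_finsum_mem_ne_zero hσ
      exact Set.mem_biUnion (x := v) hv' hv
  refine ⟨Finsupp.ofSupportFinite F hFs, AddSubgroup.subset_closure
    ⟨M, inferInstance, inferInstance, inferInstance, τ, f, hτ, hf, fun σ => ?_⟩, fun σ => ?_⟩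
  · rw [Finsupp.ofSupportFinite_coe, hF]
  · rw [Finsupp.ofSupportFinite_coe, hF]

end

section

variable {K K' Ω M : Type} [Field K] [Algebra ℂ K] [Field K'] [Algebra ℂ K'] [Algebra K K']
  [IsScalarTower ℂ K K'] [Field Ω] [Algebra ℂ Ω] [Field M] [Algebra Ω M]

/-- a place is centred at a point in at most one way -/
theorem centre_inj {ρ ρ' : K' →+* M} (h : ρ.comp (algebraMap K K') = ρ'.comp (algebraMap K K'))
    {α : K'} (hsep : (minpoly K α).Separable) {w : Place Ω M}
    {σ : K' →ₐ[ℂ] Ω} (h1 : CentredAt ρ w σ) (h2 : CentredAt ρ' w σ) : ρ α = ρ' α := by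
  by_contra hne
  obtain ⟨g, hg⟩ : ∃ g, g = minpoly K α := ⟨_, rfl⟩
  rw [← hg] at hsep
  let φ : K →+* w.O := (ρ.comp (algebraMap K K')).codRestrict w.O fun a => centred_reg h1 _
  have hφ : (w.O.subtype : w.O →+* M).comp φ = ρ.comp (algebraMap K K') := rfl
  let β : w.O := ⟨ρ α, centred_reg h1 α⟩
  let β' : w.O := ⟨ρ' α, centred_reg h2 α⟩
  have hev : ∀ p : K[X], (((p.map φ).eval β : w.O) : M) = ρ (aeval α p) := by
    intro p
    have e1 : (((p.map φ).eval β : w.O) : M) = w.O.subtype ((p.map φ).eval β) := rfl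
    rw [e1, eval_map, hom_eval₂, hφ, aeval_def, hom_eval₂]
    rfl
  have hev' : ∀ p : K[X], (((p.map φ).eval β' : w.O) : M) = ρ' (aeval α p) := by
    intro p
    have e1 : (((p.map φ).eval β' : w.O) : M) = w.O.subtype ((p.map φ).eval β') := rfl
    rw [e1, eval_map, hom_eval₂, hφ, h, aeval_def, hom_eval₂]
    rfl
  have hg0 : aeval α g = 0 := by rw [hg]; exact minpoly.aeval K α
  have hg1 : aeval α (derivative g) ≠ 0 := by
    intro h0
    obtain ⟨a, b, hab⟩ := hsep
    have h3 := congrArg (aeval α) hab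
    rw [map_add, map_mul, map_mul, hg0, h0, mul_zero, mul_zero, add_zero, map_one] at h3
    exact zero_ne_one h3
  obtain ⟨k, hk⟩ := (g.map φ).binomExpansion β (β' - β)
  rw [add_sub_cancel] at hk
  have hk' := congrArg (Subtype.val : w.O → M) hk
  rw [hev', hg0, map_zero] at hk'
  have e2 : ((((g.map φ).eval β + (derivative (g.map φ)).eval β * (β' - β) +
      k * (β' - β) ^ 2 : w.O)) : M) = ρ (aeval α g) + ρ (aeval α (derivative g)) * (ρ' α - ρ α) +
      (k : M) * (ρ' α - ρ α) ^ 2 := by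
    rw [← hev, ← hev, derivative_map]
    rfl
  rw [e2, hg0, map_zero, zero_add] at hk'
  have hy : ρ' α - ρ α ≠ 0 := sub_ne_zero.2 fun h => hne h.symm
  have h4 : ρ (aeval α (derivative g)) + (k : M) * (ρ' α - ρ α) = 0 := by
    have h5 : (ρ' α - ρ α) * (ρ (aeval α (derivative g)) + (k : M) * (ρ' α - ρ α)) = 0 := by
      rw [hk']; ring
    exact (mul_eq_zero.1 h5).resolve_left hy
  have h5 : ρ (aeval α (derivative g)) = -((k : M) * (ρ' α - ρ α)) := eq_neg_of_add_eq_zero_left h4
  have h6 := centred_ord h1 hg1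
  have h7 : ρ (aeval α (derivative g)) ≠ 0 := by simpa using hg1
  rw [centred_iff] at h1 h2
  have h8 : Ge w 1 (ρ' α - ρ α) := by
    have := (h2 α).sub (h1 α)
    rwa [sub_sub_sub_cancel_right] at this
  have h9 : Ge w 1 (ρ (aeval α (derivative g))) := by
    rw [h5]
    have h10 : Ge w 0 (k : M) := k.2
    have := (h10.mul h8).neg
    rwa [zero_add] at this
  have h10 := h9.resolve_left h7
  omega

end

section

variable {K K' Ω : Type} [Field K] [Algebra ℂ K] [Field K'] [Algebra ℂ K'] [Algebra K K']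
  [IsScalarTower ℂ K K'] [FiniteDimensional K K'] [Field Ω] [Algebra ℂ Ω] [IsAlgClosed Ω]

variable (K') in
/-- the points over a point -/
noncomputable def fib (σ : K →ₐ[ℂ] Ω) : Finset (K' →ₐ[ℂ] Ω) :=
  (N162.PR.exists_fib (K' := K') σ).choose

theorem mem_fib {σ : K →ₐ[ℂ] Ω} {σ' : K' →ₐ[ℂ] Ω} : σ' ∈ fib K' σ ↔ restr K Ω σ' = σ :=
  (N162.PR.exists_fib (K' := K') σ).choose_spec.1 σ'

theorem card_fib (σ : K →ₐ[ℂ] Ω) : (fib K' σ).card = finrank K K' :=
  (N162.PR.exists_fib (K' := K') σ).choose_spec.2.1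

theorem sum_fib (σ : K →ₐ[ℂ] Ω) (x : K') :
    ∑ σ' ∈ fib K' σ, σ' x = σ (Algebra.trace K K' x) :=
  (N162.PR.exists_fib (K' := K') σ).choose_spec.2.2 x

variable (K K' Ω) in
/-- the preimage of a zero-cycle -/
noncomputable def pull : ((K →ₐ[ℂ] Ω) →₀ ℤ) →+ ((K' →ₐ[ℂ] Ω) →₀ ℤ) :=
  Finsupp.liftAddHom fun σ => ∑ σ' ∈ fib K' σ, Finsupp.singleAddHom σ'

theorem pull_single (σ : K →ₐ[ℂ] Ω) (a : ℤ) :
    pull K K' Ω (Finsupp.single σ a) = ∑ σ' ∈ fib K' σ, Finsupp.single σ' a := by
  unfold pull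
  rw [Finsupp.liftAddHom_apply_single, AddMonoidHom.finsetSum_apply]
  rfl

theorem pull_apply (c : (K →ₐ[ℂ] Ω) →₀ ℤ) (σ' : K' →ₐ[ℂ] Ω) :
    pull K K' Ω c σ' = c (restr K Ω σ') := by
  classical
  induction c using Finsupp.induction_linear with
  | zero => rw [map_zero]; rfl
  | add a b ha hb => rw [map_add, Finsupp.add_apply, ha, hb, Finsupp.add_apply]
  | single σ a =>
    rw [pull_single, Finsupp.finsetSum_apply, Finsupp.single_apply]
    simp only [Finsupp.single_apply]
    rw [Finset.sum_ite_eq']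
    exact if_congr (mem_fib.trans eq_comm) rfl rfl

theorem over_unique {M M' : Type} [Field M] [Algebra Ω M] [Field M'] [Algebra Ω M'] [Algebra M M']
    [IsScalarTower Ω M M'] {w : Place Ω M'} {v v' : Place Ω M} {e e' : ℕ} (h : Over w v e)
    (h' : Over w v' e') : v = v' := by
  refine Place.eq_of_le v v' fun f hf0 hf => ?_
  have h1 := (h'.reg (f := f)).1 (h.reg.2 (Or.inr hf))
  exact h1.resolve_left hf0

/-- the preimage of a generator -/
theorem pull_gen_aux {M M' : Type} [Field M] [Algebra Ω M] [IsFF Ω M] [Field M'] [Algebra Ω M']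
    [Algebra M M'] [IsScalarTower Ω M M'] [FiniteDimensional M M'] [IsFF Ω M'] (τ : K →+* M)
    (hτ : ∀ z : ℂ, τ (algebraMap ℂ K z) = algebraMap Ω M (algebraMap ℂ Ω z)) {f : M} (hf0 : f ≠ 0)
    {c : (K →ₐ[ℂ] Ω) →₀ ℤ}
    (hc : ∀ σ, c σ = ∑ᶠ v ∈ {v : Place Ω M | CentredAt τ v σ}, v.ord f) (pb : PowerBasis K K')
    (hspl : ((minpoly K pb.gen).map ((algebraMap M M').comp τ)).Splits) :
    (finrank M M') • pull K K' Ω c ∈ Rat K' Ω := by
  classical
  have hcK : CharZero K := charZero_of_injective_algebraMap (algebraMap ℂ K).injective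
  have hcΩ : CharZero Ω := charZero_of_injective_algebraMap (algebraMap ℂ Ω).injective
  have hcM : CharZero M := charZero_of_injective_algebraMap (algebraMap Ω M).injective
  have hint : IsIntegral K pb.gen := Algebra.IsIntegral.isIntegral _
  have hsep : (minpoly K pb.gen).Separable := Algebra.IsSeparable.isSeparable K pb.gen
  let a1 : Algebra K M := τ.toAlgebra
  let a2 : Algebra K M' := ((algebraMap M M').comp τ).toAlgebra
  have i3 : IsScalarTower K M M' := IsScalarTower.of_algebraMap_eq fun _ => rfl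
  have hKM' : ∀ a : K, algebraMap K M' a = algebraMap M M' (τ a) := fun _ => rfl
  have hcard : Fintype.card (K' →ₐ[K] M') = finrank K K' := by
    have h1 := AlgHom.card_of_powerBasis pb hsep hspl
    rw [← pb.finrank] at h1
    rw [← h1]
    congr!
  have hf0' : algebraMap M M' f ≠ 0 := by simpa using hf0
  have hρℂ : ∀ (ρ : K' →ₐ[K] M') (z : ℂ), (ρ : K' →+* M') (algebraMap ℂ K' z) =
      algebraMap Ω M' (algebraMap ℂ Ω z) := by
    intro ρ z
    rw [IsScalarTower.algebraMap_apply ℂ K K']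
    change ρ (algebraMap K K' (algebraMap ℂ K z)) = _
    rw [ρ.commutes, hKM', hτ, ← IsScalarTower.algebraMap_apply]
  have hρK : ∀ (ρ : K' →ₐ[K] M'), (ρ : K' →+* M').comp (algebraMap K K') =
      (algebraMap M M').comp τ := by
    intro ρ
    ext a
    exact ρ.commutes a
  -- the places over a centred place
  have hover : ∀ (w : Place Ω M') (v : Place Ω M) (e : ℕ) (σ : K →ₐ[ℂ] Ω), Over w v e →
      CentredAt τ v σ → CentredAt ((algebraMap M M').comp τ) w σ := by
    intro w v e σ hwv hv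
    rw [centred_iff] at hv ⊢
    intro a
    have h1 : ((algebraMap M M').comp τ) a - algebraMap Ω M' (σ a) =
        algebraMap M M' (τ a - algebraMap Ω M (σ a)) := by
      rw [map_sub, ← IsScalarTower.algebraMap_apply]
      rfl
    rw [h1]
    rcases hv a with h2 | h2
    · left
      rw [h2, map_zero]
    · right
      rw [hwv.2]
      have := hwv.1
      nlinarith
  have hunder : ∀ (w : Place Ω M') (v : Place Ω M) (e : ℕ) (σ : K →ₐ[ℂ] Ω), Over w v e →
      CentredAt ((algebraMap M M').comp τ) w σ → CentredAt τ v σ := by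
    intro w v e σ hwv hw
    rw [centred_iff] at hw ⊢
    intro a
    have h1 : ((algebraMap M M').comp τ) a - algebraMap Ω M' (σ a) =
        algebraMap M M' (τ a - algebraMap Ω M (σ a)) := by
      rw [map_sub, ← IsScalarTower.algebraMap_apply]
      rfl
    have h2 := hw a
    rw [h1] at h2
    rcases h2 with h2 | h2
    · left
      exact (map_eq_zero _).1 h2
    · right
      rw [hwv.2] at h2
      have := hwv.1
      by_contra h3
      push Not at h3
      have h4 : v.ord (τ a - algebraMap Ω M (σ a)) ≤ 0 := by omega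
      nlinarith
  -- exactly one embedding for each centre
  have hone : ∀ (w : Place Ω M') (v : Place Ω M) (e : ℕ) (σ' : K' →ₐ[ℂ] Ω), Over w v e →
      CentredAt τ v (restr K Ω σ') → ∃! ρ : K' →ₐ[K] M', CentredAt (ρ : K' →+* M') w σ' := by
    intro w v e σ' hwv hv
    have h1 := hover w v e _ hwv hv
    have h2 : ∀ ρ : K' →ₐ[K] M', ∃ σ'' : K' →ₐ[ℂ] Ω, restr K Ω σ'' = restr K Ω σ' ∧
        CentredAt (ρ : K' →+* M') w σ'' := by
      intro ρ
      refine lift_centre (K := K) (hρℂ ρ) ?_
      rw [hρK]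
      exact h1
    choose Φ hΦ1 hΦ2 using h2
    have hinj : Function.Injective Φ := by
      intro ρ ρ' h
      refine pb.algHom_ext ?_
      have h3 := hΦ2 ρ'
      rw [← h] at h3
      exact centre_inj (K := K) (ρ := (ρ : K' →+* M')) (ρ' := (ρ' : K' →+* M'))
        ((hρK ρ).trans (hρK ρ').symm) hsep (hΦ2 ρ) h3
    have himg : (Finset.univ : Finset (K' →ₐ[K] M')).image Φ = fib K' (restr K Ω σ') := by
      refine Finset.eq_of_subset_of_card_le ?_ ?_
      · intro σ'' h
        obtain ⟨ρ, -, rfl⟩ := Finset.mem_image.1 h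
        exact mem_fib.2 (hΦ1 ρ)
      · rw [card_fib, Finset.card_image_of_injective _ hinj, Finset.card_univ, hcard]
    have h3 : σ' ∈ fib K' (restr K Ω σ') := mem_fib.2 rfl
    rw [← himg] at h3
    obtain ⟨ρ, -, hρ⟩ := Finset.mem_image.1 h3
    refine ⟨ρ, ?_, fun ρ' hρ' => ?_⟩
    · have := hΦ2 ρ
      rwa [hρ] at this
    · apply hinj
      rw [hρ]
      exact centre_unique (hΦ2 ρ') hρ'
  -- the generators
  have hgen : ∀ ρ : K' →ₐ[K] M', ∃ c' : (K' →ₐ[ℂ] Ω) →₀ ℤ, c' ∈ Rat K' Ω ∧
      ∀ σ' : K' →ₐ[ℂ] Ω, c' σ' = ∑ᶠ w ∈ {w : Place Ω M' | CentredAt (ρ : K' →+* M') w σ'},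
        w.ord (algebraMap M M' f) := fun ρ => exists_gen (ρ : K' →+* M') (hρℂ ρ) hf0'
  choose c' hc'1 hc'2 using hgen
  have hsum : (finrank M M') • pull K K' Ω c = ∑ ρ : K' →ₐ[K] M', c' ρ := by
    ext σ'
    rw [Finsupp.smul_apply, pull_apply, Finsupp.finsetSum_apply, hc]
    simp only [hc'2]
    obtain ⟨σ, hσ⟩ : ∃ σ, σ = restr K Ω σ' := ⟨_, rfl⟩
    rw [← hσ]
    have hfinM : (Function.support fun v : Place Ω M => v.ord f).Finite :=
      finite_support (k := Ω) f
    have hfinM' : (Function.support fun w : Place Ω M' => w.ord (algebraMap M M' f)).Finite :=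
      finite_support (k := Ω) _
    obtain ⟨W, hW⟩ : ∃ W, W = hfinM'.toFinset := ⟨_, rfl⟩
    have hWm : ∀ w, w ∈ W ↔ w.ord (algebraMap M M' f) ≠ 0 := by
      intro w
      rw [hW, Set.Finite.mem_toFinset]
      rfl
    have e1 : ∀ ρ : K' →ₐ[K] M', ∑ᶠ w ∈ {w : Place Ω M' | CentredAt (ρ : K' →+* M') w σ'},
        w.ord (algebraMap M M' f) = ∑ w ∈ W, if CentredAt (ρ : K' →+* M') w σ' then
          w.ord (algebraMap M M' f) else 0 := by
      intro ρ
      rw [finsum_mem_eq_sum_filter _ _ hfinM', ← hW, Finset.sum_filter]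
      rfl
    rw [Finset.sum_congr rfl fun ρ _ => e1 ρ, Finset.sum_comm]
    -- the places over the centred places
    have e2 : ∀ w ∈ W, ∑ ρ : K' →ₐ[K] M', (if CentredAt (ρ : K' →+* M') w σ' then
        w.ord (algebraMap M M' f) else 0) = if (∃ v e, Over w v e ∧ CentredAt τ v σ) then
          w.ord (algebraMap M M' f) else 0 := by
      intro w hw
      split_ifs with h
      · obtain ⟨v, e, hwv, hv⟩ := h
        rw [hσ] at hv
        obtain ⟨ρ, hρ, hρ'⟩ := hone w v e σ' hwv hv
        rw [Finset.sum_eq_single ρ]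
        · rw [if_pos hρ]
        · intro ρ' _ hne
          rw [if_neg fun h => hne (hρ' ρ' h)]
        · intro h
          exact absurd (Finset.mem_univ _) h
      · refine Finset.sum_eq_zero fun ρ _ => ?_
        rw [if_neg]
        intro hρ
        apply h
        obtain ⟨e, v, hwv⟩ := exists_over (K := M) w ⟨f, (hWm w).1 hw⟩
        refine ⟨v, e, hwv, hunder w v e σ hwv ?_⟩
        rw [← hρK ρ, hσ]
        intro a
        exact hρ (algebraMap K K' a)
    rw [Finset.sum_congr rfl e2, ← Finset.sum_filter]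
    choose S hS1 hS2 using fun v : Place Ω M => sum_over (M' := M') v
    rw [finsum_mem_eq_sum_filter _ _ hfinM, nsmul_eq_mul, Finset.mul_sum]
    rw [Finset.sum_congr rfl fun v _ => (hS2 v f).symm]
    rw [← Finset.sum_biUnion]
    · symm
      refine Finset.sum_subset ?_ ?_
      · intro w hw
        rw [Finset.mem_filter, hWm] at hw
        obtain ⟨hw1, v, e, hwv, hv⟩ := hw
        rw [Finset.mem_biUnion]
        refine ⟨v, ?_, (hS1 v w).2 ⟨e, hwv⟩⟩
        rw [Finset.mem_filter, Set.Finite.mem_toFinset]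
        refine ⟨?_, hv⟩
        rw [Function.mem_support]
        intro h0
        rw [hwv.2, h0, mul_zero] at hw1
        exact hw1 rfl
      · intro w hw hn
        rw [Finset.mem_biUnion] at hw
        obtain ⟨v, hv, hw⟩ := hw
        obtain ⟨e, hwv⟩ := (hS1 v w).1 hw
        rw [Finset.mem_filter] at hv
        by_contra h0
        apply hn
        rw [Finset.mem_filter, hWm]
        exact ⟨h0, v, e, hwv, hv.2⟩
    · intro v _ v' _ hne
      rw [Function.onFun, Finset.disjoint_left]
      intro w h1 h2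
      obtain ⟨e, he⟩ := (hS1 v w).1 h1
      obtain ⟨e', he'⟩ := (hS1 v' w).1 h2
      exact hne (over_unique he he')
  rw [hsum]
  exact AddSubgroup.sum_mem _ fun ρ _ => hc'1 ρ

/-- the preimage of a generator -/
theorem pull_gen {M : Type} [Field M] [Algebra Ω M] [IsFF Ω M] (τ : K →+* M)
    (hτ : ∀ z : ℂ, τ (algebraMap ℂ K z) = algebraMap Ω M (algebraMap ℂ Ω z)) {f : M} (hf0 : f ≠ 0)
    {c : (K →ₐ[ℂ] Ω) →₀ ℤ}
    (hc : ∀ σ, c σ = ∑ᶠ v ∈ {v : Place Ω M | CentredAt τ v σ}, v.ord f) :
    (finrank K K').factorial • pull K K' Ω c ∈ Rat K' Ω := by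
  classical
  have hcK : CharZero K := charZero_of_injective_algebraMap (algebraMap ℂ K).injective
  have hcΩ : CharZero Ω := charZero_of_injective_algebraMap (algebraMap ℂ Ω).injective
  have hcM : CharZero M := charZero_of_injective_algebraMap (algebraMap Ω M).injective
  let pb := Field.powerBasisOfFiniteOfSeparable K K'
  obtain ⟨g, hg⟩ : ∃ g, g = minpoly K pb.gen := ⟨_, rfl⟩
  have hdeg : g.natDegree = finrank K K' := by
    rw [hg, pb.natDegree_minpoly, pb.finrank]
  have hsep : g.Separable := by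
    rw [hg]
    exact Algebra.IsSeparable.isSeparable K pb.gen
  obtain ⟨G, hG⟩ : ∃ G, G = g.map τ := ⟨_, rfl⟩
  have hGsep : G.Separable := by
    rw [hG]
    exact hsep.map
  have hGdeg : G.natDegree = finrank K K' := by
    rw [hG, natDegree_map, hdeg]
  have hFF : IsFF Ω G.SplittingField := by
    obtain ⟨t, ht⟩ := IsFF.exists_transcendental (k := Ω) (K := M)
    have ht' : Transcendental Ω (algebraMap M G.SplittingField t) := by
      intro h
      exact ht ((isAlgebraic_algebraMap_iff (algebraMap M G.SplittingField).injective).1 h)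
    constructor
    · have := IsFF.ess (k := Ω) (K := M)
      exact Algebra.EssFiniteType.comp Ω M G.SplittingField
    · have h1 := (IsFF.basis ht).algebraMap_comp (A := G.SplittingField)
      rw [← h1.cardinalMk_eq_trdeg]
      simp
  have hspl : ((minpoly K pb.gen).map ((algebraMap M G.SplittingField).comp τ)).Splits := by
    have h1 := SplittingField.splits G
    rw [← hg, ← Polynomial.map_map, ← hG]
    exact h1
  have hdvd : finrank M G.SplittingField ∣ (finrank K K').factorial := by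
    rw [← Gal.card_of_separable hGsep]
    have i1 : Fact ((G.map (algebraMap M G.SplittingField)).Splits) := ⟨SplittingField.splits G⟩
    have h1 := Subgroup.card_dvd_of_injective _ (Gal.galActionHom_injective G G.SplittingField)
    have h2 : Nat.card (Equiv.Perm (G.rootSet G.SplittingField)) = (finrank K K').factorial := by
      rw [Nat.card_perm, Nat.card_eq_fintype_card, card_rootSet_eq_natDegree hGsep i1.out, hGdeg]
    rwa [h2] at h1
  obtain ⟨m, hm⟩ := hdvd
  rw [hm, mul_comm, mul_smul]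
  exact AddSubgroup.nsmul_mem _ (pull_gen_aux τ hτ hf0 hc pb hspl) m

/-- the preimage of a family of zero-cycles which is rationally equivalent to zero -/
theorem rat_pull {c : (K →ₐ[ℂ] Ω) →₀ ℤ} (hc : c ∈ Rat K Ω) :
    (finrank K K').factorial • pull K K' Ω c ∈ Rat K' Ω := by
  have hle : Rat K Ω ≤ (Rat K' Ω).comap
      ((nsmulAddMonoidHom (finrank K K').factorial).comp (pull K K' Ω)) := by
    conv_lhs => unfold Pool.Agent.N162.BC.Rat
    rw [AddSubgroup.closure_le]
    rintro g ⟨M, hM, a1, hFF, τ, f, hτ, hf0, hg⟩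
    exact pull_gen τ hτ hf0 hg
  exact hle hc

end

end Pool.Agent.L7h90.BP
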