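import Pool.Agent.L7h90.Conv

/-!
Finite groups of automorphisms: the relative case.
-/

set_option autoImplicit false
set_option linter.overlappingInstances false
set_option linter.unusedSectionVars false
set_option maxHeartbeats 4000000
set_option synthInstance.maxHeartbeats 400000

open FF Polynomial Pool.Agent.W603.LV Pool.Agent.W602.GT Pool.Agent.W619.PQ Pool.Agent.N162.BC
open Module IntermediateField

namespace Pool.Agent.L7h90.BP

/-- Every finite-dimensional representation of `G` over `ℚ` with a nonzero vector which is fixed by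
the subgroup `H₀` has a nonzero vector which is fixed by one of the subgroups `H i`. -/
def DetectsFixed (G : Type) [Group G] (H₀ : Subgroup G) {ι : Type} (H : ι → Subgroup G) : Prop :=
  ∀ (V : Type) [AddCommGroup V] [Module ℚ V] [FiniteDimensional ℚ V] (ρ : G →* Module.End ℚ V),
    (∃ v : V, v ≠ 0 ∧ ∀ h ∈ H₀, ρ h v = v) → ∃ (i : ι) (v : V), v ≠ 0 ∧ ∀ h ∈ H i, ρ h v = v

section

variable {K : Type} [Field K] [Algebra ℂ K] {G : Type} [Group G] [Finite G]
  (act : G →* (K ≃ₐ[ℂ] K))

theorem push_pull {L : IntermediateField ℂ K} [FiniteDimensional L K] {Ω : Type} [Field Ω]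
    [Algebra ℂ Ω] [IsAlgClosed Ω] (σ : L →ₐ[ℂ] Ω) :
    (pull L K Ω (Finsupp.single σ (1 : ℤ))).mapDomain (restr L Ω) =
      finrank L K • Finsupp.single σ (1 : ℤ) := by
  have h1 : ∀ c : (K →ₐ[ℂ] Ω) →₀ ℤ, c.mapDomain (restr L Ω) =
      Finsupp.mapDomain.addMonoidHom (restr L Ω) c := fun c => rfl
  rw [pull_single, h1, map_sum]
  have h2 : ∀ σ' ∈ fib K σ, Finsupp.mapDomain.addMonoidHom (restr L Ω)
      (Finsupp.single σ' (1 : ℤ)) = Finsupp.single σ (1 : ℤ) := by
    intro σ' hσ'
    rw [mem_fib] at hσ'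
    rw [← h1, Finsupp.mapDomain_single, hσ']
  rw [Finset.sum_congr rfl h2, Finset.sum_const, card_fib]

/-- **Averaging over a finite group, relative case.** -/
theorem group_rel [Algebra.EssFiniteType ℂ K] (hact : Function.Injective act) (H₀ : Subgroup G)
    {ι : Type} (H : ι → Subgroup G) (hH : DetectsFixed G H₀ H)
    (hs : ∀ i, Trivial (fixedField ((H i).map act))) : Trivial (fixedField (H₀.map act)) := by
  classical
  have : Fintype G := Fintype.ofFinite G
  have hkey : (fun g : G => if g ∈ H₀ then (1 : ℚ) else 0) ∈ goodSub act := by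
    by_contra hne
    let ρ : G →* Module.End ℚ ((G → ℚ) ⧸ goodSub act) :=
      { toFun := fun g0 => (goodSub act).mapQ (goodSub act)
          (LinearMap.funLeft ℚ ℚ (fun k => g0⁻¹ * k)) (fun θ h => good_left act g0 h)
        map_one' := by
          refine LinearMap.ext fun v => ?_
          obtain ⟨θ, rfl⟩ := Submodule.Quotient.mk_surjective _ v
          change (Submodule.Quotient.mk (fun k => θ ((1 : G)⁻¹ * k)) : (G → ℚ) ⧸ goodSub act) =
            Submodule.Quotient.mk θ
          congr 1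
          funext k
          rw [inv_one, one_mul]
        map_mul' := by
          intro g g'
          refine LinearMap.ext fun v => ?_
          obtain ⟨θ, rfl⟩ := Submodule.Quotient.mk_surjective _ v
          change (Submodule.Quotient.mk (fun k => θ ((g * g')⁻¹ * k)) : (G → ℚ) ⧸ goodSub act) =
            Submodule.Quotient.mk (fun k => θ (g'⁻¹ * (g⁻¹ * k)))
          congr 1
          funext k
          rw [mul_inv_rev, mul_assoc] }
    obtain ⟨i, v, hv, hfix⟩ := hH _ ρ
      ⟨Submodule.Quotient.mk (fun g : G => if g ∈ H₀ then (1 : ℚ) else 0), fun h0 =>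
        hne ((Submodule.Quotient.mk_eq_zero _).1 h0), fun h hh => by
          change (Submodule.Quotient.mk (fun k : G => if h⁻¹ * k ∈ H₀ then (1 : ℚ) else 0) :
            (G → ℚ) ⧸ goodSub act) = Submodule.Quotient.mk _
          congr 1
          funext k
          rw [Subgroup.mul_mem_cancel_left _ (inv_mem hh)]⟩
    obtain ⟨θ, rfl⟩ := Submodule.Quotient.mk_surjective _ v
    have h1 : ∀ h : H i, (fun k => θ ((h : G)⁻¹ * k)) - θ ∈ goodSub act := by
      intro h
      have h2 := hfix h h.2
      rw [← Submodule.Quotient.eq]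
      exact h2
    have h2 : ∑ h : H i, ((fun k => θ ((h : G)⁻¹ * k)) - θ) ∈ goodSub act :=
      Submodule.sum_mem _ fun h _ => h1 h
    have h3 := good_norm act hact (H i) (hs i) θ
    have h4 : ∑ h : H i, ((fun k => θ ((h : G)⁻¹ * k)) - θ) =
        (fun k => ∑ h : H i, θ ((h : G)⁻¹ * k)) - (Fintype.card (H i) : ℚ) • θ := by
      funext k
      simp only [Finset.sum_apply, Pi.sub_apply, Finset.sum_sub_distrib, Finset.sum_const,
        Finset.card_univ, Pi.smul_apply, smul_eq_mul, nsmul_eq_mul]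
    rw [h4] at h2
    have h5 := Submodule.sub_mem _ h3 h2
    rw [sub_sub_cancel] at h5
    have h6 : (Fintype.card (H i) : ℚ) ≠ 0 := by
      have : 0 < Fintype.card (H i) := Fintype.card_pos
      positivity
    have h7 := (Submodule.smul_mem_iff _ h6).1 h5
    exact hv ((Submodule.Quotient.mk_eq_zero _).2 h7)
  obtain ⟨N, hN, t, ht, h2⟩ := hkey
  obtain ⟨L, hL⟩ : ∃ L, L = fixedField (H₀.map act) := ⟨_, rfl⟩
  obtain ⟨hfd, hcard⟩ := fixed_finite act hact H₀
  rw [← hL] at hfd hcard ⊢
  have hpos : 0 < finrank L K := finrank_pos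
  refine ⟨N * finrank L K, Nat.mul_pos hN hpos, fun Ω _ _ _ hΩ σ₀ => ?_⟩
  obtain ⟨σ, hσ⟩ := restr_surj (K' := K) σ₀
  have h3 := h2 Ω hΩ σ
  have h4 : ∑ g, t g • Finsupp.single (σ.comp (act g : K →ₐ[ℂ] K)) (1 : ℤ) =
      N • pull L K Ω (Finsupp.single σ₀ (1 : ℤ)) := by
    rw [← hσ, pull_eq act hact H₀ hL hcard σ, Finset.smul_sum]
    have h5 : ∀ g, t g = if g ∈ H₀ then (N : ℤ) else 0 := by
      intro g
      have h6 : (t g : ℚ) = N * (if g ∈ H₀ then (1 : ℚ) else 0) := ht g
      split_ifs with hg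
      · rw [if_pos hg, mul_one] at h6
        exact_mod_cast h6
      · rw [if_neg hg, mul_zero] at h6
        exact_mod_cast h6
    simp only [h5, ite_smul, zero_smul, natCast_zsmul]
    rw [← Finset.sum_filter]
    symm
    refine Finset.sum_bij (fun (h : H₀) _ => (h : G)) (fun h _ => ?_) (fun h _ h' _ hh => ?_)
      (fun g hg => ?_) (fun h _ => rfl)
    · rw [Finset.mem_filter]
      exact ⟨Finset.mem_univ _, h.2⟩
    · exact Subtype.ext hh
    · rw [Finset.mem_filter] at hg
      exact ⟨⟨g, hg.2⟩, Finset.mem_univ _, rfl⟩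
  rw [h4] at h3
  have h5 := rat_push (K := L) h3
  have h6 : (N • pull L K Ω (Finsupp.single σ₀ (1 : ℤ))).mapDomain (restr L Ω) =
      N • (pull L K Ω (Finsupp.single σ₀ (1 : ℤ))).mapDomain (restr L Ω) :=
    map_nsmul (Finsupp.mapDomain.addMonoidHom (restr L Ω)) N _
  rw [h6, push_pull, ← mul_smul] at h5
  exact h5

end

end Pool.Agent.L7h90.BP
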