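import Mathlib

/-!
The system of equations for the curves of contact order six: the leading forms.
-/

set_option autoImplicit false

namespace Pool.Agent.L7h90.BP

section

variable {R : Type} [CommRing R]

/-- the third division polynomial of `y² = x³ + A x + B` -/
def psi3 (A B x : R) : R := 3 * x ^ 4 + 6 * A * x ^ 2 + 12 * B * x - A ^ 2

/-- the fourth division polynomial, divided by `4 y` -/
def phi4 (A B x : R) : R :=
  x ^ 6 + 5 * A * x ^ 4 + 20 * B * x ^ 3 - 5 * A ^ 2 * x ^ 2 - 4 * A * B * x - 8 * B ^ 2 - A ^ 3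

/-- the sixth division polynomial, divided by `2 y psi3` -/
def chi6 (A B x : R) : R :=
  32 * (x ^ 3 + A * x + B) ^ 2 * phi4 A B x - psi3 A B x ^ 3 - 4 * phi4 A B x ^ 2

variable {R' : Type} [CommRing R']

theorem map_psi3 (φ : R →+* R') (A B x : R) : φ (psi3 A B x) = psi3 (φ A) (φ B) (φ x) := by
  unfold psi3
  simp only [map_add, map_sub, map_mul, map_pow, map_ofNat]

theorem map_chi6 (φ : R →+* R') (A B x : R) : φ (chi6 A B x) = chi6 (φ A) (φ B) (φ x) := by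
  unfold chi6 phi4 psi3
  simp only [map_add, map_sub, map_mul, map_pow, map_ofNat]

end

section

variable {Ω : Type} [Field Ω]

theorem quad_res {a b c a' b' c' z : Ω} (h1 : a * z ^ 2 + b * z + c = 0)
    (h2 : a' * z ^ 2 + b' * z + c' = 0) :
    (a * c' - a' * c) ^ 2 - (a * b' - a' * b) * (b * c' - b' * c) = 0 := by
  linear_combination (-a' * (a * (a' * z ^ 2 + b' * z + c') - a' * (a * z ^ 2 + b * z + c)) +
    2 * (a * b' - a' * b) * z * a' + (a * b' - a' * b) * b') * h1 +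
    (a * (a * (a' * z ^ 2 + b' * z + c') - a' * (a * z ^ 2 + b * z + c)) -
    2 * (a * b' - a' * b) * z * a - (a * b' - a' * b) * b) * h2

theorem res_eq (A x h : Ω) {B : Ω} (hB : B = h ^ 2 - x ^ 3 - A * x) :
    ((-psi3 A B x) * (-(psi3 A B x * phi4 A B x)) -
      (phi4 A B x - 4 * h ^ 4) * (psi3 A B x ^ 2 - 4 * (3 * x ^ 2 + A) * phi4 A B x)) ^ 2 -
    ((-psi3 A B x) * (psi3 A B x ^ 2 - (3 * x ^ 2 + A) * phi4 A B x) -
      (phi4 A B x - 4 * h ^ 4) * (6 * phi4 A B x)) *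
    ((6 * phi4 A B x) * (-(psi3 A B x * phi4 A B x)) -
      (psi3 A B x ^ 2 - (3 * x ^ 2 + A) * phi4 A B x) *
        (psi3 A B x ^ 2 - 4 * (3 * x ^ 2 + A) * phi4 A B x)) =
    16 * (4 * A ^ 3 + 27 * B ^ 2) * h ^ 4 * psi3 A B x * chi6 A B x := by
  subst hB
  unfold psi3 phi4 chi6 psi3 phi4
  ring

theorem top_zero [CharZero Ω] {A B x h : Ω} (hH : h ^ 2 = x ^ 3 + A * x + B) (hh : h ≠ 0)
    (hΔ : 4 * A ^ 3 + 27 * B ^ 2 ≠ 0) (h3 : psi3 A B x ≠ 0) (h6 : chi6 A B x ≠ 0)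
    {s1 s2 v1 v2 v3 : Ω} (e1 : 2 * h * v1 = (3 * x ^ 2 + A) * s1)
    (e2 : 2 * h * v2 + v1 ^ 2 = (3 * x ^ 2 + A) * s2 + 3 * x * s1 ^ 2)
    (e3 : 2 * h * v3 + 2 * v1 * v2 = s1 ^ 3 + 6 * x * s1 * s2)
    (e4 : 2 * v1 * v3 + v2 ^ 2 = 3 * s1 ^ 2 * s2 + 3 * x * s2 ^ 2)
    (e5 : 2 * v2 * v3 = 3 * s1 * s2 ^ 2) : s1 = 0 ∧ s2 = 0 := by
  have hB : B = h ^ 2 - x ^ 3 - A * x := by linear_combination -hH
  have hp : psi3 A B x = 12 * h ^ 2 * x - (3 * x ^ 2 + A) ^ 2 := by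
    rw [hB]; unfold psi3; ring
  have hf : phi4 A B x = (3 * x ^ 2 + A) * psi3 A B x - 8 * h ^ 4 := by
    rw [hB]; unfold psi3 phi4; ring
  obtain ⟨e, he⟩ : ∃ e, e = 3 * x ^ 2 + A := ⟨_, rfl⟩
  obtain ⟨p, hpd⟩ : ∃ p, p = psi3 A B x := ⟨_, rfl⟩
  obtain ⟨f, hfd⟩ : ∃ f, f = phi4 A B x := ⟨_, rfl⟩
  rw [← hpd] at h3 hp hf
  rw [← hfd] at hf
  rw [← he] at e1 e2 hp hf
  have k2 : 8 * h ^ 3 * v2 = 4 * h ^ 2 * e * s2 + p * s1 ^ 2 := by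
    rw [hp]
    linear_combination (4 * h ^ 2) * e2 - (2 * h * v1 + e * s1) * e1
  have k3 : 16 * h ^ 5 * v3 = s1 * (4 * h ^ 2 * p * s2 - f * s1 ^ 2) := by
    rw [hf]
    linear_combination (8 * h ^ 4) * e3 - (8 * h ^ 3 * v2) * e1 - (e * s1) * k2 -
      4 * h ^ 2 * s1 * s2 * hp
  have t4 : 4 * (e * s1) * (s1 * (4 * h ^ 2 * p * s2 - f * s1 ^ 2)) +
      (4 * h ^ 2 * e * s2 + p * s1 ^ 2) ^ 2 = 64 * h ^ 6 * (3 * s1 ^ 2 * s2 + 3 * x * s2 ^ 2) := by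
    rw [← e1, ← k2, ← k3, ← e4]
    ring
  have t5 : (4 * h ^ 2 * e * s2 + p * s1 ^ 2) * (s1 * (4 * h ^ 2 * p * s2 - f * s1 ^ 2)) =
      64 * h ^ 8 * (3 * s1 * s2 ^ 2) := by
    rw [← k2, ← k3, ← e5]
    ring
  by_cases hs1 : s1 = 0
  · refine ⟨hs1, ?_⟩
    rw [hs1] at t4
    have h7 : 16 * h ^ 4 * p * s2 ^ 2 = 0 := by
      rw [hp]
      linear_combination -t4
    have h8 : (16 : Ω) * h ^ 4 * p ≠ 0 :=
      mul_ne_zero (mul_ne_zero (by norm_num) (pow_ne_zero _ hh)) h3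
    exact pow_eq_zero_iff (two_ne_zero) |>.1 ((mul_eq_zero.1 h7).resolve_left h8)
  · exfalso
    obtain ⟨z, hz⟩ : ∃ z, z = 4 * h ^ 2 * s2 / s1 ^ 2 := ⟨_, rfl⟩
    have hz' : 4 * h ^ 2 * s2 = z * s1 ^ 2 := by
      rw [hz]
      field_simp
    have q1 : (-p) * z ^ 2 + (6 * f) * z + (p ^ 2 - 4 * e * f) = 0 := by
      have h7 : s1 ^ 4 * ((-p) * z ^ 2 + (6 * f) * z + (p ^ 2 - 4 * e * f)) = 0 := by
        have h8 : s1 ^ 4 * ((-p) * z ^ 2 + (6 * f) * z + (p ^ 2 - 4 * e * f)) =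
            (-p) * (z * s1 ^ 2) ^ 2 + (6 * f) * (z * s1 ^ 2) * s1 ^ 2 +
              (p ^ 2 - 4 * e * f) * s1 ^ 4 := by ring
        rw [h8, ← hz']
        linear_combination t4 + (24 * h ^ 2 * s1 ^ 2 * s2) * hf - (16 * h ^ 4 * s2 ^ 2) * hp
      exact (mul_eq_zero.1 h7).resolve_left (pow_ne_zero _ hs1)
    have q2 : (f - 4 * h ^ 4) * z ^ 2 + (p ^ 2 - e * f) * z + (-(p * f)) = 0 := by
      have h7 : s1 ^ 5 * ((f - 4 * h ^ 4) * z ^ 2 + (p ^ 2 - e * f) * z + (-(p * f))) = 0 := by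
        have h8 : s1 ^ 5 * ((f - 4 * h ^ 4) * z ^ 2 + (p ^ 2 - e * f) * z + (-(p * f))) =
            s1 * ((f - 4 * h ^ 4) * (z * s1 ^ 2) ^ 2 + (p ^ 2 - e * f) * (z * s1 ^ 2) * s1 ^ 2 +
              (-(p * f)) * s1 ^ 4) := by ring
        rw [h8, ← hz']
        linear_combination t5 + (16 * h ^ 4 * s1 * s2 ^ 2) * hf
      exact (mul_eq_zero.1 h7).resolve_left (pow_ne_zero _ hs1)
    have q3 := quad_res q1 q2
    have q4 := res_eq A x h hB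
    rw [← hpd, ← hfd, ← he] at q4
    rw [q4] at q3
    have h7 : (16 : Ω) * (4 * A ^ 3 + 27 * B ^ 2) * h ^ 4 * p * chi6 A B x ≠ 0 :=
      mul_ne_zero (mul_ne_zero (mul_ne_zero (mul_ne_zero (by norm_num) hΔ) (pow_ne_zero _ hh)) h3) h6
    exact h7 q3

end

end Pool.Agent.L7h90.BP
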