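import Pool.Agent.L7h90.Meet
import Pool.Agent.L7h90.Top

/-!
The system of equations for the curves of contact order six: the solution.
-/

set_option autoImplicit false
set_option maxHeartbeats 4000000

namespace Pool.Agent.L7h90.BP

open MvPolynomial

section

variable {Ω : Type} [Field Ω]

theorem mono_hom (c : Ω) (i j k : ℕ) :
    (C c * X 0 ^ i * X 1 ^ j * X 2 ^ k : MvPolynomial (Fin 3) Ω).IsHomogeneous (i + j + k) := by
  have h1 : (C c : MvPolynomial (Fin 3) Ω).IsHomogeneous 0 := isHomogeneous_C _ _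
  have h2 := ((h1.mul ((isHomogeneous_X Ω (0 : Fin 3)).pow i)).mul
    ((isHomogeneous_X Ω (1 : Fin 3)).pow j)).mul ((isHomogeneous_X Ω (2 : Fin 3)).pow k)
  simpa using h2

theorem exists_sol [IsAlgClosed Ω] [CharZero Ω] {A B x h : Ω} (hH : h ^ 2 = x ^ 3 + A * x + B)
    (hh : h ≠ 0) (hΔ : 4 * A ^ 3 + 27 * B ^ 2 ≠ 0) (h3 : psi3 A B x ≠ 0) (h6 : chi6 A B x ≠ 0)
    (A1 A2 A3 A4 c1 c2 c3 c4 c5 : Ω) : ∃ s1 s2 r1 r2 r3 : Ω,
      2 * h * r1 = (3 * x ^ 2 + A) * s1 + c1 ∧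
      2 * h * r2 + r1 ^ 2 = (3 * x ^ 2 + A) * s2 + 3 * x * s1 ^ 2 + A1 * s1 + c2 ∧
      2 * h * r3 + 2 * r1 * r2 = s1 ^ 3 + 6 * x * s1 * s2 + A1 * s2 + A2 * s1 + c3 ∧
      2 * r1 * r3 + r2 ^ 2 = 3 * s1 ^ 2 * s2 + 3 * x * s2 ^ 2 + A2 * s2 + A3 * s1 + c4 ∧
      2 * r2 * r3 = 3 * s1 * s2 ^ 2 + A3 * s2 + A4 * s1 + c5 := by
  have h2h : 2 * h ≠ 0 := mul_ne_zero two_ne_zero hh
  obtain ⟨m, hm⟩ : ∃ m : Ω → ℕ → ℕ → ℕ → MvPolynomial (Fin 3) Ω,
    m = fun c i j k => C c * X 0 ^ i * X 1 ^ j * X 2 ^ k := ⟨_, rfl⟩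
  have hmh : ∀ (c : Ω) (i j k n : ℕ), i + j + k = n → (m c i j k).IsHomogeneous n := by
    intro c i j k n hn
    rw [hm, ← hn]
    exact mono_hom c i j k
  have hme : ∀ (p : Fin 3 → Ω) (c : Ω) (i j k : ℕ),
      eval p (m c i j k) = c * p 0 ^ i * p 1 ^ j * p 2 ^ k := by
    intro p c i j k
    rw [hm]
    simp
  obtain ⟨g1, hg1⟩ : ∃ g, g = m (3 * x ^ 2 + A) 1 0 0 + m c1 0 0 1 := ⟨_, rfl⟩
  obtain ⟨g2, hg2⟩ : ∃ g, g = m (3 * x ^ 2 + A) 0 2 0 + m (3 * x) 2 0 0 + m A1 1 0 1 +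
    m c2 0 0 2 := ⟨_, rfl⟩
  obtain ⟨g3, hg3⟩ : ∃ g, g = m 1 3 0 0 + m (6 * x) 1 2 0 + m A1 0 2 1 + m A2 1 0 2 +
    m c3 0 0 3 := ⟨_, rfl⟩
  obtain ⟨g4, hg4⟩ : ∃ g, g = m 3 2 2 0 + m (3 * x) 0 4 0 + m A2 0 2 2 + m A3 1 0 3 +
    m c4 0 0 4 := ⟨_, rfl⟩
  obtain ⟨g5, hg5⟩ : ∃ g, g = m 3 1 4 0 + m A3 0 2 3 + m A4 1 0 4 + m c5 0 0 5 := ⟨_, rfl⟩
  have hg1h : g1.IsHomogeneous 1 := by
    rw [hg1]
    have t0 := hmh (3 * x ^ 2 + A) 1 0 0 1 rfl
    have t1 := hmh (c1) 0 0 1 1 rfl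
    exact (t0.add t1)
  have hg2h : g2.IsHomogeneous 2 := by
    rw [hg2]
    have t0 := hmh (3 * x ^ 2 + A) 0 2 0 2 rfl
    have t1 := hmh (3 * x) 2 0 0 2 rfl
    have t2 := hmh (A1) 1 0 1 2 rfl
    have t3 := hmh (c2) 0 0 2 2 rfl
    exact (((t0.add t1).add t2).add t3)
  have hg3h : g3.IsHomogeneous 3 := by
    rw [hg3]
    have t0 := hmh (1) 3 0 0 3 rfl
    have t1 := hmh (6 * x) 1 2 0 3 rfl
    have t2 := hmh (A1) 0 2 1 3 rfl
    have t3 := hmh (A2) 1 0 2 3 rfl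
    have t4 := hmh (c3) 0 0 3 3 rfl
    exact ((((t0.add t1).add t2).add t3).add t4)
  have hg4h : g4.IsHomogeneous 4 := by
    rw [hg4]
    have t0 := hmh (3) 2 2 0 4 rfl
    have t1 := hmh (3 * x) 0 4 0 4 rfl
    have t2 := hmh (A2) 0 2 2 4 rfl
    have t3 := hmh (A3) 1 0 3 4 rfl
    have t4 := hmh (c4) 0 0 4 4 rfl
    exact ((((t0.add t1).add t2).add t3).add t4)
  have hg5h : g5.IsHomogeneous 5 := by
    rw [hg5]
    have t0 := hmh (3) 1 4 0 5 rfl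
    have t1 := hmh (A3) 0 2 3 5 rfl
    have t2 := hmh (A4) 1 0 4 5 rfl
    have t3 := hmh (c5) 0 0 5 5 rfl
    exact (((t0.add t1).add t2).add t3)
  have hCm : ∀ (c : Ω) {g : MvPolynomial (Fin 3) Ω} {n : ℕ}, g.IsHomogeneous n →
      (C c * g).IsHomogeneous n := by
    intro c g n hg
    have := (isHomogeneous_C (Fin 3) c).mul hg
    rwa [zero_add] at this
  have hsub : ∀ {g g' : MvPolynomial (Fin 3) Ω} {n : ℕ}, g.IsHomogeneous n →
      g'.IsHomogeneous n → (g - g').IsHomogeneous n := by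
    intro g g' n hg hg'
    have := hg.add (hCm (-1) hg')
    rwa [C_neg, C_1, neg_one_mul, ← sub_eq_add_neg] at this
  obtain ⟨u1, hu1⟩ : ∃ u, u = C (2 * h)⁻¹ * g1 := ⟨_, rfl⟩
  obtain ⟨u2, hu2⟩ : ∃ u, u = C (2 * h)⁻¹ * (g2 - u1 ^ 2) := ⟨_, rfl⟩
  obtain ⟨u3, hu3⟩ : ∃ u, u = C (2 * h)⁻¹ * (g3 - C 2 * (u1 * u2)) := ⟨_, rfl⟩
  have hu1h : u1.IsHomogeneous 1 := by
    rw [hu1]
    exact hCm _ hg1h
  have hu2h : u2.IsHomogeneous 2 := by
    rw [hu2]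
    exact hCm _ (hsub hg2h (hu1h.pow 2))
  have hu3h : u3.IsHomogeneous 3 := by
    rw [hu3]
    exact hCm _ (hsub hg3h (hCm _ (hu1h.mul hu2h)))
  have hF4 : (C 2 * (u1 * u3) + u2 ^ 2 - g4).IsHomogeneous 4 :=
    hsub ((hCm _ (hu1h.mul hu3h)).add (hu2h.pow 2)) hg4h
  have hF5 : (C 2 * (u2 * u3) - g5).IsHomogeneous 5 := hsub (hCm _ (hu2h.mul hu3h)) hg5h
  obtain ⟨p, hp0, hp4, hp5⟩ := exists_common_zero (by norm_num) (by norm_num) hF4 hF5
  -- the equations at a point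
  have hev : ∀ q : Fin 3 → Ω, eval q (C 2 * (u1 * u3) + u2 ^ 2 - g4) = 0 →
      eval q (C 2 * (u2 * u3) - g5) = 0 →
      2 * h * eval q u1 = eval q g1 ∧ 2 * h * eval q u2 + (eval q u1) ^ 2 = eval q g2 ∧
      2 * h * eval q u3 + 2 * eval q u1 * eval q u2 = eval q g3 ∧
      2 * eval q u1 * eval q u3 + (eval q u2) ^ 2 = eval q g4 ∧
      2 * eval q u2 * eval q u3 = eval q g5 := by
    intro q h4 h5
    refine ⟨?_, ?_, ?_, ?_, ?_⟩
    · conv_lhs => rw [hu1]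
      rw [map_mul, eval_C]
      field_simp
    · conv_lhs => rw [hu2]
      rw [map_mul, eval_C, map_sub, map_pow]
      field_simp
      ring
    · conv_lhs => rw [hu3]
      rw [map_mul, eval_C, map_sub, map_mul, map_mul, eval_C]
      field_simp
      ring
    · rw [map_sub, map_add, map_mul, map_mul, map_pow, eval_C] at h4
      linear_combination h4
    · rw [map_sub, map_mul, map_mul, eval_C] at h5
      linear_combination h5
  have hZ : p 2 ≠ 0 := by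
    intro hZ
    obtain ⟨q1, q2, q3, q4, q5⟩ := hev p hp4 hp5
    rw [hg1, map_add, hme, hme, hZ] at q1
    rw [hg2, map_add, map_add, map_add, hme, hme, hme, hme, hZ] at q2
    rw [hg3, map_add, map_add, map_add, map_add, hme, hme, hme, hme, hme, hZ] at q3
    rw [hg4, map_add, map_add, map_add, map_add, hme, hme, hme, hme, hme, hZ] at q4
    rw [hg5, map_add, map_add, map_add, hme, hme, hme, hme, hZ] at q5
    obtain ⟨k1, k2⟩ := top_zero (s1 := p 0) (s2 := p 1 ^ 2) (v1 := eval p u1) (v2 := eval p u2)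
      (v3 := eval p u3) hH hh hΔ h3 h6 (by linear_combination q1) (by linear_combination q2)
      (by linear_combination q3) (by linear_combination q4) (by linear_combination q5)
    apply hp0
    funext i
    fin_cases i
    · exact k1
    · exact pow_eq_zero_iff (two_ne_zero) |>.1 k2
    · exact hZ
  obtain ⟨q, hq⟩ : ∃ q, q = (p 2)⁻¹ • p := ⟨_, rfl⟩
  have hq4 : eval q (C 2 * (u1 * u3) + u2 ^ 2 - g4) = 0 := by
    rw [hq, aeval_smul' hF4, hp4, mul_zero]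
  have hq5 : eval q (C 2 * (u2 * u3) - g5) = 0 := by
    rw [hq, aeval_smul' hF5, hp5, mul_zero]
  have hq2 : q 2 = 1 := by
    rw [hq, Pi.smul_apply, smul_eq_mul, inv_mul_cancel₀ hZ]
  obtain ⟨q1, q2, q3, q4, q5⟩ := hev q hq4 hq5
  rw [hg1, map_add, hme, hme, hq2] at q1
  rw [hg2, map_add, map_add, map_add, hme, hme, hme, hme, hq2] at q2
  rw [hg3, map_add, map_add, map_add, map_add, hme, hme, hme, hme, hme, hq2] at q3
  rw [hg4, map_add, map_add, map_add, map_add, hme, hme, hme, hme, hme, hq2] at q4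
  rw [hg5, map_add, map_add, map_add, hme, hme, hme, hme, hq2] at q5
  refine ⟨q 0, q 1 ^ 2, eval q u1, eval q u2, eval q u3, ?_, ?_, ?_, ?_, ?_⟩
  · linear_combination q1
  · linear_combination q2
  · linear_combination q3
  · linear_combination q4
  · linear_combination q5

end

end Pool.Agent.L7h90.BP
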