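import Pool.Agent.N162.BC.Pull
import Pool.Agent.W619.PQ.Tr

/-!
The sum over the places above a place.
-/

set_option autoImplicit false
set_option linter.overlappingInstances false
set_option linter.unusedSectionVars false
set_option maxHeartbeats 4000000
set_option synthInstance.maxHeartbeats 400000

open FF Polynomial Pool.Agent.W603.LV Pool.Agent.W602.GT Pool.Agent.W619.PQ Pool.Agent.N162.BC
open Module

namespace Pool.Agent.L7h90.BP

section

variable {Ω M M' : Type} [Field Ω] [IsAlgClosed Ω] [CharZero Ω] [Field M] [Field M']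
  [Algebra Ω M] [Algebra Ω M'] [Algebra M M'] [IsScalarTower Ω M M'] [FiniteDimensional M M']
  [IsFF Ω M] [IsFF Ω M']

/-- the sum over the places above a place -/
theorem sum_over (v : Place Ω M) : ∃ S : Finset (Place Ω M'), (∀ w, w ∈ S ↔ ∃ e, Over w v e) ∧
    ∀ f : M, ∑ w ∈ S, w.ord (algebraMap M M' f) = (finrank M M' : ℤ) * v.ord f := by
  classical
  let iA : Algebra v.O M' := algO v
  let ik : Algebra Ω v.O := algk v
  obtain ⟨t, ht0, ht⟩ := v.surj
  have htr : v.Reg t := Or.inr (by omega)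
  have : IsDiscreteValuationRing v.O := v.isDVR
  have : CharZero M := charZero_of_injective_algebraMap (algebraMap Ω M).injective
  have i1 : IsScalarTower v.O M M' := IsScalarTower.of_algebraMap_eq fun _ => rfl
  have i2 : IsScalarTower Ω v.O M' := IsScalarTower.of_algebraMap_eq fun c => by
    rw [IsScalarTower.algebraMap_apply Ω M M']
    rfl
  have hmax : (Ideal.span {(⟨t, htr⟩ : v.O)}).IsMaximal := by
    rw [maximalIdeal_eq v ht0 ht htr]
    infer_instance
  have hπ0 : (⟨t, htr⟩ : v.O) ≠ 0 := fun h => ht0 (congrArg Subtype.val h)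
  obtain ⟨S, hS1, -, hS3⟩ := fundamental (k := Ω) (A := v.O) (L := M') M ⟨t, htr⟩ hπ0 hmax
  have hmem : ∀ w, w ∈ S ↔ ∃ e, Over w v e := by
    intro w
    rw [hS1]
    constructor
    · rintro ⟨h1, h2⟩
      exact ⟨_, over_of_reg w v t ht0 ht (fun f hf => h1 ⟨f, hf⟩) h2⟩
    · rintro ⟨e, he⟩
      refine ⟨fun a => he.reg.2 a.2, ?_⟩
      change 0 < w.ord (algebraMap M M' t)
      rw [he.2, ht, mul_one]
      exact_mod_cast he.1
  have hrel : ∀ w ∈ S, w.relf v.O = 1 := by
    intro w hw
    obtain ⟨e, he⟩ := (hmem w).1 hw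
    rw [relf_eq he]
    have h1 : Function.Surjective (algebraMap Ω w.RF) :=
      (IsAlgClosed.algebraMap_bijective_of_isIntegral (k := Ω) (K := w.RF)).2
    have h2 : Function.Bijective he.resMap.toRingHom := by
      refine ⟨he.resMap.toRingHom.injective, fun c => ?_⟩
      obtain ⟨d, hd⟩ := h1 c
      exact ⟨algebraMap Ω v.RF d, by rw [← hd]; exact he.resMap.commutes d⟩
    let _ : Algebra v.RF w.RF := he.resMap.toRingHom.toAlgebra
    have h3 := LinearEquiv.finrank_eq (LinearEquiv.ofBijective (Algebra.linearMap v.RF w.RF) h2)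
    rw [Module.finrank_self] at h3
    exact h3.symm
  refine ⟨S, hmem, fun f => ?_⟩
  rw [← hS3]
  push_cast
  rw [Finset.sum_mul]
  refine Finset.sum_congr rfl fun w hw => ?_
  obtain ⟨e, he⟩ := (hmem w).1 hw
  rw [hrel w hw, Nat.cast_one, mul_one]
  change _ = ((w.ord (algebraMap M M' t)).toNat : ℤ) * v.ord f
  rw [he.2, he.2, ht, mul_one, Int.toNat_natCast]

end

end Pool.Agent.L7h90.BP
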