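import Pool.Agent.L7h90.Defs
import Pool.Agent.L7h90.Group

/-!
Correspondences between pencils of curves on surfaces.
-/

set_option autoImplicit false

open FF Pool.Agent.W602.GT Pool.Agent.N162.BC
open scoped IntermediateField

namespace Pool.Agent.L7h90.BP

/-- The surface with the function field `Y` is rational. -/
def RationalSurface (Y : Type) [Field Y] [Algebra ℂ Y] : Prop :=
  ∃ u v : Y, AlgebraicIndependent ℂ ![u, v] ∧ IntermediateField.adjoin ℂ {u, v} = ⊤

/-- Let `x : X ⇢ P¹` be a pencil on the surface `X` with the function field `K`, with the generic
member `C` over `ℂ(x)`, and let `y` be another coordinate on `X`. The differentials of `C` over `ℂ(x)`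
are `g dy` with `g ∈ K`. The property `Transfer x y T` means that there are

* a surface with the function field `Y` which is rational or satisfies Bloch's conjecture
  (`Trivial Y`), with a map `x'` to the line and another coordinate `y'`; let `C'` be the curve over
  the field of rational functions of the line whose function field is `Y`;
* surfaces with the function fields `M` and `M'` which have dominant rational maps to both surfaces
  such that `x = x'` on them, in other words, prime correspondences between `C` and `C'`;

such that `T` is the action of the composition `C ⊢ C' ⊢ C` of these two correspondences on the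
differentials of `C`. Here `D` and `D'` are the derivatives `∂/∂y` and `∂/∂y'` on `M` and `M'`, for
constant `x`: a differential `g dy` of `C` is `D' (y) g dy'` on `M'`, its trace to `C'` is
`f dy'` with `f = trace (D' (y) g)`, this is `D (y') f dy` on `M`, and its trace to `C` is
`trace (D (y') f) dy`. -/
def Transfer {K : Type} [Field K] [Algebra ℂ K] (x y : K) (T : K → K) : Prop :=
  ∃ (Y M M' : Type) (_ : Field Y) (_ : Algebra ℂ Y) (_ : Field M) (_ : Algebra ℂ M)
    (_ : Field M') (_ : Algebra ℂ M') (_ : Algebra K M) (_ : Algebra Y M) (_ : Algebra K M')
    (_ : Algebra Y M') (_ : IsScalarTower ℂ K M) (_ : IsScalarTower ℂ Y M)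
    (_ : IsScalarTower ℂ K M') (_ : IsScalarTower ℂ Y M') (_ : FiniteDimensional K M)
    (_ : FiniteDimensional Y M) (_ : FiniteDimensional K M') (_ : FiniteDimensional Y M')
    (x' y' : Y) (D : Derivation ℂ M M) (D' : Derivation ℂ M' M'),
    (RationalSurface Y ∨ Trivial Y) ∧ AlgebraicIndependent ℂ ![x', y'] ∧
    algebraMap Y M x' = algebraMap K M x ∧ algebraMap Y M' x' = algebraMap K M' x ∧
    D (algebraMap K M x) = 0 ∧ D (algebraMap K M y) = 1 ∧
    D' (algebraMap K M' x) = 0 ∧ D' (algebraMap Y M' y') = 1 ∧
    ∀ g : K, T g = Algebra.trace K M (D (algebraMap Y M y') *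
      algebraMap Y M (Algebra.trace Y M' (D' (algebraMap K M' y) * algebraMap K M' g)))

end Pool.Agent.L7h90.BP
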