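import Pool.Agent.L7h90.TDefs
import Pool.Agent.L7h90.Deg

/-!
Correspondences between pencils of curves on surfaces.
-/

set_option autoImplicit false
set_option linter.overlappingInstances false
set_option linter.unusedSectionVars false
set_option maxHeartbeats 4000000
set_option synthInstance.maxHeartbeats 400000

open FF Polynomial Pool.Agent.W603.LV Pool.Agent.W602.GT Pool.Agent.W619.PQ Pool.Agent.N162.BC
open Module IntermediateField

namespace Pool.Agent.L7h90.BP

section

variable {M Ω : Type} [Field M] [Algebra ℂ M] [Field Ω] [Algebra ℂ Ω]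

/-- the value of `dx ∧ dy` -/
def WW (τ : M →ₐ[ℂ] Ω) (D : Fin 2 → Derivation ℂ Ω Ω) (x y : M) : Ω :=
  D 0 (τ x) * D 1 (τ y) - D 0 (τ y) * D 1 (τ x)

theorem WW_change (τ : M →ₐ[ℂ] Ω) (D : Fin 2 → Derivation ℂ Ω Ω) {x y : M}
    (hxy : IsTranscendenceBasis ℂ ![x, y]) {H : Derivation ℂ M M} (hx : H x = 0) (hy : H y = 1)
    (a : M) : WW τ D x a = τ (H a) * WW τ D x y := by
  refine sub_eq_zero.1 (hom_der_ext τ hxy (fun a => WW τ D x a - τ (H a) * WW τ D x y)
    (fun a b => ?_) (fun c a => ?_) (fun a b => ?_) (fun l => ?_) a)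
  · unfold WW
    rw [map_add, map_add, map_add, map_add, map_add]
    ring
  · unfold WW
    rw [map_smul, Derivation.map_smul, Derivation.map_smul, Derivation.map_smul, map_smul]
    simp only [Algebra.smul_def]
    ring
  · unfold WW
    rw [map_mul, Derivation.leibniz, Derivation.leibniz, Derivation.leibniz, smul_eq_mul,
      smul_eq_mul, smul_eq_mul, smul_eq_mul, smul_eq_mul, smul_eq_mul, map_add, map_mul, map_mul]
    ring
  · fin_cases l
    · change WW τ D x x - τ (H x) * WW τ D x y = 0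
      rw [hx, map_zero]
      unfold WW
      ring
    · change WW τ D x y - τ (H y) * WW τ D x y = 0
      rw [hy, map_one]
      ring

theorem pullback_WW (τ : M →ₐ[ℂ] Ω) {E : Fin 2 → Derivation ℂ M M} (D : Fin 2 → Derivation ℂ Ω Ω)
    (x y : M) (ω : (Fin 2 → Derivation ℂ M M) → M) :
    pullback τ ![x, y] E ω D = WW τ D x y * τ (ω E) := by
  unfold pullback WW
  rw [Matrix.det_fin_two]
  simp only [Matrix.of_apply, Matrix.cons_val_zero, Matrix.cons_val_one]

theorem tb_map {K : Type} [Field K] [Algebra ℂ K] [Algebra K M] [IsScalarTower ℂ K M]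
    [FiniteDimensional K M] {x y : K} (h : IsTranscendenceBasis ℂ ![x, y]) :
    IsTranscendenceBasis ℂ ![algebraMap K M x, algebraMap K M y] := by
  have h1 : IsTranscendenceBasis ℂ (algebraMap K M ∘ ![x, y]) := h.algebraMap_comp
  have h2 : algebraMap K M ∘ ![x, y] = ![algebraMap K M x, algebraMap K M y] := by
    funext i
    fin_cases i <;> rfl
  rwa [h2] at h1

theorem trdeg_fin {K : Type} [Field K] [Algebra ℂ K] [Algebra K M] [IsScalarTower ℂ K M]
    [FiniteDimensional K M] : Algebra.trdeg ℂ K = Algebra.trdeg ℂ M := by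
  have h1 := trdeg_add_eq ℂ K (A := M)
  have h2 : Algebra.trdeg K M = 0 := by
    rw [_root_.trdeg_eq_zero_iff]
    infer_instance
  rw [h2, add_zero] at h1
  exact h1

end

/-- rational surfaces -/
theorem rational_trivial {Y : Type} [Field Y] [Algebra ℂ Y] (h : RationalSurface Y) :
    Trivial Y := by
  obtain ⟨u, v, huv, htop⟩ := h
  have hrange : Set.range ![u, v] = {u, v} := by
    rw [Matrix.range_cons, Matrix.range_cons, Matrix.range_empty, Set.union_empty]
    rfl
  have halg0 : Algebra.IsAlgebraic (IntermediateField.adjoin ℂ (Set.range ![u, v])) Y := by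
    rw [hrange, htop]
    refine ⟨fun a => ?_⟩
    exact isAlgebraic_algebraMap (⟨a, trivial⟩ : (⊤ : IntermediateField ℂ Y))
  have hbas : IsTranscendenceBasis ℂ ![u, v] := by
    refine (isTranscendenceBasis_iff_algebraicIndependent_isAlgebraic).2 ⟨huv, alg_adjoin halg0⟩
  have htr : Algebra.trdeg ℂ Y = 2 := by
    have := hbas.cardinalMk_eq_trdeg
    rw [← this]
    simp
  obtain ⟨L, hL⟩ : ∃ L, L = IntermediateField.adjoin ℂ (Set.range ![v ^ 2 - u ^ 3, u]) := ⟨_, rfl⟩
  have hmem : ∀ i, ![v ^ 2 - u ^ 3, u] i ∈ L := by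
    intro i
    rw [hL]
    exact subset_adjoin _ _ ⟨i, rfl⟩
  have halg : Algebra.IsAlgebraic L Y := by
    have h1 : (⊤ : IntermediateField ℂ Y) ≤ (algebraicClosure L Y).restrictScalars ℂ := by
      rw [← htop, adjoin_le_iff]
      rintro a (rfl | ha)
      · change a ∈ algebraicClosure L Y
        rw [mem_algebraicClosure_iff]
        exact isAlgebraic_algebraMap (⟨a, hmem 1⟩ : L)
      · rw [Set.mem_singleton_iff] at ha
        subst ha
        change a ∈ algebraicClosure L Y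
        rw [mem_algebraicClosure_iff]
        have h2 : IsAlgebraic L (a ^ 2) := by
          have h3 : a ^ 2 ∈ L := by
            have := add_mem (hmem 0) (pow_mem (hmem 1) 3)
            simpa using this
          exact isAlgebraic_algebraMap (⟨a ^ 2, h3⟩ : L)
        exact h2.of_pow (by norm_num)
    refine ⟨fun a => ?_⟩
    have h2 : a ∈ algebraicClosure L Y := h1 (show a ∈ (⊤ : IntermediateField ℂ Y) from trivial)
    exact mem_algebraicClosure_iff.1 h2
  have hind : AlgebraicIndependent ℂ ![v ^ 2 - u ^ 3, u] := by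
    rw [hL] at halg
    exact ind_of_alg htr (alg_adjoin halg)
  refine ⟨12, by norm_num, fun Ω _ _ _ _ σ => ?_⟩
  refine ell_rat (a := 0) (b := X) (x := v ^ 2 - u ^ 3) (ξ := u) (η := v) hind (by simp)
    (by simp) ?_ ?_ ?_ σ
  · intro h0
    have h1 := congrArg (fun p : Polynomial ℂ => p.eval 1) h0
    norm_num at h1
  · simp
  · rw [eq_top_iff, ← htop, adjoin_le_iff]
    rintro a (rfl | ha)
    · exact subset_adjoin _ _ ⟨1, rfl⟩
    · rw [Set.mem_singleton_iff] at ha
      subst ha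
      exact subset_adjoin _ _ ⟨2, rfl⟩

theorem tr_sum {K Ω : Type} [Field K] [Algebra ℂ K] [Field Ω] [Algebra ℂ Ω] (z : Fin 2 → K)
    (E : Fin 2 → Derivation ℂ K K)
    (ω : (Fin 2 → Derivation ℂ K K) → K) (D : Fin 2 → Derivation ℂ Ω Ω) {ι : Type}
    (s : Finset ι) (f : ι → (K →ₐ[ℂ] Ω)) :
    tr z E ω D (∑ i ∈ s, Finsupp.single (f i) (1 : ℤ)) = ∑ i ∈ s, pullback (f i) z E ω D := by
  rw [map_sum]
  refine Finset.sum_congr rfl fun i _ => ?_
  rw [tr_single, Int.cast_one, one_mul]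

/-- the cycle given by a correspondence -/
theorem transfer_cycle {K : Type} [Field K] [Algebra ℂ K] (hK : Algebra.trdeg ℂ K = 2) {x y : K}
    (hxy : IsTranscendenceBasis ℂ ![x, y]) {T : K → K} (hT : Transfer x y T) :
    ∃ N : ℕ, 0 < N ∧ ∀ (Ω : Type) [Field Ω] [Algebra ℂ Ω] [IsAlgClosed Ω],
      Algebra.trdeg ℂ Ω = 2 → ∀ σ : K →ₐ[ℂ] Ω, ∃ z : (K →ₐ[ℂ] Ω) →₀ ℤ,
        N • z ∈ Pool.Agent.N162.BC.Rat K Ω ∧ (∀ σ', z σ' ≠ 0 → σ' x = σ x) ∧
        ∀ (ω : (Fin 2 → Derivation ℂ K K) → K) (E : Fin 2 → Derivation ℂ K K)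
          (D : Fin 2 → Derivation ℂ Ω Ω), tr ![x, y] E ω D z = WW σ D x y * σ (T (ω E)) := by
  obtain ⟨Y, M, M', _, _, _, _, _, _, _, _, _, _, _, _, _, _, _, _, _, _, x', y', H, H', hY, hind,
    hxM, hxM', hHx, hHy, hHx', hHy', hTg⟩ := hT
  obtain ⟨NY, hNY, hY'⟩ : Trivial Y := hY.elim rational_trivial id
  have htrM : Algebra.trdeg ℂ M = 2 := by rw [← trdeg_fin (K := K), hK]
  have htrY : Algebra.trdeg ℂ Y = 2 := by rw [trdeg_fin (K := Y) (M := M), htrM]
  have hbY : IsTranscendenceBasis ℂ ![x', y'] := by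
    refine hind.isTranscendenceBasis_of_lift_trdeg_le_of_finite ?_
    rw [htrY]
    simp
  have hbM : IsTranscendenceBasis ℂ ![algebraMap K M x, algebraMap K M y] := tb_map hxy
  have hbM' : IsTranscendenceBasis ℂ ![algebraMap K M' x, algebraMap Y M' y'] := by
    rw [← hxM']
    exact tb_map hbY
  refine ⟨(finrank Y M').factorial * NY, Nat.mul_pos (Nat.factorial_pos _) hNY,
    fun Ω _ _ _ hΩ σ => ?_⟩
  classical
  obtain ⟨B, hB⟩ : ∃ B : (Y →ₐ[ℂ] Ω) →₀ ℤ,
    B = ∑ τ ∈ fib M σ, Finsupp.single (restr Y Ω τ) (1 : ℤ) := ⟨_, rfl⟩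
  have hBr : NY • B ∈ Pool.Agent.N162.BC.Rat Y Ω := by
    rw [hB, Finset.smul_sum]
    exact sum_mem fun τ _ => hY' Ω hΩ _
  obtain ⟨z, hz⟩ : ∃ z : (K →ₐ[ℂ] Ω) →₀ ℤ,
    z = (pull Y M' Ω B).mapDomain (restr K Ω) := ⟨_, rfl⟩
  have hz2 : z = ∑ τ ∈ fib M σ, ∑ τ' ∈ fib M' (restr Y Ω τ), Finsupp.single (restr K Ω τ') (1 : ℤ) := by
    have h1 : ∀ c : (M' →ₐ[ℂ] Ω) →₀ ℤ, c.mapDomain (restr K Ω) =
      Finsupp.mapDomain.addMonoidHom (restr K Ω) c := fun c => rfl
    rw [hz, hB, map_sum, h1, map_sum]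
    refine Finset.sum_congr rfl fun τ _ => ?_
    rw [pull_single, map_sum]
    refine Finset.sum_congr rfl fun τ' _ => ?_
    rw [← h1, Finsupp.mapDomain_single]
  refine ⟨z, ?_, ?_, ?_⟩
  · have h1 := rat_push (K := K) (rat_pull (K' := M') hBr)
    rw [map_nsmul, ← mul_smul] at h1
    have h2 : ∀ c : (M' →ₐ[ℂ] Ω) →₀ ℤ, ∀ n : ℕ, (n • c).mapDomain (restr K Ω) =
        n • c.mapDomain (restr K Ω) := fun c n =>
      map_nsmul (Finsupp.mapDomain.addMonoidHom (restr K Ω)) n c
    rw [h2, ← hz] at h1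
    exact h1
  · intro σ' hσ'
    rw [hz2, Finsupp.finsetSum_apply] at hσ'
    obtain ⟨τ, hτ, h1⟩ := Finset.exists_ne_zero_of_sum_ne_zero hσ'
    rw [Finsupp.finsetSum_apply] at h1
    obtain ⟨τ', hτ', h2⟩ := Finset.exists_ne_zero_of_sum_ne_zero h1
    rw [Finsupp.single_apply] at h2
    have h3 : restr K Ω τ' = σ' := by
      by_contra h3
      rw [if_neg h3] at h2
      exact h2 rfl
    rw [mem_fib] at hτ hτ'
    rw [← h3, restr_apply, ← hxM']
    have h4 : τ' (algebraMap Y M' x') = τ (algebraMap Y M x') := DFunLike.congr_fun hτ' x'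
    rw [h4, hxM, ← restr_apply (K := K), hτ]
  · intro ω E D
    rw [hz2, map_sum]
    have h1 : ∀ τ ∈ fib M σ, tr ![x, y] E ω D (∑ τ' ∈ fib M' (restr Y Ω τ),
        Finsupp.single (restr K Ω τ') (1 : ℤ)) = WW σ D x y * τ (H (algebraMap Y M y') *
          algebraMap Y M (Algebra.trace Y M' (H' (algebraMap K M' y) *
            algebraMap K M' (ω E)))) := by
      intro τ hτ
      rw [mem_fib] at hτ
      rw [tr_sum]
      have h2 : ∀ τ' ∈ fib M' (restr Y Ω τ), pullback (restr K Ω τ') ![x, y] E ω D =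
          WW τ D (algebraMap Y M x') (algebraMap Y M y') *
            τ' (H' (algebraMap K M' y) * algebraMap K M' (ω E)) := by
        intro τ' hτ'
        rw [mem_fib] at hτ'
        rw [pullback_WW]
        have h3 : WW (restr K Ω τ') D x y = WW τ' D (algebraMap K M' x) (algebraMap K M' y) := rfl
        have h4 : WW τ D (algebraMap Y M x') (algebraMap Y M y') =
            WW τ' D (algebraMap K M' x) (algebraMap Y M' y') := by
          have h5 : ∀ a : Y, τ' (algebraMap Y M' a) = τ (algebraMap Y M a) :=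
            fun a => DFunLike.congr_fun hτ' a
          rw [← hxM']
          unfold WW
          rw [h5, h5]
        rw [h3, WW_change τ' D hbM' hHx' hHy' (algebraMap K M' y), h4, map_mul, restr_apply]
        ring
      have h6 : WW τ D (algebraMap K M x) (algebraMap K M y) = WW σ D x y := by
        rw [← hτ]
        rfl
      have h7 : ∀ a b : M, τ (a * b) = τ a * τ b := map_mul τ
      rw [Finset.sum_congr rfl h2, ← Finset.mul_sum, sum_fib, hxM,
        WW_change τ D hbM hHx hHy (algebraMap Y M y'), h6, h7, restr_apply]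
      ring
    rw [Finset.sum_congr rfl h1, ← Finset.mul_sum, sum_fib, hTg]

end Pool.Agent.L7h90.BP
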